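import Pool.Agent.H777R2.SM_T6D
import Pool.Agent.H405R2.SM_T6A
import Pool.Agent.H84R2.SM_T6B
import Pool.Agent.H84R2.SM_T6E
import Pool.Agent.H930R2.SM_T6C

set_option autoImplicit false

/-!
T6F of the sixth moment project: a Voronoi type bound by a contour shift.
-/

namespace Pool.Agent.H777R2.SM

open Finset Filter Topology MeasureTheory Complex
open Pool.Agent.H306R2 Pool.Agent.H306R2.SM
open Pool.Agent.H405R2.SM (hurwitz_growth)
open Pool.Agent.H84R2.SM (EE_series EE_entire)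
open Pool.Agent.H930R2.T6C (EE_left)

/-! ### Mellin inversion of `x^k e^{-x}` -/

theorem mellin_powexp (k : ℕ) (s : ℂ) (hs : 0 < s.re) :
    mellin (fun x : ℝ => ((x ^ k * Real.exp (-x) : ℝ) : ℂ)) s = Complex.Gamma (s + k) := by
  rw [Complex.Gamma_eq_integral (by simp; positivity)]
  unfold mellin Complex.GammaIntegral
  refine setIntegral_congr_fun measurableSet_Ioi fun x hx => ?_
  have hx0 : 0 < x := hx
  have hx1 : (x : ℂ) ≠ 0 := by exact_mod_cast hx0.ne'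
  show (x : ℂ) ^ (s - 1) • ((x ^ k * Real.exp (-x) : ℝ) : ℂ) =
    ((Real.exp (-x) : ℝ) : ℂ) * (x : ℂ) ^ (s + k - 1)
  rw [smul_eq_mul]
  have e : (x : ℂ) ^ (s + k - 1) = (x : ℂ) ^ (s - 1) * (x : ℂ) ^ k := by
    rw [← Complex.cpow_natCast, ← Complex.cpow_add _ _ hx1]
    congr 1
    ring
  rw [e]
  push_cast
  ring

theorem mellinConv_powexp (k : ℕ) (σ : ℝ) (hσ : 0 < σ) :
    MellinConvergent (fun x : ℝ => ((x ^ k * Real.exp (-x) : ℝ) : ℂ)) σ := by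
  have h1 := Complex.GammaIntegral_convergent (s := (σ : ℂ) + k) (by simp; positivity)
  unfold MellinConvergent
  refine h1.congr_fun ?_ measurableSet_Ioi
  intro x hx
  have hx0 : 0 < x := hx
  have hx1 : (x : ℂ) ≠ 0 := by exact_mod_cast hx0.ne'
  show ((Real.exp (-x) : ℝ) : ℂ) * (x : ℂ) ^ ((σ : ℂ) + k - 1) =
    (x : ℂ) ^ ((σ : ℂ) - 1) • ((x ^ k * Real.exp (-x) : ℝ) : ℂ)
  rw [smul_eq_mul]
  have e : (x : ℂ) ^ ((σ : ℂ) + k - 1) = (x : ℂ) ^ ((σ : ℂ) - 1) * (x : ℂ) ^ k := by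
    rw [← Complex.cpow_natCast, ← Complex.cpow_add _ _ hx1]
    congr 1
    ring
  rw [e]
  push_cast
  ring

/-- `Γ` on a vertical line is bounded by `K/(1+|τ|)^N` -/
theorem Gamma_line_bound (a : ℝ) (ha : 1 / 2 ≤ a) (N : ℕ) (τ : ℝ) :
    ‖Complex.Gamma ((a : ℂ) + τ * I)‖ ≤ 4 ^ N * Real.Gamma (a + N) / (1 + |τ|) ^ N := by
  have h := norm_Gamma_decay ((a : ℂ) + τ * I) (by simpa using ha) N
  have e1 : ((a : ℂ) + τ * I).re = a := by simp
  have e2 : ((a : ℂ) + τ * I).im = τ := by simp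
  rwa [e1, e2] at h

theorem Gamma_line_integrable (a : ℝ) (ha : 1 / 2 ≤ a) :
    Integrable (fun τ : ℝ => Complex.Gamma ((a : ℂ) + τ * I)) := by
  refine Integrable.mono' (integrable_weight.const_mul (4 ^ 2 * Real.Gamma (a + (2 : ℕ)))) ?_ ?_
  · exact (continuous_Gamma_line a (by linarith)).aestronglyMeasurable
  · refine Eventually.of_forall fun τ => ?_
    refine (Gamma_line_bound a ha 2 τ).trans (le_of_eq ?_)
    rw [Real.norm_eq_abs, Real.rpow_neg (by positivity)]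
    norm_num
    rfl

/-- Mellin inversion -/
theorem powexp_inversion (k : ℕ) (x : ℝ) (hx : 0 < x) :
    ((x ^ k * Real.exp (-x) : ℝ) : ℂ) =
      (1 / (2 * Real.pi) : ℝ) • ∫ τ : ℝ, (x : ℂ) ^ (-((2 : ℝ) + τ * I : ℂ)) *
        Complex.Gamma ((2 : ℝ) + τ * I + k) := by
  have hc : ContinuousAt (fun x : ℝ => ((x ^ k * Real.exp (-x) : ℝ) : ℂ)) x := by
    apply Continuous.continuousAt
    fun_prop
  have hG : ∀ τ : ℝ, mellin (fun x : ℝ => ((x ^ k * Real.exp (-x) : ℝ) : ℂ)) ((2 : ℝ) + τ * I) =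
      Complex.Gamma ((2 : ℝ) + τ * I + k) := fun τ => mellin_powexp k _ (by simp)
  have hv : VerticalIntegrable (mellin (fun x : ℝ => ((x ^ k * Real.exp (-x) : ℝ) : ℂ))) 2 := by
    unfold VerticalIntegrable
    have h1 := Gamma_line_integrable (2 + k) (by
      have : (0 : ℝ) ≤ k := Nat.cast_nonneg k
      linarith)
    refine h1.congr (Eventually.of_forall fun τ => ?_)
    show Complex.Gamma (((2 + k : ℝ) : ℂ) + τ * I) = mellin _ _
    rw [hG τ]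
    congr 1
    push_cast
    ring
  have h := mellinInv_mellin_eq 2 (fun x : ℝ => ((x ^ k * Real.exp (-x) : ℝ) : ℂ)) hx
    (mellinConv_powexp k 2 (by norm_num)) hv hc
  rw [← h]
  unfold mellinInv
  congr 1
  refine integral_congr_ae (Eventually.of_forall fun τ => ?_)
  show (x : ℂ) ^ (-((2 : ℝ) + τ * I : ℂ)) • _ = _
  rw [hG τ, smul_eq_mul]

/-- powers of quotients -/
theorem div_cpow_neg (n : ℕ) (hn : 1 ≤ n) (V : ℝ) (hV : 0 < V) (s : ℂ) :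
    (((n : ℝ) / V : ℝ) : ℂ) ^ (-s) = (n : ℂ) ^ (-s) * (V : ℂ) ^ s := by
  have hn' : (0 : ℝ) < n := by exact_mod_cast hn
  have hVc : (V : ℂ) ≠ 0 := by exact_mod_cast hV.ne'
  have e1 : (((n : ℝ) / V : ℝ) : ℂ) = ((n : ℝ) : ℂ) * ((V⁻¹ : ℝ) : ℂ) := by
    rw [div_eq_mul_inv]; push_cast; rfl
  rw [e1, Complex.mul_cpow_ofReal_nonneg hn'.le (inv_nonneg.mpr hV.le)]
  congr 1
  rw [Complex.ofReal_inv, Complex.inv_cpow _ _ (by
    rw [Complex.arg_ofReal_of_nonneg hV.le]; exact Real.pi_pos.ne), Complex.cpow_neg, inv_inv]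

theorem norm_cpow_line (V : ℝ) (hV : 0 < V) (x y : ℝ) :
    ‖(V : ℂ) ^ ((x : ℂ) + y * I)‖ = V ^ x := by
  rw [Complex.norm_cpow_eq_rpow_re_of_pos hV]
  simp

section main

variable (h : ℕ) [NeZero h] (Φ : ZMod h → ZMod h → ZMod h → ℂ)

theorem FF_zero : FF h Φ 0 = 0 := by simp [FF]

/-- summability at `2` -/
theorem FF_summable : Summable (fun n : ℕ => ‖FF h Φ n‖ * (n : ℝ) ^ (-2 : ℝ)) := by
  have h1 : LSeriesSummable (FF h Φ) 2 := (EE_series h Φ 2 (by norm_num)).LSeriesSummable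
  have h2 := h1.norm
  refine h2.congr fun n => ?_
  rcases Nat.eq_zero_or_pos n with h0 | h0
  · subst h0
    rw [FF_zero]; simp
  · rw [LSeries.norm_term_eq, if_neg (by omega)]
    have : (2 : ℂ).re = 2 := by norm_num
    rw [this, Real.rpow_neg (Nat.cast_nonneg n), div_eq_mul_inv]

/-- the integrand on the right line, term by term -/
noncomputable def Fn (k : ℕ) (V : ℝ) (n : ℕ) (τ : ℝ) : ℂ :=
  FF h Φ n * ((V ^ k / (2 * Real.pi) : ℝ) : ℂ) *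
    (((n : ℝ) / V : ℝ) : ℂ) ^ (-((2 : ℝ) + τ * I : ℂ)) * Complex.Gamma ((2 : ℝ) + τ * I + k)

theorem Fn_zero (k : ℕ) (V : ℝ) (τ : ℝ) : Fn h Φ k V 0 τ = 0 := by
  unfold Fn; rw [FF_zero]; ring

theorem Fn_norm (k : ℕ) (V : ℝ) (hV : 0 < V) (n : ℕ) (τ : ℝ) :
    ‖Fn h Φ k V n τ‖ = ‖FF h Φ n‖ * (n : ℝ) ^ (-2 : ℝ) * (V ^ k / (2 * Real.pi) * V ^ (2 : ℝ) *
      ‖Complex.Gamma ((2 : ℝ) + τ * I + k)‖) := by
  rcases Nat.eq_zero_or_pos n with h0 | h0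
  · subst h0
    rw [Fn_zero, FF_zero]; simp
  · have hn' : (0 : ℝ) < n := by exact_mod_cast h0
    unfold Fn
    rw [div_cpow_neg n h0 V hV, norm_mul, norm_mul, norm_mul, norm_mul, Complex.norm_real,
      Real.norm_of_nonneg (by positivity), norm_cpow_line V hV 2 τ]
    have e : ‖(n : ℂ) ^ (-((2 : ℝ) + τ * I : ℂ))‖ = (n : ℝ) ^ (-2 : ℝ) := by
      rw [Complex.norm_natCast_cpow_of_pos h0]
      simp
    rw [e]
    ring

theorem Gamma_two_int (k : ℕ) : Integrable (fun τ : ℝ => Complex.Gamma ((2 : ℝ) + τ * I + k)) := by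
  have h1 := Gamma_line_integrable (2 + k) (by
    have : (0 : ℝ) ≤ k := Nat.cast_nonneg k
    linarith)
  refine h1.congr (Eventually.of_forall fun τ => ?_)
  show Complex.Gamma (((2 + k : ℝ) : ℂ) + τ * I) = _
  congr 1
  push_cast
  ring

theorem Gamma_two_cont (k : ℕ) : Continuous (fun τ : ℝ => Complex.Gamma ((2 : ℝ) + τ * I + k)) := by
  have h1 := continuous_Gamma_line (2 + k) (by positivity)
  refine h1.congr fun τ => ?_
  congr 1
  push_cast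
  ring

theorem Fn_integrable (k : ℕ) (V : ℝ) (hV : 0 < V) (n : ℕ) : Integrable (Fn h Φ k V n) := by
  rcases Nat.eq_zero_or_pos n with h0 | h0
  · subst h0
    have : Fn h Φ k V 0 = fun _ => 0 := by ext τ; exact Fn_zero h Φ k V τ
    rw [this]; exact integrable_zero _ _ _
  · refine Integrable.mono' ((Gamma_two_int k).norm.const_mul
      (‖FF h Φ n‖ * (n : ℝ) ^ (-2 : ℝ) * (V ^ k / (2 * Real.pi) * V ^ (2 : ℝ)))) ?_ ?_
    · apply Continuous.aestronglyMeasurable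
      unfold Fn
      apply Continuous.mul
      · apply Continuous.mul continuous_const
        apply Continuous.const_cpow (by fun_prop)
        left
        have : ((n : ℝ) / V) ≠ 0 := by
          have : (0 : ℝ) < n := by exact_mod_cast h0
          positivity
        exact_mod_cast this
      · exact Gamma_two_cont k
    · refine Eventually.of_forall fun τ => ?_
      rw [Fn_norm h Φ k V hV n τ]
      apply le_of_eq
      ring

theorem Fn_tsum (k : ℕ) (V : ℝ) (hV : 0 < V) (τ : ℝ) :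
    ∑' n, Fn h Φ k V n τ = ((V ^ k / (2 * Real.pi) : ℝ) : ℂ) *
      (EE h Φ ((2 : ℝ) + τ * I) * (V : ℂ) ^ ((2 : ℝ) + τ * I : ℂ) *
        Complex.Gamma ((2 : ℝ) + τ * I + k)) := by
  have h1 : LSeriesHasSum (FF h Φ) ((2 : ℝ) + τ * I) (EE h Φ ((2 : ℝ) + τ * I)) :=
    EE_series h Φ _ (by simp)
  have h2 : HasSum (LSeries.term (FF h Φ) ((2 : ℝ) + τ * I)) (EE h Φ ((2 : ℝ) + τ * I)) := h1
  have h3 := h2.mul_right (((V ^ k / (2 * Real.pi) : ℝ) : ℂ) * (V : ℂ) ^ ((2 : ℝ) + τ * I : ℂ) *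
        Complex.Gamma ((2 : ℝ) + τ * I + k))
  have h4 := h3.tsum_eq
  rw [show ((V ^ k / (2 * Real.pi) : ℝ) : ℂ) *
      (EE h Φ ((2 : ℝ) + τ * I) * (V : ℂ) ^ ((2 : ℝ) + τ * I : ℂ) *
        Complex.Gamma ((2 : ℝ) + τ * I + k)) = EE h Φ ((2 : ℝ) + τ * I) *
        (((V ^ k / (2 * Real.pi) : ℝ) : ℂ) * (V : ℂ) ^ ((2 : ℝ) + τ * I : ℂ) *
        Complex.Gamma ((2 : ℝ) + τ * I + k)) by ring, ← h4]
  refine tsum_congr fun n => ?_
  rcases Nat.eq_zero_or_pos n with h0 | h0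
  · subst h0
    rw [Fn_zero]; simp
  · unfold Fn
    rw [div_cpow_neg n h0 V hV, LSeries.term_of_ne_zero (by omega), Complex.cpow_neg]
    rw [div_eq_mul_inv (FF h Φ n)]
    ring

/-- the sum as an integral over the right line -/
theorem sum_eq_integral (k : ℕ) (V : ℝ) (hV : 0 < V) :
    ∑' n : ℕ, FF h Φ n * (((n : ℝ) ^ k * Real.exp (-((n : ℝ) / V)) : ℝ) : ℂ) =
      ((V ^ k / (2 * Real.pi) : ℝ) : ℂ) * ∫ τ : ℝ,
        (EE h Φ ((2 : ℝ) + τ * I) * (V : ℂ) ^ ((2 : ℝ) + τ * I : ℂ) *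
          Complex.Gamma ((2 : ℝ) + τ * I + k)) := by
  have hsum : Summable (fun n : ℕ => ∫ τ, ‖Fn h Φ k V n τ‖) := by
    have e : ∀ n : ℕ, ∫ τ, ‖Fn h Φ k V n τ‖ = ‖FF h Φ n‖ * (n : ℝ) ^ (-2 : ℝ) *
        ∫ τ : ℝ, (V ^ k / (2 * Real.pi) * V ^ (2 : ℝ) *
          ‖Complex.Gamma ((2 : ℝ) + τ * I + k)‖) := by
      intro n
      rw [← integral_const_mul]
      exact integral_congr_ae (Eventually.of_forall fun τ => Fn_norm h Φ k V hV n τ)
    simp_rw [e]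
    exact (FF_summable h Φ).mul_right _
  have h1 := hasSum_integral_of_summable_integral_norm (fun n => Fn_integrable h Φ k V hV n) hsum
  have h2 : ∀ n : ℕ, FF h Φ n * (((n : ℝ) ^ k * Real.exp (-((n : ℝ) / V)) : ℝ) : ℂ) =
      ∫ τ, Fn h Φ k V n τ := by
    intro n
    rcases Nat.eq_zero_or_pos n with h0 | h0
    · subst h0
      simp_rw [Fn_zero, FF_zero]; simp
    · have hn' : (0 : ℝ) < n := by exact_mod_cast h0
      have h3 := powexp_inversion k ((n : ℝ) / V) (by positivity)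
      have e1 : (((n : ℝ) ^ k * Real.exp (-((n : ℝ) / V)) : ℝ) : ℂ) =
          ((V ^ k : ℝ) : ℂ) * (((((n : ℝ) / V) ^ k * Real.exp (-((n : ℝ) / V)) : ℝ) : ℂ)) := by
        rw [← Complex.ofReal_mul]
        congr 1
        rw [div_pow]
        field_simp
      rw [e1, h3]
      have e2 : ∀ τ : ℝ, Fn h Φ k V n τ = (FF h Φ n * ((V ^ k / (2 * Real.pi) : ℝ) : ℂ)) *
          ((((n : ℝ) / V : ℝ) : ℂ) ^ (-((2 : ℝ) + τ * I : ℂ)) *
            Complex.Gamma ((2 : ℝ) + τ * I + k)) := by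
        intro τ; unfold Fn; ring
      simp_rw [e2]
      rw [integral_const_mul, Complex.real_smul]
      push_cast
      ring
  rw [tsum_congr h2, h1.tsum_eq, ← integral_const_mul]
  exact integral_congr_ae (Eventually.of_forall fun τ => Fn_tsum h Φ k V hV τ)

/-- growth of `EE` in the strip -/
theorem EE_growth : ∃ C : ℝ, ∃ A : ℕ, 0 ≤ C ∧ ∀ s : ℂ, -(1 / 2) ≤ s.re → s.re ≤ 3 → 1 ≤ |s.im| →
    ‖EE h Φ s‖ ≤ C * |s.im| ^ A := by
  obtain ⟨C, A, hC⟩ := hurwitz_growth h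
  have hh : (1 : ℝ) ≤ h := by exact_mod_cast NeZero.one_le
  refine ⟨(h : ℝ) ^ (3 / 2 : ℝ) * ∑ x : ZMod h, ∑ y : ZMod h, ∑ z : ZMod h, ‖Φ x y z‖ * |C| ^ 3,
    3 * A, by positivity, ?_⟩
  intro s h1 h2 h3
  unfold EE
  have hz : ∀ x : ZMod h, ‖HurwitzZeta.hurwitzZeta (ZMod.toAddCircle x) s‖ ≤ |C| * |s.im| ^ A :=
    fun x => (hC x s h1 h2 h3).trans (by gcongr; exact le_abs_self C)
  have e1 : ‖(h : ℂ) ^ (-(3 * s))‖ ≤ (h : ℝ) ^ (3 / 2 : ℝ) := by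
    rw [Complex.norm_natCast_cpow_of_pos (NeZero.pos h)]
    apply Real.rpow_le_rpow_of_exponent_le hh
    simp
    linarith
  have e2 : ‖∑ x : ZMod h, ∑ y : ZMod h, ∑ z : ZMod h, Φ x y z *
    (HurwitzZeta.hurwitzZeta (ZMod.toAddCircle x) s *
      HurwitzZeta.hurwitzZeta (ZMod.toAddCircle y) s *
      HurwitzZeta.hurwitzZeta (ZMod.toAddCircle z) s)‖ ≤
      (∑ x : ZMod h, ∑ y : ZMod h, ∑ z : ZMod h, ‖Φ x y z‖ * |C| ^ 3) * |s.im| ^ (3 * A) := by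
    rw [Finset.sum_mul]
    refine (norm_sum_le _ _).trans (Finset.sum_le_sum fun x _ => ?_)
    rw [Finset.sum_mul]
    refine (norm_sum_le _ _).trans (Finset.sum_le_sum fun y _ => ?_)
    rw [Finset.sum_mul]
    refine (norm_sum_le _ _).trans (Finset.sum_le_sum fun z _ => ?_)
    rw [norm_mul, norm_mul, norm_mul]
    calc ‖Φ x y z‖ * (‖HurwitzZeta.hurwitzZeta (ZMod.toAddCircle x) s‖ *
          ‖HurwitzZeta.hurwitzZeta (ZMod.toAddCircle y) s‖ *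
          ‖HurwitzZeta.hurwitzZeta (ZMod.toAddCircle z) s‖)
        ≤ ‖Φ x y z‖ * ((|C| * |s.im| ^ A) * (|C| * |s.im| ^ A) * (|C| * |s.im| ^ A)) := by
          gcongr <;> exact hz _
      _ = _ := by ring
  rw [norm_mul, mul_assoc]
  exact mul_le_mul e1 e2 (norm_nonneg _) (by positivity)

/-- horizontal sides -/
theorem horiz_tendsto (g : ℂ → ℂ) (C : ℝ) (A : ℕ) (hC : 0 ≤ C)
    (hg : ∀ s : ℂ, -(1 / 2) ≤ s.re → s.re ≤ 3 → 1 ≤ |s.im| → ‖g s‖ ≤ C * |s.im| ^ A)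
    (k : ℕ) (hk : 1 ≤ k) (V : ℝ) (hV : 0 < V) (η : ℝ) (hη : 0 < η) (hη1 : η ≤ 1 / 2)
    (ε : ℝ) (hε : |ε| = 1) :
    Tendsto (fun R : ℝ => ∫ x : ℝ in (-η)..2, g ((x : ℂ) + ((ε * R : ℝ) : ℂ) * I) *
      (V : ℂ) ^ ((x : ℂ) + ((ε * R : ℝ) : ℂ) * I) *
      Complex.Gamma ((x : ℂ) + ((ε * R : ℝ) : ℂ) * I + k)) atTop (𝓝 0) := by
  set W : ℝ := V ^ (2 : ℝ) + V ^ (-η) + 1 with hW
  have hW0 : 0 ≤ W := by positivity
  set K : ℝ := C * W * (4 ^ (A + 2) * Real.Gamma ((2 : ℝ) + k + (A + 2 : ℕ))) * (2 + η) with hK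
  have hlim : Tendsto (fun R : ℝ => K / (1 + R)) atTop (𝓝 0) :=
    tendsto_const_nhds.div_atTop (tendsto_atTop_add_const_left _ _ tendsto_id)
  refine squeeze_zero_norm' ?_ hlim
  filter_upwards [eventually_ge_atTop (1 : ℝ)] with R hR
  have hR0 : 0 < R := by linarith
  have habs : |ε * R| = R := by rw [abs_mul, hε, one_mul, abs_of_pos hR0]
  have hbound : ∀ x ∈ Set.uIoc (-η) 2, ‖g ((x : ℂ) + ((ε * R : ℝ) : ℂ) * I) *
      (V : ℂ) ^ ((x : ℂ) + ((ε * R : ℝ) : ℂ) * I) *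
      Complex.Gamma ((x : ℂ) + ((ε * R : ℝ) : ℂ) * I + k)‖ ≤
      C * W * (4 ^ (A + 2) * Real.Gamma ((2 : ℝ) + k + (A + 2 : ℕ))) / (1 + R) := by
    intro x hx
    rw [Set.uIoc_of_le (by linarith)] at hx
    obtain ⟨hx1, hx2⟩ := hx
    have hre : ((x : ℂ) + ((ε * R : ℝ) : ℂ) * I).re = x := by simp
    have him : ((x : ℂ) + ((ε * R : ℝ) : ℂ) * I).im = ε * R := by simp
    have b1 : ‖g ((x : ℂ) + ((ε * R : ℝ) : ℂ) * I)‖ ≤ C * R ^ A := by
      have := hg ((x : ℂ) + ((ε * R : ℝ) : ℂ) * I) (by rw [hre]; linarith) (by rw [hre]; linarith)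
        (by rw [him, habs]; exact hR)
      rwa [him, habs] at this
    have b2 : ‖(V : ℂ) ^ ((x : ℂ) + ((ε * R : ℝ) : ℂ) * I)‖ ≤ W := by
      rw [norm_cpow_line V hV]
      rcases le_total 1 V with h1 | h1
      · have : V ^ x ≤ V ^ (2 : ℝ) := Real.rpow_le_rpow_of_exponent_le h1 hx2
        have h2 : 0 < V ^ (-η) := by positivity
        rw [hW]; linarith
      · have : V ^ x ≤ V ^ (-η) := Real.rpow_le_rpow_of_exponent_ge hV h1 hx1.le
        have h2 : 0 < V ^ (2 : ℝ) := by positivity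
        rw [hW]; linarith
    have b3 : ‖Complex.Gamma ((x : ℂ) + ((ε * R : ℝ) : ℂ) * I + k)‖ ≤
        4 ^ (A + 2) * Real.Gamma ((2 : ℝ) + k + (A + 2 : ℕ)) / (1 + R) ^ (A + 2) := by
      have hk' : (1 : ℝ) ≤ k := by exact_mod_cast hk
      have e1 : (x : ℂ) + ((ε * R : ℝ) : ℂ) * I + k = ((x + k : ℝ) : ℂ) + ((ε * R : ℝ) : ℂ) * I := by
        push_cast; ring
      rw [e1]
      refine (Gamma_line_bound (x + k) (by linarith) (A + 2) (ε * R)).trans ?_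
      rw [habs]
      have hmono : Real.Gamma (x + k + (A + 2 : ℕ)) ≤ Real.Gamma ((2 : ℝ) + k + (A + 2 : ℕ)) := by
        have hA : (0 : ℝ) ≤ A := Nat.cast_nonneg A
        apply Real.Gamma_strictMonoOn_Ici.monotoneOn
        · show (2 : ℝ) ≤ _
          push_cast; linarith
        · show (2 : ℝ) ≤ _
          push_cast; linarith
        · linarith
      gcongr
    rw [norm_mul, norm_mul]
    have hG0 : 0 ≤ Real.Gamma ((2 : ℝ) + k + (A + 2 : ℕ)) :=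
      Real.Gamma_nonneg_of_nonneg (by positivity)
    calc ‖g ((x : ℂ) + ((ε * R : ℝ) : ℂ) * I)‖ * ‖(V : ℂ) ^ ((x : ℂ) + ((ε * R : ℝ) : ℂ) * I)‖ *
          ‖Complex.Gamma ((x : ℂ) + ((ε * R : ℝ) : ℂ) * I + k)‖
        ≤ (C * R ^ A) * W *
            (4 ^ (A + 2) * Real.Gamma ((2 : ℝ) + k + (A + 2 : ℕ)) / (1 + R) ^ (A + 2)) := by
          gcongr
      _ ≤ (C * (1 + R) ^ A) * W *
            (4 ^ (A + 2) * Real.Gamma ((2 : ℝ) + k + (A + 2 : ℕ)) / (1 + R) ^ (A + 2)) := by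
          gcongr; linarith
      _ = C * W * (4 ^ (A + 2) * Real.Gamma ((2 : ℝ) + k + (A + 2 : ℕ))) / (1 + R) ^ 2 := by
          rw [pow_add (1 + R)]
          field_simp
      _ ≤ C * W * (4 ^ (A + 2) * Real.Gamma ((2 : ℝ) + k + (A + 2 : ℕ))) / (1 + R) := by
          apply div_le_div_of_nonneg_left (by positivity) (by positivity)
          nlinarith
  have := intervalIntegral.norm_integral_le_of_norm_le_const hbound
  refine this.trans (le_of_eq ?_)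
  rw [hK, abs_of_nonneg (by linarith)]
  ring

/-- the contour shift -/
theorem shift (g : ℂ → ℂ) (hgd : Differentiable ℂ g) (C : ℝ) (A : ℕ) (hC : 0 ≤ C)
    (hg : ∀ s : ℂ, -(1 / 2) ≤ s.re → s.re ≤ 3 → 1 ≤ |s.im| → ‖g s‖ ≤ C * |s.im| ^ A)
    (k : ℕ) (hk : 1 ≤ k) (V : ℝ) (hV : 0 < V) (η : ℝ) (hη : 0 < η) (hη1 : η ≤ 1 / 2)
    (hi2 : Integrable (fun τ : ℝ => g ((2 : ℝ) + τ * I) * (V : ℂ) ^ ((2 : ℝ) + τ * I : ℂ) *
          Complex.Gamma ((2 : ℝ) + τ * I + k)))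
    (hiη : Integrable (fun τ : ℝ => g (((-η : ℝ) : ℂ) + τ * I) *
      (V : ℂ) ^ (((-η : ℝ) : ℂ) + τ * I) * Complex.Gamma (((-η : ℝ) : ℂ) + τ * I + k))) :
    ∫ τ : ℝ, g ((2 : ℝ) + τ * I) * (V : ℂ) ^ ((2 : ℝ) + τ * I : ℂ) *
          Complex.Gamma ((2 : ℝ) + τ * I + k) =
      ∫ τ : ℝ, g (((-η : ℝ) : ℂ) + τ * I) *
      (V : ℂ) ^ (((-η : ℝ) : ℂ) + τ * I) * Complex.Gamma (((-η : ℝ) : ℂ) + τ * I + k) := by
  set Θ : ℂ → ℂ := fun s => g s * (V : ℂ) ^ s * Complex.Gamma (s + k) with hΘ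
  have hk' : (1 : ℝ) ≤ k := by exact_mod_cast hk
  have hVc : (V : ℂ) ≠ 0 := by exact_mod_cast hV.ne'
  have hd : ∀ s : ℂ, -1 < s.re → DifferentiableAt ℂ Θ s := by
    intro s hs
    have h1 : DifferentiableAt ℂ (fun s : ℂ => (V : ℂ) ^ s) s :=
      (differentiableAt_id.const_cpow (Or.inl hVc))
    have h2 : DifferentiableAt ℂ (fun s : ℂ => Complex.Gamma (s + k)) s := by
      have h3 : DifferentiableAt ℂ Complex.Gamma (s + k) := by
        apply Complex.differentiableAt_Gamma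
        intro m hm
        have : (s + (k : ℂ)).re = (-(m : ℂ)).re := by rw [hm]
        simp at this
        have h2 : (0 : ℝ) ≤ m := Nat.cast_nonneg m
        linarith
      exact h3.comp s (by fun_prop)
    exact ((hgd s).mul h1).mul h2
  have hrect : ∀ R : ℝ, 0 < R →
      (∫ x : ℝ in (-η)..2, Θ (x + ((-R : ℝ) : ℂ) * I)) - (∫ x : ℝ in (-η)..2, Θ (x + (R : ℂ) * I)) +
        I * (∫ y : ℝ in (-R)..R, Θ ((2 : ℝ) + y * I)) -
        I * (∫ y : ℝ in (-R)..R, Θ (((-η : ℝ) : ℂ) + y * I)) = 0 := by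
    intro R hR
    have h1 := Complex.integral_boundary_rect_eq_zero_of_differentiableOn Θ ⟨-η, -R⟩ ⟨2, R⟩ ?_
    · simpa only [smul_eq_mul] using h1
    · intro s hs
      simp only at hs
      rw [Complex.mem_reProdIm] at hs
      have h2 := hs.1
      rw [Set.uIcc_of_le (by linarith)] at h2
      exact (hd s (by linarith [h2.1])).differentiableWithinAt
  have hh1 := horiz_tendsto g C A hC hg k hk V hV η hη hη1 (-1) (by simp)
  have hh2 := horiz_tendsto g C A hC hg k hk V hV η hη hη1 1 (by simp)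
  have hv1 : Tendsto (fun R : ℝ => ∫ y : ℝ in (-R)..R, Θ ((2 : ℝ) + y * I)) atTop
      (𝓝 (∫ y : ℝ, Θ ((2 : ℝ) + y * I))) :=
    intervalIntegral_tendsto_integral hi2 tendsto_neg_atTop_atBot tendsto_id
  have hv2 : Tendsto (fun R : ℝ => ∫ y : ℝ in (-R)..R, Θ (((-η : ℝ) : ℂ) + y * I)) atTop
      (𝓝 (∫ y : ℝ, Θ (((-η : ℝ) : ℂ) + y * I))) :=
    intervalIntegral_tendsto_integral hiη tendsto_neg_atTop_atBot tendsto_id
  have hall := ((hh1.sub hh2).add (hv1.const_mul I)).sub (hv2.const_mul I)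
  have hzero : Tendsto (fun _ : ℝ => (0 : ℂ)) atTop (𝓝 (0 - 0 + I * (∫ y : ℝ, Θ ((2 : ℝ) + y * I)) -
      I * ∫ y : ℝ, Θ (((-η : ℝ) : ℂ) + y * I))) := by
    refine hall.congr' ?_
    filter_upwards [eventually_gt_atTop (0 : ℝ)] with R hR
    have := hrect R hR
    rw [← this]
    simp only [hΘ, neg_one_mul, one_mul]
  have h2 := tendsto_nhds_unique hzero tendsto_const_nhds
  have h3 : I * ((∫ y : ℝ, Θ ((2 : ℝ) + y * I)) - ∫ y : ℝ, Θ (((-η : ℝ) : ℂ) + y * I)) = 0 := by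
    rw [← h2]; ring
  rcases mul_eq_zero.mp h3 with h4 | h4
  · exact absurd h4 Complex.I_ne_zero
  · exact sub_eq_zero.mp h4

end main

/-- T6F -/
theorem voronoi (η : ℝ) (hη : 0 < η) (hη1 : η ≤ 1 / 2) : ∃ C : ℝ, ∃ A : ℕ, 0 < C ∧
    ∀ (h : ℕ) [NeZero h] (Φ : ZMod h → ZMod h → ZMod h → ℂ) (B : ℝ), ZS h Φ → FB h Φ B →
      ∀ k : ℕ, 1 ≤ k → ∀ V : ℝ, 0 < V →
        ‖∑' n : ℕ, FF h Φ n * (((n : ℝ) ^ k * Real.exp (-((n : ℝ) / V)) : ℝ) : ℂ)‖ ≤
          C * (k : ℝ) ^ A * (k.factorial : ℝ) * V ^ ((k : ℝ) - η) * (h : ℝ) ^ (3 * η) *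
            (h.divisors.card : ℝ) ^ 2 * B := by
  obtain ⟨C1, hC1, hleft⟩ := EE_left η hη hη1
  obtain ⟨C2, A, hC2, hgam⟩ := gamma_int
  refine ⟨C1 * C2, A, by positivity, ?_⟩
  intro h _ Φ B hZ hFB k hk V hV
  obtain ⟨g, hgd, hgE⟩ := EE_entire h Φ hZ
  obtain ⟨C3, A3, hC3, hgr⟩ := EE_growth h Φ
  have hk' : (1 : ℝ) ≤ k := by exact_mod_cast hk
  -- lines
  have hl2 : ∀ τ : ℝ, g ((2 : ℝ) + τ * I) = EE h Φ ((2 : ℝ) + τ * I) := by
    intro τ
    apply hgE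
    intro h1
    have : ((2 : ℝ) + τ * I : ℂ).re = (1 : ℂ).re := by rw [h1]
    simp at this
  have hlη : ∀ τ : ℝ, g (((-η : ℝ) : ℂ) + τ * I) = EE h Φ (((-η : ℝ) : ℂ) + τ * I) := by
    intro τ
    apply hgE
    intro h1
    have : (((-η : ℝ) : ℂ) + τ * I : ℂ).re = (1 : ℂ).re := by rw [h1]
    simp at this
    linarith
  set D : ℝ := C1 * (h : ℝ) ^ (3 * η) * (h.divisors.card : ℝ) ^ 2 * B with hD
  have hleft' : ∀ τ : ℝ, ‖g (((-η : ℝ) : ℂ) + τ * I)‖ ≤ D * (1 + |τ|) ^ 6 := by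
    intro τ
    rw [hlη]
    exact hleft h Φ B hFB τ
  have hD0 : 0 ≤ D := by
    have := hleft' 0
    have h2 := norm_nonneg (g (((-η : ℝ) : ℂ) + ((0 : ℝ) : ℂ) * I))
    simp only [abs_zero, add_zero, one_pow, mul_one] at this
    linarith
  -- integrability on the left line
  have hGshift : ∀ τ : ℝ, Complex.Gamma (((-η : ℝ) : ℂ) + τ * I + k) =
      Complex.Gamma ((((k : ℝ) - η : ℝ) : ℂ) + τ * I) := by
    intro τ
    congr 1
    push_cast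
    ring
  obtain ⟨hgi, hgb⟩ := hgam k hk η hη.le hη1
  have hbd : ∀ τ : ℝ, ‖g (((-η : ℝ) : ℂ) + τ * I) *
      (V : ℂ) ^ (((-η : ℝ) : ℂ) + τ * I) * Complex.Gamma (((-η : ℝ) : ℂ) + τ * I + k)‖ ≤
      (D * V ^ (-η)) * (‖Complex.Gamma ((((k : ℝ) - η : ℝ) : ℂ) + τ * I)‖ * (1 + |τ|) ^ 6) := by
    intro τ
    rw [norm_mul, norm_mul, norm_cpow_line V hV, hGshift]
    calc ‖g (((-η : ℝ) : ℂ) + τ * I)‖ * V ^ (-η) *
          ‖Complex.Gamma ((((k : ℝ) - η : ℝ) : ℂ) + τ * I)‖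
        ≤ (D * (1 + |τ|) ^ 6) * V ^ (-η) *
          ‖Complex.Gamma ((((k : ℝ) - η : ℝ) : ℂ) + τ * I)‖ := by
          gcongr; exact hleft' τ
      _ = _ := by ring
  have hVc : (V : ℂ) ≠ 0 := by exact_mod_cast hV.ne'
  have hcη : Continuous (fun τ : ℝ => g (((-η : ℝ) : ℂ) + τ * I) *
      (V : ℂ) ^ (((-η : ℝ) : ℂ) + τ * I) * Complex.Gamma (((-η : ℝ) : ℂ) + τ * I + k)) := by
    apply Continuous.mul
    · apply Continuous.mul
      · exact hgd.continuous.comp (by fun_prop)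
      · exact Continuous.const_cpow (by fun_prop) (Or.inl hVc)
    · have h1 := continuous_Gamma_line ((k : ℝ) - η) (by linarith)
      exact h1.congr fun τ => (hGshift τ).symm
  have hiη : Integrable (fun τ : ℝ => g (((-η : ℝ) : ℂ) + τ * I) *
      (V : ℂ) ^ (((-η : ℝ) : ℂ) + τ * I) * Complex.Gamma (((-η : ℝ) : ℂ) + τ * I + k)) :=
    Integrable.mono' (hgi.const_mul (D * V ^ (-η))) hcη.aestronglyMeasurable
      (Eventually.of_forall hbd)
  -- integrability on the right line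
  have hbd2 : ∀ τ : ℝ, ‖g ((2 : ℝ) + τ * I) * (V : ℂ) ^ ((2 : ℝ) + τ * I : ℂ) *
          Complex.Gamma ((2 : ℝ) + τ * I + k)‖ ≤
      ((∑' n : ℕ, ‖FF h Φ n‖ * (n : ℝ) ^ (-2 : ℝ)) * V ^ (2 : ℝ)) *
        ‖Complex.Gamma ((2 : ℝ) + τ * I + k)‖ := by
    intro τ
    rw [norm_mul, norm_mul, norm_cpow_line V hV]
    have h1 : ‖g ((2 : ℝ) + τ * I)‖ ≤ ∑' n : ℕ, ‖FF h Φ n‖ * (n : ℝ) ^ (-2 : ℝ) := by
      rw [hl2]
      have h1 : HasSum (LSeries.term (FF h Φ) ((2 : ℝ) + τ * I)) (EE h Φ ((2 : ℝ) + τ * I)) :=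
        EE_series h Φ _ (by simp)
      rw [← h1.tsum_eq]
      refine tsum_of_norm_bounded (FF_summable h Φ).hasSum fun n => ?_
      rcases Nat.eq_zero_or_pos n with h0 | h0
      · subst h0
        rw [FF_zero]; simp
      · rw [LSeries.norm_term_eq, if_neg (by omega)]
        have : ((2 : ℝ) + τ * I : ℂ).re = 2 := by simp
        rw [this, Real.rpow_neg (Nat.cast_nonneg n), div_eq_mul_inv]
    gcongr
  have hc2 : Continuous (fun τ : ℝ => g ((2 : ℝ) + τ * I) * (V : ℂ) ^ ((2 : ℝ) + τ * I : ℂ) *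
          Complex.Gamma ((2 : ℝ) + τ * I + k)) := by
    apply Continuous.mul
    · apply Continuous.mul
      · exact hgd.continuous.comp (by fun_prop)
      · exact Continuous.const_cpow (by fun_prop) (Or.inl hVc)
    · exact Gamma_two_cont k
  have hi2 : Integrable (fun τ : ℝ => g ((2 : ℝ) + τ * I) * (V : ℂ) ^ ((2 : ℝ) + τ * I : ℂ) *
          Complex.Gamma ((2 : ℝ) + τ * I + k)) :=
    Integrable.mono' ((Gamma_two_int k).norm.const_mul _) hc2.aestronglyMeasurable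
      (Eventually.of_forall hbd2)
  -- growth of g
  have hgg : ∀ s : ℂ, -(1 / 2) ≤ s.re → s.re ≤ 3 → 1 ≤ |s.im| → ‖g s‖ ≤ C3 * |s.im| ^ A3 := by
    intro s h1 h2 h3
    rw [hgE s (by
      rintro rfl
      simp at h3
      linarith)]
    exact hgr s h1 h2 h3
  have hshift := shift g hgd C3 A3 hC3 hgg k hk V hV η hη hη1 hi2 hiη
  rw [sum_eq_integral h Φ k V hV]
  have e1 : ∫ τ : ℝ, (EE h Φ ((2 : ℝ) + τ * I) * (V : ℂ) ^ ((2 : ℝ) + τ * I : ℂ) *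
          Complex.Gamma ((2 : ℝ) + τ * I + k)) = ∫ τ : ℝ, g (((-η : ℝ) : ℂ) + τ * I) *
      (V : ℂ) ^ (((-η : ℝ) : ℂ) + τ * I) * Complex.Gamma (((-η : ℝ) : ℂ) + τ * I + k) := by
    rw [← hshift]
    refine integral_congr_ae (Eventually.of_forall fun τ => ?_)
    simp only [hl2]
  rw [e1, norm_mul, Complex.norm_real, Real.norm_of_nonneg (by positivity)]
  have h5 : ‖∫ τ : ℝ, g (((-η : ℝ) : ℂ) + τ * I) *
      (V : ℂ) ^ (((-η : ℝ) : ℂ) + τ * I) * Complex.Gamma (((-η : ℝ) : ℂ) + τ * I + k)‖ ≤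
      (D * V ^ (-η)) * (C2 * (k : ℝ) ^ A * (k.factorial : ℝ)) := by
    refine (norm_integral_le_of_norm_le (hgi.const_mul (D * V ^ (-η)))
      (Eventually.of_forall hbd)).trans ?_
    rw [integral_const_mul]
    gcongr
  have h6 : V ^ k / (2 * Real.pi) ≤ V ^ k := by
    apply div_le_self (by positivity)
    nlinarith [Real.pi_gt_three]
  have h7 : V ^ ((k : ℝ) - η) = V ^ k * V ^ (-η) := by
    rw [sub_eq_add_neg, Real.rpow_add hV, Real.rpow_natCast]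
  calc V ^ k / (2 * Real.pi) * ‖∫ τ : ℝ, g (((-η : ℝ) : ℂ) + τ * I) *
      (V : ℂ) ^ (((-η : ℝ) : ℂ) + τ * I) * Complex.Gamma (((-η : ℝ) : ℂ) + τ * I + k)‖
      ≤ V ^ k * ((D * V ^ (-η)) * (C2 * (k : ℝ) ^ A * (k.factorial : ℝ))) := by
        gcongr
    _ = _ := by rw [h7, hD]; ring

end Pool.Agent.H777R2.SM
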