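import Pool.Agent.H306R2.SM.Defs

set_option autoImplicit false

/-!
T6D of the sixth moment project: polynomially weighted integrals of `|Γ|` on vertical lines.
-/

namespace Pool.Agent.H777R2.SM

open Finset Filter Topology MeasureTheory Complex

/-- `|Γ(s)| ≤ Γ(Re s)` -/
theorem norm_Gamma_le (s : ℂ) (hs : 0 < s.re) : ‖Complex.Gamma s‖ ≤ Real.Gamma s.re := by
  rw [Complex.Gamma_eq_integral hs, Real.Gamma_eq_integral hs]
  unfold Complex.GammaIntegral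
  refine (norm_integral_le_integral_norm _).trans (le_of_eq ?_)
  refine setIntegral_congr_fun measurableSet_Ioi fun x hx => ?_
  have hx0 : 0 < x := hx
  show ‖((Real.exp (-x) : ℝ) : ℂ) * (x : ℂ) ^ (s - 1)‖ = Real.exp (-x) * x ^ (s.re - 1)
  rw [norm_mul, Complex.norm_real, Real.norm_of_nonneg (Real.exp_pos _).le,
    Complex.norm_cpow_eq_rpow_re_of_pos hx0]
  simp

theorem Gamma_shift (s : ℂ) (hs : 0 < s.re) (N : ℕ) :
    Complex.Gamma (s + N) = (∏ j ∈ range N, (s + j)) * Complex.Gamma s := by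
  induction N with
  | zero => simp
  | succ N ih =>
    have h1 : s + (N : ℂ) ≠ 0 := by
      intro h
      have : (s + (N : ℂ)).re = 0 := by rw [h]; simp
      simp at this
      have h2 : (0 : ℝ) ≤ N := Nat.cast_nonneg N
      linarith
    have h2 := Complex.Gamma_add_one _ h1
    push_cast
    rw [← add_assoc, h2, ih, Finset.prod_range_succ]
    ring

theorem prod_lower (s : ℂ) (hs : 1 / 2 ≤ s.re) (N : ℕ) :
    ((1 + |s.im|) / 4) ^ N ≤ ‖∏ j ∈ range N, (s + (j : ℂ))‖ := by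
  rw [norm_prod]
  have h1 : ((1 + |s.im|) / 4) ^ N = ∏ _j ∈ range N, ((1 + |s.im|) / 4) := by
    rw [Finset.prod_const, Finset.card_range]
  rw [h1]
  apply Finset.prod_le_prod
  · intro j _
    positivity
  · intro j _
    have h2 : |s.re + j| ≤ ‖s + (j : ℂ)‖ := by
      have := Complex.abs_re_le_norm (s + (j : ℂ))
      simpa using this
    have h3 : |s.im| ≤ ‖s + (j : ℂ)‖ := by
      have := Complex.abs_im_le_norm (s + (j : ℂ))
      simpa using this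
    have h4 : (0 : ℝ) ≤ j := Nat.cast_nonneg j
    rw [abs_of_nonneg (by linarith)] at h2
    linarith

theorem norm_Gamma_decay (s : ℂ) (hs : 1 / 2 ≤ s.re) (N : ℕ) :
    ‖Complex.Gamma s‖ ≤ 4 ^ N * Real.Gamma (s.re + N) / (1 + |s.im|) ^ N := by
  have h0 : 0 < s.re := by linarith
  have h1 := Gamma_shift s h0 N
  have h2 := norm_Gamma_le (s + N) (by simp; positivity)
  have h3 := prod_lower s hs N
  rw [h1, norm_mul] at h2
  have e : (s + (N : ℂ)).re = s.re + N := by simp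
  rw [e] at h2
  rw [le_div_iff₀ (by positivity)]
  have h4 : (0 : ℝ) < (1 + |s.im|) / 4 := by positivity
  have h5 : ((1 + |s.im|) / 4) ^ N * ‖Complex.Gamma s‖ ≤ Real.Gamma (s.re + N) :=
    le_trans (mul_le_mul_of_nonneg_right h3 (norm_nonneg _)) h2
  rw [div_pow, div_mul_eq_mul_div, div_le_iff₀ (by positivity)] at h5
  linarith

theorem continuous_Gamma_line (a : ℝ) (ha : 0 < a) :
    Continuous (fun τ : ℝ => Complex.Gamma ((a : ℂ) + τ * I)) := by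
  rw [continuous_iff_continuousAt]
  intro τ
  have h1 : DifferentiableAt ℂ Complex.Gamma ((a : ℂ) + τ * I) := by
    apply Complex.differentiableAt_Gamma
    intro m h
    have : ((a : ℂ) + τ * I).re = (-(m : ℂ)).re := by rw [h]
    simp at this
    have h2 : (0 : ℝ) ≤ m := Nat.cast_nonneg m
    linarith
  exact ContinuousAt.comp (f := fun τ : ℝ => (a : ℂ) + τ * I) h1.continuousAt (by fun_prop)

/-- bound of the weighted Gamma function -/
theorem gamma_weight_bound (k : ℕ) (hk : 1 ≤ k) (η : ℝ) (hη : 0 ≤ η) (hη1 : η ≤ 1 / 2) (τ : ℝ) :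
    ‖Complex.Gamma ((((k : ℝ) - η : ℝ) : ℂ) + τ * I)‖ * (1 + |τ|) ^ 6 ≤
      (4 ^ 8 * (8 ^ 7 * (k : ℝ) ^ 7 * (k.factorial : ℝ))) * (1 + ‖τ‖) ^ (-(2 : ℝ)) := by
  have hk' : (1 : ℝ) ≤ k := by exact_mod_cast hk
  have h1 := norm_Gamma_decay ((((k : ℝ) - η : ℝ) : ℂ) + τ * I) (by simp; linarith) 8
  have e1 : ((((k : ℝ) - η : ℝ) : ℂ) + τ * I).re = (k : ℝ) - η := by simp
  have e2 : ((((k : ℝ) - η : ℝ) : ℂ) + τ * I).im = τ := by simp
  rw [e1, e2] at h1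
  have h2 : Real.Gamma ((k : ℝ) - η + (8 : ℕ)) ≤ 8 ^ 7 * (k : ℝ) ^ 7 * (k.factorial : ℝ) := by
    have h3 : Real.Gamma ((k : ℝ) - η + (8 : ℕ)) ≤ Real.Gamma ((k : ℝ) + (8 : ℕ)) := by
      apply Real.Gamma_strictMonoOn_Ici.monotoneOn
      · show (2 : ℝ) ≤ _
        push_cast; linarith
      · show (2 : ℝ) ≤ _
        push_cast; linarith
      · linarith
    have h4 : Real.Gamma ((k : ℝ) + (8 : ℕ)) = ((k + 7).factorial : ℝ) := by
      rw [← Real.Gamma_nat_eq_factorial]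
      congr 1
      push_cast
      ring
    have h5 : (((k + 7).factorial : ℕ) : ℝ) ≤ (k.factorial : ℝ) * ((k : ℝ) + 7) ^ 7 := by
      have h6 : (k + 7).factorial ≤ k.factorial * (k + 7) ^ 7 := by
        rw [← Nat.factorial_mul_ascFactorial]
        exact Nat.mul_le_mul_left _ (Nat.ascFactorial_le_pow_add k 7)
      exact_mod_cast h6
    have h6 : ((k : ℝ) + 7) ^ 7 ≤ (8 * (k : ℝ)) ^ 7 := by
      apply pow_le_pow_left₀ (by positivity)
      linarith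
    calc Real.Gamma ((k : ℝ) - η + (8 : ℕ)) ≤ (k.factorial : ℝ) * ((k : ℝ) + 7) ^ 7 := by
          rw [h4] at h3; exact h3.trans h5
      _ ≤ (k.factorial : ℝ) * (8 * (k : ℝ)) ^ 7 := by gcongr
      _ = _ := by ring
  have hpos : 0 < 1 + |τ| := by positivity
  have e3 : (1 + ‖τ‖) ^ (-(2 : ℝ)) = 1 / (1 + |τ|) ^ 2 := by
    rw [Real.norm_eq_abs, Real.rpow_neg hpos.le, one_div]
    norm_num
  rw [e3]
  calc ‖Complex.Gamma ((((k : ℝ) - η : ℝ) : ℂ) + τ * I)‖ * (1 + |τ|) ^ 6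
      ≤ (4 ^ 8 * Real.Gamma ((k : ℝ) - η + (8 : ℕ)) / (1 + |τ|) ^ 8) * (1 + |τ|) ^ 6 := by gcongr
    _ ≤ (4 ^ 8 * (8 ^ 7 * (k : ℝ) ^ 7 * (k.factorial : ℝ)) / (1 + |τ|) ^ 8) * (1 + |τ|) ^ 6 := by gcongr
    _ = _ := by field_simp

theorem integrable_weight : Integrable (fun τ : ℝ => (1 + ‖τ‖) ^ (-(2 : ℝ))) :=
  integrable_one_add_norm (by simp)

/-- T6D -/
theorem gamma_int : ∃ C : ℝ, ∃ A : ℕ, 0 < C ∧ ∀ k : ℕ, 1 ≤ k → ∀ η : ℝ, 0 ≤ η → η ≤ 1 / 2 →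
    Integrable (fun τ : ℝ => ‖Complex.Gamma ((((k : ℝ) - η : ℝ) : ℂ) + τ * I)‖ * (1 + |τ|) ^ 6) ∧
    ∫ τ : ℝ, ‖Complex.Gamma ((((k : ℝ) - η : ℝ) : ℂ) + τ * I)‖ * (1 + |τ|) ^ 6 ≤
      C * (k : ℝ) ^ A * (k.factorial : ℝ) := by
  refine ⟨4 ^ 8 * 8 ^ 7 * ((∫ τ : ℝ, (1 + ‖τ‖) ^ (-(2 : ℝ))) + 1), 7, ?_, ?_⟩
  · have : 0 ≤ ∫ τ : ℝ, (1 + ‖τ‖) ^ (-(2 : ℝ)) := integral_nonneg fun τ => by positivity
    positivity
  · intro k hk η hη hη1
    have hk' : (1 : ℝ) ≤ k := by exact_mod_cast hk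
    have hint : Integrable (fun τ : ℝ =>
        ‖Complex.Gamma ((((k : ℝ) - η : ℝ) : ℂ) + τ * I)‖ * (1 + |τ|) ^ 6) := by
      refine Integrable.mono' (integrable_weight.const_mul
        (4 ^ 8 * (8 ^ 7 * (k : ℝ) ^ 7 * (k.factorial : ℝ)))) ?_ ?_
      · apply Continuous.aestronglyMeasurable
        exact (continuous_Gamma_line _ (by linarith)).norm.mul (by fun_prop)
      · refine Eventually.of_forall fun τ => ?_
        rw [Real.norm_of_nonneg (by positivity)]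
        exact gamma_weight_bound k hk η hη hη1 τ
    refine ⟨hint, ?_⟩
    calc ∫ τ : ℝ, ‖Complex.Gamma ((((k : ℝ) - η : ℝ) : ℂ) + τ * I)‖ * (1 + |τ|) ^ 6
        ≤ ∫ τ : ℝ, (4 ^ 8 * (8 ^ 7 * (k : ℝ) ^ 7 * (k.factorial : ℝ))) * (1 + ‖τ‖) ^ (-(2 : ℝ)) :=
          integral_mono hint (integrable_weight.const_mul _)
            (fun τ => gamma_weight_bound k hk η hη hη1 τ)
      _ = (4 ^ 8 * (8 ^ 7 * (k : ℝ) ^ 7 * (k.factorial : ℝ))) * ∫ τ : ℝ, (1 + ‖τ‖) ^ (-(2 : ℝ)) := by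
          rw [integral_const_mul]
      _ ≤ (4 ^ 8 * (8 ^ 7 * (k : ℝ) ^ 7 * (k.factorial : ℝ))) *
          ((∫ τ : ℝ, (1 + ‖τ‖) ^ (-(2 : ℝ))) + 1) := by gcongr; linarith
      _ = _ := by ring

end Pool.Agent.H777R2.SM
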