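import Pool.Agent.H777R2.MaxP

set_option autoImplicit false
open Complex Set Topology Metric

namespace Pool.Agent.H777R2

/-- crosscut data -/
structure CC (F : ℂ → ℂ) (p e : ℂ) (t1 t2 : ℝ) (α β : ℂ) : Prop where
  he : ‖e‖ = 1
  ht1 : 0 < t1
  ht2 : 0 < t2
  hα : α ∈ sphere (0:ℂ) 1
  hβ : β ∈ sphere (0:ℂ) 1
  Fα : F α = p + t1 * e
  Fβ : F β = p - t2 * e
  hI : ∀ t : ℝ, -t2 < t → t < t1 → p + t * e ∉ F '' sphere 0 1

theorem isCompact_J {F : ℂ → ℂ} (S : Setup F) : IsCompact (F '' sphere (0:ℂ) 1) :=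
  (isCompact_sphere (0:ℂ) 1).image_of_continuousOn (S.cont.mono sphere_subset_closedBall)

theorem ray {F : ℂ → ℂ} (S : Setup F) {z1 : ℂ} (hz1 : z1 ∈ ball (0:ℂ) 1) {e : ℂ} (he : ‖e‖ = 1) :
    ∃ t1 : ℝ, 0 < t1 ∧ F z1 + t1 * e ∈ F '' sphere 0 1 ∧
      ∀ t : ℝ, 0 ≤ t → t < t1 → F z1 + t * e ∉ F '' sphere 0 1 := by
  set Z : Set ℝ := {t | 0 ≤ t ∧ F z1 + t * e ∈ F '' sphere 0 1} with hZ
  have hZc : IsClosed Z := by
    refine IsClosed.and (isClosed_le continuous_const continuous_id) ?_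
    exact (isCompact_J S).isClosed.preimage (by fun_prop : Continuous fun t : ℝ => F z1 + t * e)
  have hne : Z.Nonempty := by
    by_contra hcon
    rw [Set.not_nonempty_iff_eq_empty] at hcon
    have hray : (fun t : ℝ => F z1 + t * e) '' Ici 0 ⊆
        connectedComponentIn (F '' sphere 0 1)ᶜ (F z1) := by
      refine IsPreconnected.subset_connectedComponentIn ?_ ?_ ?_
      · exact isPreconnected_Ici.image _ (Continuous.continuousOn (by fun_prop))
      · exact ⟨0, by simp, by simp⟩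
      · rintro _ ⟨t, ht, rfl⟩ hmem
        have : t ∈ Z := ⟨ht, hmem⟩
        rw [hcon] at this
        exact this
    obtain ⟨R, hR⟩ := (S.bdd z1 hz1).exists_norm_le
    have h1 := hR _ (hray ⟨|R| + ‖F z1‖ + 1, by
      simp only [mem_Ici]; positivity, rfl⟩)
    have h2 : ‖(((|R| + ‖F z1‖ + 1 : ℝ) : ℂ) * e)‖ = |R| + ‖F z1‖ + 1 := by
      rw [norm_mul, he, mul_one, norm_real, Real.norm_of_nonneg (by positivity)]
    have h3 := norm_sub_norm_le ((((|R| + ‖F z1‖ + 1 : ℝ) : ℂ) * e)) (-F z1)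
    rw [h2, norm_neg, sub_neg_eq_add, add_comm _ (F z1)] at h3
    have h4 := le_abs_self R
    simp only at h1
    linarith
  have hbdd : BddBelow Z := ⟨0, fun t ht => ht.1⟩
  have hmem : sInf Z ∈ Z := hZc.csInf_mem hne hbdd
  refine ⟨sInf Z, lt_of_le_of_ne hmem.1 ?_, hmem.2, ?_⟩
  · intro h0
    have := hmem.2
    rw [← h0] at this
    apply S.notMem z1 hz1
    simpa using this
  · intro t ht0 ht hJ
    exact absurd (csInf_le hbdd (show t ∈ Z from ⟨ht0, hJ⟩)) (not_le.2 ht)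

theorem exists_CC {F : ℂ → ℂ} (S : Setup F) {z1 : ℂ} (hz1 : z1 ∈ ball (0:ℂ) 1) {e : ℂ}
    (he : ‖e‖ = 1) : ∃ t1 t2 : ℝ, ∃ α β : ℂ, CC F (F z1) e t1 t2 α β := by
  obtain ⟨t1, h1, ⟨α, hα, hα'⟩, h3⟩ := ray S hz1 he
  obtain ⟨t2, k1, ⟨β, hβ, hβ'⟩, k3⟩ := ray S hz1 (e := -e) (by rwa [norm_neg])
  refine ⟨t1, t2, α, β, he, h1, k1, hα, hβ, hα', by rw [hβ']; ring, ?_⟩
  intro t ht2 ht1
  rcases le_total 0 t with h | h
  · exact h3 t h ht1
  · have := k3 (-t) (by linarith) (by linarith)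
    have e1 : F z1 + ((-t : ℝ) : ℂ) * -e = F z1 + t * e := by push_cast; ring
    rwa [e1] at this

/-- the open crosscut -/
def Iset (p e : ℂ) (t1 t2 : ℝ) : Set ℂ := {w | ∃ t : ℝ, -t2 < t ∧ t < t1 ∧ w = p + t * e}

/-- signed distance to the line -/
noncomputable def ell (p e w : ℂ) : ℝ := ((w - p) * (starRingEnd ℂ) e).im

theorem ee {e : ℂ} (he : ‖e‖ = 1) : e * (starRingEnd ℂ) e = 1 := by
  rw [mul_conj, normSq_eq_norm_sq, he]; simp

theorem ell_coord {p e : ℂ} (he : ‖e‖ = 1) (t s : ℝ) : ell p e (p + t * e + s * (I * e)) = s := by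
  unfold ell
  have : (p + t * e + s * (I * e) - p) * (starRingEnd ℂ) e = t + s * I := by
    have := ee he
    linear_combination (t + s * I) * this
  rw [this]; simp

theorem ell_coord' {p e : ℂ} (he : ‖e‖ = 1) (t : ℝ) : ell p e (p + t * e) = 0 := by
  have := ell_coord (p := p) he t 0
  simpa using this

theorem ell_cont (p e : ℂ) : Continuous (ell p e) := by
  unfold ell; fun_prop

theorem ell_eq (p e w : ℂ) : ell p e w = ((-I * (starRingEnd ℂ) e) * w).re -
    ((-I * (starRingEnd ℂ) e) * p).re := by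
  unfold ell
  have : ((w - p) * (starRingEnd ℂ) e).im = ((-I) * ((w - p) * (starRingEnd ℂ) e)).re := by
    simp
  rw [this, ← sub_re]
  congr 1
  ring

section
variable {F : ℂ → ℂ} {p e : ℂ} {t1 t2 : ℝ} {α β : ℂ}

theorem Iset_ell (he : ‖e‖ = 1) {w : ℂ} (hw : w ∈ Iset p e t1 t2) : ell p e w = 0 := by
  obtain ⟨t, -, -, rfl⟩ := hw
  exact ell_coord' he t

theorem Iset_J (C : CC F p e t1 t2 α β) {w : ℂ} (hw : w ∈ Iset p e t1 t2) :
    w ∉ F '' sphere 0 1 := by
  obtain ⟨t, h1, h2, rfl⟩ := hw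
  exact C.hI t h1 h2

theorem clI_eq (C : CC F p e t1 t2 α β) : F '' sphere 0 1 ∪ Iset p e t1 t2 =
    F '' sphere 0 1 ∪ (fun t : ℝ => p + t * e) '' Icc (-t2) t1 := by
  apply Subset.antisymm
  · rintro w (hw | ⟨t, h1, h2, rfl⟩)
    · exact Or.inl hw
    · exact Or.inr ⟨t, ⟨h1.le, h2.le⟩, rfl⟩
  · rintro w (hw | ⟨t, ⟨h1, h2⟩, rfl⟩)
    · exact Or.inl hw
    · rcases h1.lt_or_eq with h1 | h1
      · rcases h2.lt_or_eq with h2 | h2
        · exact Or.inr ⟨t, h1, h2, rfl⟩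
        · left; rw [h2]; exact ⟨α, C.hα, C.Fα⟩
      · left
        refine ⟨β, C.hβ, ?_⟩
        rw [C.Fβ, ← h1]; push_cast; ring

theorem isOpen_O (S : Setup F) (C : CC F p e t1 t2 α β) :
    IsOpen (F '' sphere 0 1 ∪ Iset p e t1 t2)ᶜ := by
  rw [clI_eq C, isOpen_compl_iff]
  refine (isCompact_J S).isClosed.union (IsCompact.isClosed ?_)
  exact isCompact_Icc.image (by fun_prop)

/-- distance to `J` along the crosscut -/
noncomputable def DD (F : ℂ → ℂ) (p e : ℂ) (t : ℝ) : ℝ := infDist (p + t * e) (F '' sphere 0 1)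

theorem DD_cont (F : ℂ → ℂ) (p e : ℂ) : Continuous (DD F p e) := by
  unfold DD
  exact (continuous_infDist_pt _).comp (by fun_prop)

theorem J_nonempty (F : ℂ → ℂ) : (F '' sphere (0:ℂ) 1).Nonempty :=
  ⟨F 1, 1, by simp, rfl⟩

theorem DD_pos (S : Setup F) (C : CC F p e t1 t2 α β) {t : ℝ} (h1 : -t2 < t) (h2 : t < t1) :
    0 < DD F p e t :=
  ((isCompact_J S).isClosed.notMem_iff_infDist_pos (J_nonempty F)).1 (C.hI t h1 h2)

theorem notJ_of_dist {t : ℝ} {w : ℂ} (hw : dist w (p + t * e) < DD F p e t) :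
    w ∉ F '' sphere 0 1 := by
  intro h
  have := infDist_le_dist_of_mem (x := p + t * e) h
  rw [dist_comm] at this
  unfold DD at hw
  linarith

theorem memO_of {t : ℝ} (he : ‖e‖ = 1) {w : ℂ} (hw : dist w (p + t * e) < DD F p e t)
    (hl : ell p e w ≠ 0) : w ∈ (F '' sphere 0 1 ∪ Iset p e t1 t2)ᶜ := by
  rintro (h | h)
  · exact notJ_of_dist hw h
  · exact hl (Iset_ell he h)

/-- the two sides -/
noncomputable def VV (F : ℂ → ℂ) (p e : ℂ) (t1 t2 : ℝ) (σ : ℝ) : Set ℂ :=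
  connectedComponentIn (F '' sphere 0 1 ∪ Iset p e t1 t2)ᶜ
    (p + (0:ℝ) * e + ((σ * (DD F p e 0 / 2) : ℝ) : ℂ) * (I * e))

theorem norm_Ie (he : ‖e‖ = 1) (s : ℝ) : ‖(s : ℂ) * (I * e)‖ = |s| := by
  rw [norm_mul, norm_mul, he, norm_I]; simp

theorem HB (S : Setup F) (C : CC F p e t1 t2 α β) {σ : ℝ} (hσ : |σ| = 1) {t : ℝ} (h1 : -t2 < t)
    (h2 : t < t1) {w : ℂ} (hw : dist w (p + t * e) < DD F p e t) (hl : 0 < σ * ell p e w) :
    w ∈ VV F p e t1 t2 σ := by
  have hσ0 : σ ≠ 0 := by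
    rintro rfl
    simp at hσ
  have hspO : ∀ t : ℝ, -t2 < t → t < t1 → p + t * e + ((σ * (DD F p e t / 2) : ℝ) : ℂ) * (I * e) ∈
      (F '' sphere 0 1 ∪ Iset p e t1 t2)ᶜ := by
    intro t h1 h2
    have hpos := DD_pos S C h1 h2
    refine memO_of (t := t) C.he ?_ ?_
    · rw [dist_eq_norm, add_sub_cancel_left, norm_Ie C.he, abs_mul, hσ, one_mul,
        abs_of_pos (by positivity)]
      linarith
    · rw [ell_coord C.he]
      exact mul_ne_zero hσ0 (by positivity)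
  have hspine : (fun t : ℝ => p + t * e + ((σ * (DD F p e t / 2) : ℝ) : ℂ) * (I * e)) ''
      Ioo (-t2) t1 ⊆ VV F p e t1 t2 σ := by
    refine IsPreconnected.subset_connectedComponentIn ?_ ?_ ?_
    · refine isPreconnected_Ioo.image _ (Continuous.continuousOn ?_)
      have := DD_cont F p e
      fun_prop
    · exact ⟨0, ⟨by linarith [C.ht2], C.ht1⟩, rfl⟩
    · rintro _ ⟨t, ht, rfl⟩
      exact hspO t ht.1 ht.2
  have hsp : p + t * e + ((σ * (DD F p e t / 2) : ℝ) : ℂ) * (I * e) ∈ VV F p e t1 t2 σ :=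
    hspine ⟨t, ⟨h1, h2⟩, rfl⟩
  have hpos := DD_pos S C h1 h2
  have hconv : Convex ℝ (ball (p + t * e) (DD F p e t) ∩ {w | 0 < σ * ell p e w}) := by
    refine (convex_ball _ _).inter ?_
    have hlin : {w : ℂ | 0 < σ * ell p e w} = {w : ℂ | σ * (p * (starRingEnd ℂ) e).im <
        (σ • (imCLM.comp ((ContinuousLinearMap.mul ℝ ℂ).flip ((starRingEnd ℂ) e)))) w} := by
      ext w
      simp only [Set.mem_ofPred_eq, ell]
      constructor
      · intro h
        have : (w - p) * (starRingEnd ℂ) e = w * (starRingEnd ℂ) e - p * (starRingEnd ℂ) e := by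
          ring
        rw [this, sub_im] at h
        simp only [_root_.smul_apply, ContinuousLinearMap.comp_apply,
          ContinuousLinearMap.flip_apply, ContinuousLinearMap.mul_apply', imCLM_apply,
          smul_eq_mul]
        nlinarith
      · intro h
        have : (w - p) * (starRingEnd ℂ) e = w * (starRingEnd ℂ) e - p * (starRingEnd ℂ) e := by
          ring
        rw [this, sub_im]
        simp only [_root_.smul_apply, ContinuousLinearMap.comp_apply,
          ContinuousLinearMap.flip_apply, ContinuousLinearMap.mul_apply', imCLM_apply,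
          smul_eq_mul] at h
        nlinarith
    rw [hlin]
    exact convex_halfSpace_gt (LinearMap.isLinear (σ • (imCLM.comp ((ContinuousLinearMap.mul ℝ
      ℂ).flip ((starRingEnd ℂ) e))) : ℂ →L[ℝ] ℝ).toLinearMap) _
  have hsub : ball (p + t * e) (DD F p e t) ∩ {w | 0 < σ * ell p e w} ⊆
      connectedComponentIn (F '' sphere 0 1 ∪ Iset p e t1 t2)ᶜ
        (p + t * e + ((σ * (DD F p e t / 2) : ℝ) : ℂ) * (I * e)) := by
    refine hconv.isPreconnected.subset_connectedComponentIn ?_ ?_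
    · refine ⟨?_, ?_⟩
      · rw [mem_ball, dist_eq_norm, add_sub_cancel_left, norm_Ie C.he, abs_mul, hσ, one_mul,
          abs_of_pos (by positivity)]
        linarith
      · show 0 < σ * ell p e _
        rw [ell_coord C.he]
        have : σ * (σ * (DD F p e t / 2)) = |σ| ^ 2 * (DD F p e t / 2) := by
          rw [sq_abs]; ring
        rw [this, hσ]
        positivity
    · rintro w ⟨hw1, hw2⟩
      refine memO_of (t := t) C.he (mem_ball.1 hw1) ?_
      intro h0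
      have : 0 < σ * ell p e w := hw2
      rw [h0, mul_zero] at this
      exact lt_irrefl _ this
  have heq := connectedComponentIn_eq hsp
  unfold VV
  rw [show connectedComponentIn (F '' sphere 0 1 ∪ Iset p e t1 t2)ᶜ
    (p + (0:ℝ) * e + ((σ * (DD F p e 0 / 2) : ℝ) : ℂ) * (I * e)) =
    connectedComponentIn (F '' sphere 0 1 ∪ Iset p e t1 t2)ᶜ
        (p + t * e + ((σ * (DD F p e t / 2) : ℝ) : ℂ) * (I * e)) from heq]
  exact hsub ⟨mem_ball.2 hw, hl⟩

end

end Pool.Agent.H777R2
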