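import Pool.Agent.H777R2.Struct

set_option autoImplicit false
open Complex Set Topology Metric

namespace Pool.Agent.H777R2

theorem ray_sign {H g : ℂ → ℂ} {z0 : ℂ} {n : ℕ} (hg : AnalyticAt ℂ g z0)
    (heq : ∀ᶠ z in 𝓝 z0, H z - H z0 = (z - z0) ^ n • g z) {ψ : ℝ} {σ : ℝ}
    (hpos : 0 < σ * (exp ((n * ψ : ℝ) * I) * g z0).re) :
    ∃ r > 0, ∀ t : ℝ, 0 < t → t ≤ r →
      0 < σ * ((H (z0 + t * exp (ψ * I))).re - (H z0).re) := by
  have hc : ContinuousAt (fun z => σ * (exp ((n * ψ : ℝ) * I) * g z).re) z0 := by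
    have := hg.continuousAt
    exact continuousAt_const.mul (continuous_re.continuousAt.comp (continuousAt_const.mul this))
  have hev := (hc.eventually (lt_mem_nhds hpos)).and heq
  obtain ⟨r, hr, hball⟩ := Metric.eventually_nhds_iff_ball.1 hev
  refine ⟨r / 2, by positivity, fun t ht0 ht1 => ?_⟩
  have hz : z0 + t * exp (ψ * I) ∈ ball z0 r := by
    rw [mem_ball, dist_eq_norm, add_sub_cancel_left, norm_mul, norm_exp_ofReal_mul_I, mul_one,
      norm_real, Real.norm_of_nonneg ht0.le]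
    linarith
  obtain ⟨h1, h2⟩ := hball _ hz
  rw [← sub_re, h2, add_sub_cancel_left, mul_pow, ← exp_nat_mul, smul_eq_mul]
  have h3 : (t : ℂ) ^ n * exp (n * (ψ * I)) * g (z0 + t * exp (ψ * I)) =
      ((t ^ n : ℝ) : ℂ) * (exp ((n * ψ : ℝ) * I) * g (z0 + t * exp (ψ * I))) := by
    push_cast
    rw [mul_assoc]
    congr 2
    congr 1
    ring
  rw [h3, re_ofReal_mul]
  have h4 : 0 < t ^ n := by positivity
  have h5 : σ * (t ^ n * (exp ((n * ψ : ℝ) * I) * g (z0 + t * exp (ψ * I))).re) =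
    t ^ n * (σ * (exp ((n * ψ : ℝ) * I) * g (z0 + t * exp (ψ * I))).re) := by ring
  rw [h5]
  exact mul_pos h4 h1

theorem deriv_ne_unit {F : ℂ → ℂ} (S : Setup F) {z0 : ℂ} (hz0 : z0 ∈ ball (0:ℂ) 1) {a : ℂ}
    (ha : ‖a‖ = 1) {H : ℂ → ℂ} (hH : DifferentiableOn ℂ H (ball 0 1))
    (hHF : ∀ z ∈ ball (0:ℂ) 1, (H z).re = (a * F z).re) : deriv H z0 ≠ 0 := by
  intro hd
  set e := (starRingEnd ℂ) (I * a) with he
  have hea : -I * (starRingEnd ℂ) e = a := by
    rw [he, conj_conj]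
    rw [← mul_assoc]
    simp
  have hnorm : ‖e‖ = 1 := by
    rw [he, RCLike.norm_conj, norm_mul, norm_I, ha, one_mul]
  obtain ⟨t1, t2, α, β, C⟩ := exists_CC S hz0 hnorm
  have hE : z0 ∈ EE F (F z0) e t1 t2 := ⟨hz0, 0, by linarith [C.ht2], C.ht1, by simp⟩
  obtain ⟨c1, c2, hOm⟩ := structure_thm S C ⟨z0, hE⟩
  obtain ⟨ρ, hρ, hnear⟩ := near_E S C hE
  have hell : ∀ z ∈ ball (0:ℂ) 1, ell (F z0) e (F z) = (H z).re - (H z0).re := by
    intro z hz
    rw [ell_eq, hea, hHF z hz, hHF z0 hz0]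
  have hHan : AnalyticAt ℂ H z0 := hH.analyticAt (isOpen_ball.mem_nhds hz0)
  have hhan : AnalyticAt ℂ (fun z => H z - H z0) z0 := hHan.sub analyticAt_const
  have hnz : ¬ ∀ᶠ z in 𝓝 z0, H z - H z0 = 0 := by
    intro h
    have := const_of_localMax hH hz0 (by
      filter_upwards [h] with z hz
      rw [sub_eq_zero.1 hz])
    exact not_const S (a := a) (by rintro rfl; simp at ha) ((H z0).re)
      (fun z hz => by rw [← hHF z hz, this z hz])
  obtain ⟨n, g, hg, hg0, heq⟩ := hhan.exists_eventuallyEq_pow_smul_nonzero_iff.2 hnz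
  have hn : 2 ≤ n := by
    by_contra hlt
    have h01 : n = 0 ∨ n = 1 := by omega
    rcases h01 with rfl | rfl
    · have := heq.self_of_nhds
      simp at this
      exact hg0 this.symm
    · have h1 : HasDerivAt (fun z => (z - z0) ^ 1 • g z) (g z0) z0 := by
        have h2 : HasDerivAt (fun z => (z - z0) * g z) (1 * g z0 + (z0 - z0) * deriv g z0) z0 :=
          ((hasDerivAt_id z0).sub_const z0).mul hg.differentiableAt.hasDerivAt
        simpa using h2
      have h3 : HasDerivAt (fun z => H z - H z0) (g z0) z0 := h1.congr_of_eventuallyEq heq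
      have h4 : HasDerivAt (fun z => H z - H z0) (deriv H z0) z0 :=
        hHan.differentiableAt.hasDerivAt.sub_const _
      have := h3.unique h4
      rw [hd] at this
      exact hg0 this
  have hn0 : (0:ℝ) < n := by
    have : 0 < n := by omega
    exact_mod_cast this
  have hn2 : (2:ℝ) ≤ n := by exact_mod_cast hn
  set γ := arg (g z0) with hγ
  have hgz : g z0 = ‖g z0‖ * exp (γ * I) := (norm_mul_exp_arg_mul_I (g z0)).symm
  have hval : ∀ j : ℝ, (exp ((n * ((j * Real.pi - γ) / n) : ℝ) * I) * g z0).re =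
      ‖g z0‖ * Real.cos (j * Real.pi) := by
    intro j
    have e1 : (n : ℝ) * ((j * Real.pi - γ) / n) = j * Real.pi - γ := by field_simp
    rw [e1, hgz, mul_left_comm, ← exp_add, re_ofReal_mul]
    rw [show ((j * Real.pi - γ : ℝ) : ℂ) * I + γ * I = ((j * Real.pi : ℝ) : ℂ) * I by
      push_cast; ring, exp_ofReal_mul_I_re]
    rw [norm_mul, norm_exp_ofReal_mul_I, mul_one, norm_real, norm_norm]
  have hgpos : 0 < ‖g z0‖ := norm_pos_iff.2 hg0
  obtain ⟨r0, hr0, H0⟩ := ray_sign (ψ := (0 * Real.pi - γ) / n) (σ := 1) hg heq (by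
    rw [hval]; simp [hgpos])
  obtain ⟨r1, hr1, H1⟩ := ray_sign (ψ := (1 * Real.pi - γ) / n) (σ := -1) hg heq (by
    rw [hval]; simp [hgpos])
  obtain ⟨r2, hr2, H2⟩ := ray_sign (ψ := (2 * Real.pi - γ) / n) (σ := 1) hg heq (by
    rw [hval]; simp [hgpos])
  obtain ⟨r3, hr3, H3⟩ := ray_sign (ψ := (3 * Real.pi - γ) / n) (σ := -1) hg heq (by
    rw [hval]
    have : Real.cos (3 * Real.pi) = -1 := by
      rw [show 3 * Real.pi = Real.pi + 2 * Real.pi by ring, Real.cos_add_two_pi, Real.cos_pi]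
    rw [this]; linarith)
  set r := min (min r0 r1) (min (min r2 r3) (ρ / 2)) with hrdef
  have hr : 0 < r := lt_min (lt_min hr0 hr1) (lt_min (lt_min hr2 hr3) (by positivity))
  have l0 : r ≤ r0 := (min_le_left _ _).trans (min_le_left _ _)
  have l1 : r ≤ r1 := (min_le_left _ _).trans (min_le_right _ _)
  have l2 : r ≤ r2 := (min_le_right _ _).trans ((min_le_left _ _).trans (min_le_left _ _))
  have l3 : r ≤ r3 := (min_le_right _ _).trans ((min_le_left _ _).trans (min_le_right _ _))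
  have lρ : r ≤ ρ / 2 := (min_le_right _ _).trans (min_le_right _ _)
  have hin : ∀ (ψ : ℝ) (t : ℝ), 0 < t → t ≤ r → z0 + t * exp (ψ * I) ∈ ball z0 ρ := by
    intro ψ t h0 h1
    rw [mem_ball, dist_eq_norm, add_sub_cancel_left, norm_mul, norm_exp_ofReal_mul_I, mul_one,
      norm_real, Real.norm_of_nonneg h0.le]
    linarith
  have hp1 : ∀ (ψ : ℝ), (∀ t : ℝ, 0 < t → t ≤ r →
      0 < 1 * ((H (z0 + t * exp (ψ * I))).re - (H z0).re)) → ∀ t : ℝ, 0 < t → t ≤ r →
      z0 + t * exp (ψ * I) ∈ WW F (F z0) e t1 t2 1 := by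
    intro ψ h t h0 h1
    obtain ⟨k1, k2, k3⟩ := hnear _ (hin ψ t h0 h1)
    apply k2
    rw [hell _ k1]
    have := h t h0 h1
    linarith
  have hm1 : ∀ (ψ : ℝ), (∀ t : ℝ, 0 < t → t ≤ r →
      0 < -1 * ((H (z0 + t * exp (ψ * I))).re - (H z0).re)) → ∀ t : ℝ, 0 < t → t ≤ r →
      z0 + t * exp (ψ * I) ∈ WW F (F z0) e t1 t2 (-1) := by
    intro ψ h t h0 h1
    obtain ⟨k1, k2, k3⟩ := hnear _ (hin ψ t h0 h1)
    apply k3
    rw [hell _ k1]
    have := h t h0 h1
    linarith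
  have U0 := hp1 _ (fun t h0 h1 => H0 t h0 (h1.trans l0))
  have V0 := hm1 _ (fun t h0 h1 => H1 t h0 (h1.trans l1))
  have U1 := hp1 _ (fun t h0 h1 => H2 t h0 (h1.trans l2))
  have V1 := hm1 _ (fun t h0 h1 => H3 t h0 (h1.trans l3))
  have hpcU := ((WW_open S C 1).isConnected_iff_isPathConnected).1
    ⟨⟨_, U0 r hr le_rfl⟩, c1⟩
  have hpcV := ((WW_open S C (-1)).isConnected_iff_isPathConnected).1
    ⟨⟨_, V0 r hr le_rfl⟩, c2⟩
  have hzO : z0 ∉ Om F (F z0) e t1 t2 := fun h => h.2 (Or.inr hE.2)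
  have hpi := Real.pi_pos
  refine no_alternate (WW_disjoint S C) (fun h => hzO (WW_subset _ h))
    (fun h => hzO (WW_subset _ h)) ?_ ?_ ?_ ?_ hr U0 U1 V0 V1
    (hpcU.joinedIn _ (U0 r hr le_rfl) _ (U1 r hr le_rfl))
    (hpcV.joinedIn _ (V0 r hr le_rfl) _ (V1 r hr le_rfl))
  · rw [div_lt_div_iff_of_pos_right hn0]; linarith
  · rw [div_lt_div_iff_of_pos_right hn0]; linarith
  · rw [div_lt_div_iff_of_pos_right hn0]; linarith
  · rw [div_lt_iff₀ hn0, add_mul, div_mul_cancel₀ _ hn0.ne']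
    nlinarith

theorem deriv_ne {F : ℂ → ℂ} (S : Setup F) {z0 : ℂ} (hz0 : z0 ∈ ball (0:ℂ) 1) {a : ℂ}
    (ha : a ≠ 0) {H : ℂ → ℂ} (hH : DifferentiableOn ℂ H (ball 0 1))
    (hHF : ∀ z ∈ ball (0:ℂ) 1, (H z).re = (a * F z).re) : deriv H z0 ≠ 0 := by
  intro hd
  have hna : (0:ℝ) < ‖a‖ := norm_pos_iff.2 ha
  have hdiff : DifferentiableAt ℂ H z0 := hH.differentiableAt (isOpen_ball.mem_nhds hz0)
  refine deriv_ne_unit S hz0 (a := ((‖a‖⁻¹ : ℝ) : ℂ) * a) ?_
    (H := fun z => ((‖a‖⁻¹ : ℝ) : ℂ) * H z) (hH.const_mul _) ?_ ?_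
  · rw [norm_mul, norm_real, norm_inv, norm_norm]
    field_simp
  · intro z hz
    rw [re_ofReal_mul, hHF z hz, mul_assoc, re_ofReal_mul]
  · rw [deriv_const_mul _ hdiff, hd, mul_zero]

/-- the derivative of `F` -/
noncomputable def DFl (d1 d2 : ℂ) : ℂ →L[ℝ] ℂ :=
  ofRealCLM.comp (reCLM.comp ((ContinuousLinearMap.mul ℝ ℂ) d1)) +
    I • ofRealCLM.comp (reCLM.comp ((ContinuousLinearMap.mul ℝ ℂ) d2))

theorem DFl_apply (d1 d2 v : ℂ) : DFl d1 d2 v = ((d1 * v).re : ℂ) + I * ((d2 * v).re : ℂ) := by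
  simp [DFl]

theorem strict {F : ℂ → ℂ} (S : Setup F) {z0 : ℂ} (hz0 : z0 ∈ ball (0:ℂ) 1) :
    ∃ L : ℂ ≃L[ℝ] ℂ, HasStrictFDerivAt F (L : ℂ →L[ℝ] ℂ) z0 := by
  obtain ⟨H1, hH1, hF1⟩ := S.harm 1
  obtain ⟨H2, hH2, hF2⟩ := S.harm (-I)
  have s1 : HasStrictDerivAt H1 (deriv H1 z0) z0 :=
    (hH1.analyticAt (isOpen_ball.mem_nhds hz0)).hasStrictDerivAt
  have s2 : HasStrictDerivAt H2 (deriv H2 z0) z0 :=
    (hH2.analyticAt (isOpen_ball.mem_nhds hz0)).hasStrictDerivAt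
  set d1 := deriv H1 z0 with hd1
  set d2 := deriv H2 z0 with hd2
  have hmul : ∀ d : ℂ, (ContinuousLinearMap.mul ℝ ℂ) d =
      ContinuousLinearMap.restrictScalars ℝ (ContinuousLinearMap.toSpanSingleton ℂ d) := by
    intro d
    ext <;> simp [mul_comm]
  have r1 : HasStrictFDerivAt H1 ((ContinuousLinearMap.mul ℝ ℂ) d1) z0 := by
    rw [hmul]
    exact s1.hasStrictFDerivAt.restrictScalars ℝ
  have r2 : HasStrictFDerivAt H2 ((ContinuousLinearMap.mul ℝ ℂ) d2) z0 := by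
    rw [hmul]
    exact s2.hasStrictFDerivAt.restrictScalars ℝ
  have r3 : HasStrictFDerivAt (fun z => ((H1 z).re : ℂ) + I * ((H2 z).re : ℂ)) (DFl d1 d2) z0 := by
    have k1 : HasStrictFDerivAt (fun z => ((H1 z).re : ℂ))
        (ofRealCLM.comp (reCLM.comp ((ContinuousLinearMap.mul ℝ ℂ) d1))) z0 :=
      ofRealCLM.hasStrictFDerivAt.comp z0 (reCLM.hasStrictFDerivAt.comp z0 r1)
    have k2 : HasStrictFDerivAt (fun z => ((H2 z).re : ℂ))
        (ofRealCLM.comp (reCLM.comp ((ContinuousLinearMap.mul ℝ ℂ) d2))) z0 :=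
      ofRealCLM.hasStrictFDerivAt.comp z0 (reCLM.hasStrictFDerivAt.comp z0 r2)
    exact k1.add (k2.const_smul I)
  have r4 : HasStrictFDerivAt F (DFl d1 d2) z0 := by
    refine r3.congr_of_eventuallyEq ?_
    filter_upwards [isOpen_ball.mem_nhds hz0] with z hz
    rw [hF1 z hz, hF2 z hz]
    apply Complex.ext <;> simp
  have hker : ∀ v, DFl d1 d2 v = 0 → v = 0 := by
    intro v hv
    by_contra hv0
    rw [DFl_apply] at hv
    have e1 : (d1 * v).re = 0 := by
      have := congrArg re hv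
      simpa using this
    have e2 : (d2 * v).re = 0 := by
      have := congrArg im hv
      simpa using this
    obtain ⟨x, y, hxy, hne⟩ : ∃ x y : ℝ, x * (d1 * v).im + y * (d2 * v).im = 0 ∧
        (x ≠ 0 ∨ y ≠ 0) := by
      by_cases h : (d1 * v).im = 0
      · exact ⟨1, 0, by rw [h]; ring, Or.inl one_ne_zero⟩
      · exact ⟨(d2 * v).im, -(d1 * v).im, by ring, Or.inr (neg_ne_zero.2 h)⟩
    have e3 : (x * d1 + y * d2) * v = 0 := by
      apply Complex.ext
      · have : ((x * d1 + y * d2) * v).re = x * (d1 * v).re + y * (d2 * v).re := by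
          rw [add_mul, mul_assoc, mul_assoc, add_re, re_ofReal_mul, re_ofReal_mul]
        rw [this, e1, e2]; simp
      · have : ((x * d1 + y * d2) * v).im = x * (d1 * v).im + y * (d2 * v).im := by
          rw [add_mul, mul_assoc, mul_assoc, add_im, im_ofReal_mul, im_ofReal_mul]
        rw [this, hxy]; simp
    have e4 : x * d1 + y * d2 = 0 := (mul_eq_zero.1 e3).resolve_right hv0
    refine deriv_ne S hz0 (a := x - I * y) ?_ (H := fun z => x * H1 z + y * H2 z)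
      ((hH1.const_mul _).add (hH2.const_mul _)) ?_ ?_
    · intro h
      have h1 := congrArg re h
      have h2 := congrArg im h
      simp at h1 h2
      rcases hne with h3 | h3
      · exact h3 h1
      · exact h3 h2
    · intro z hz
      rw [add_re, re_ofReal_mul, re_ofReal_mul, hF1 z hz, hF2 z hz]
      simp
    · have q1 : DifferentiableAt ℂ H1 z0 := hH1.differentiableAt (isOpen_ball.mem_nhds hz0)
      have q2 : DifferentiableAt ℂ H2 z0 := hH2.differentiableAt (isOpen_ball.mem_nhds hz0)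
      have : HasDerivAt (fun z => x * H1 z + y * H2 z) (x * d1 + y * d2) z0 :=
        (q1.hasDerivAt.const_mul _).add (q2.hasDerivAt.const_mul _)
      rw [this.deriv, e4]
  have hinj : Function.Injective (DFl d1 d2 : ℂ →ₗ[ℝ] ℂ) := by
    rw [injective_iff_map_eq_zero]
    exact hker
  set L := (LinearEquiv.ofInjectiveEndo (DFl d1 d2 : ℂ →ₗ[ℝ] ℂ) hinj).toContinuousLinearEquiv
    with hL
  refine ⟨L, ?_⟩
  have : (L : ℂ →L[ℝ] ℂ) = DFl d1 d2 := by
    ext v <;> simp [hL]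
  rw [this]
  exact r4

end Pool.Agent.H777R2
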