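import Pool.Agent.H777R2.Top

set_option autoImplicit false
open Complex Set Topology Metric

namespace Pool.Agent.H777R2

theorem crossing_ext {z0 : ℂ} {δ : ℝ} (hδ : 0 < δ) {α0 β0 α1 β1 : ℝ} (h1 : α0 < β0) (h2 : β0 < α1)
    (h3 : α1 < β1) (h4 : β1 < α0 + 2 * Real.pi)
    (γ : Path (z0 + δ * exp (α0 * I)) (z0 + δ * exp (α1 * I)))
    (η : Path (z0 + δ * exp (β0 * I)) (z0 + δ * exp (β1 * I)))
    (hγ : ∀ s, δ ≤ ‖γ s - z0‖) (hη : ∀ s, δ ≤ ‖η s - z0‖) : ∃ s t, γ s = η t := by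
  have hne : ∀ w : ℂ, δ ≤ ‖w - z0‖ → (starRingEnd ℂ) (w - z0) ≠ 0 := by
    intro w hw h0
    rw [map_eq_zero] at h0
    rw [h0, norm_zero] at hw
    linarith
  have hle : ∀ w : ℂ, δ ≤ ‖w - z0‖ → ‖(δ : ℂ) / (starRingEnd ℂ) (w - z0)‖ ≤ 1 := by
    intro w hw
    rw [norm_div, RCLike.norm_conj, norm_real, Real.norm_of_nonneg hδ.le]
    exact (div_le_one (hδ.trans_le hw)).2 hw
  have hval : ∀ x : ℝ, (δ : ℂ) / (starRingEnd ℂ) ((z0 + δ * exp (x * I)) - z0) = exp (x * I) := by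
    intro x
    rw [add_sub_cancel_left, map_mul, conj_ofReal, ← exp_conj, map_mul, conj_ofReal, conj_I,
      mul_neg, exp_neg]
    have h1 := exp_ne_zero ((x:ℂ) * I)
    have h2 : (δ : ℂ) ≠ 0 := ofReal_ne_zero.2 hδ.ne'
    field_simp
  have hγe : ∀ s : ℝ, δ ≤ ‖γ.extend s - z0‖ := by
    intro s
    have : γ.extend s ∈ range γ.extend := mem_range_self s
    rw [Path.extend_range] at this
    obtain ⟨s', hs'⟩ := this
    rw [← hs']
    exact hγ s'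
  have hηe : ∀ s : ℝ, δ ≤ ‖η.extend s - z0‖ := by
    intro s
    have : η.extend s ∈ range η.extend := mem_range_self s
    rw [Path.extend_range] at this
    obtain ⟨s', hs'⟩ := this
    rw [← hs']
    exact hη s'
  obtain ⟨s, t, hst⟩ := crossing (a := fun s => (δ : ℂ) / (starRingEnd ℂ) (γ.extend s - z0))
    (b := fun s => (δ : ℂ) / (starRingEnd ℂ) (η.extend s - z0))
    (continuous_const.div (continuous_conj.comp (γ.continuous_extend.sub continuous_const))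
      (fun s => hne _ (hγe s)))
    (continuous_const.div (continuous_conj.comp (η.continuous_extend.sub continuous_const))
      (fun s => hne _ (hηe s)))
    (fun s => hle _ (hγe s)) (fun s => hle _ (hηe s)) h1 h2 h3 h4
    (by simp only [Path.extend_zero]; exact hval _) (by simp only [Path.extend_one]; exact hval _)
    (by simp only [Path.extend_zero]; exact hval _) (by simp only [Path.extend_one]; exact hval _)
  have h5 : γ.extend s = η.extend t := by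
    have h6 := hne _ (hγe s)
    have h7 := hne _ (hηe t)
    have h8 : (δ : ℂ) ≠ 0 := ofReal_ne_zero.2 hδ.ne'
    rw [div_eq_div_iff h6 h7] at hst
    have h9 := mul_left_cancel₀ h8 hst
    have h10 := (starRingEnd ℂ).injective h9
    exact (sub_left_inj.1 h10).symm
  have m1 : γ.extend s ∈ range γ := by
    rw [← Path.extend_range]; exact mem_range_self s
  have m2 : η.extend t ∈ range η := by
    rw [← Path.extend_range]; exact mem_range_self t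
  obtain ⟨s', hs'⟩ := m1
  obtain ⟨t', ht'⟩ := m2
  exact ⟨s', t', by rw [hs', ht', h5]⟩

theorem dist_pos_of_joinedIn {U : Set ℂ} {z0 x y : ℂ} (hz : z0 ∉ U) (h : JoinedIn U x y) :
    ∃ δ > 0, ∃ γ : Path x y, (∀ s, γ s ∈ U) ∧ ∀ s, δ ≤ ‖γ s - z0‖ := by
  obtain ⟨γ, hγ⟩ := h
  have hc : IsCompact (range γ) := isCompact_range γ.continuous
  have hne : z0 ∉ range γ := by
    rintro ⟨s, hs⟩
    exact hz (hs ▸ hγ s)
  obtain ⟨δ, hδ, hball⟩ := Metric.isOpen_iff.1 hc.isClosed.isOpen_compl z0 hne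
  refine ⟨δ, hδ, γ, hγ, fun s => ?_⟩
  by_contra hlt
  push Not at hlt
  have : γ s ∈ ball z0 δ := by
    rw [mem_ball, dist_eq_norm]; exact hlt
  exact hball this (mem_range_self s)

theorem seg_norm {z0 : ℂ} {x r δ : ℝ} (hδ : 0 < δ) (hr : δ ≤ r) {w : ℂ}
    (hw : w ∈ segment ℝ (z0 + δ * exp (x * I)) (z0 + r * exp (x * I))) :
    ∃ t : ℝ, δ ≤ t ∧ t ≤ r ∧ w = z0 + t * exp (x * I) := by
  rw [segment_eq_image] at hw
  obtain ⟨θ, hθ, rfl⟩ := hw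
  refine ⟨(1 - θ) * δ + θ * r, ?_, ?_, ?_⟩
  · nlinarith [hθ.1, hθ.2]
  · nlinarith [hθ.1, hθ.2]
  · simp only [real_smul]
    push_cast
    ring

theorem joined_shrink {U : Set ℂ} {z0 : ℂ} {r δ : ℝ} (hδ : 0 < δ) (hr : δ ≤ r) {x : ℝ}
    (hseg : ∀ t : ℝ, 0 < t → t ≤ r → z0 + t * exp (x * I) ∈ U) :
    ∃ γ : Path (z0 + δ * exp (x * I)) (z0 + r * exp (x * I)), (∀ s, γ s ∈ U) ∧
      ∀ s, δ ≤ ‖γ s - z0‖ := by
  have h : JoinedIn (segment ℝ (z0 + δ * exp (x * I)) (z0 + r * exp (x * I)))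
      (z0 + δ * exp (x * I)) (z0 + r * exp (x * I)) := JoinedIn.of_segment_subset subset_rfl
  obtain ⟨γ, hγ⟩ := h
  refine ⟨γ, fun s => ?_, fun s => ?_⟩
  · obtain ⟨t, h1, h2, h3⟩ := seg_norm hδ hr (hγ s)
    rw [h3]
    exact hseg t (hδ.trans_le h1) h2
  · obtain ⟨t, h1, h2, h3⟩ := seg_norm hδ hr (hγ s)
    rw [h3, add_sub_cancel_left, norm_mul, norm_exp_ofReal_mul_I, mul_one, norm_real]
    exact h1.trans (le_abs_self t)

/-- Two disjoint path connected sets cannot be joined to a point along alternating directions. -/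
theorem no_alternate {U V : Set ℂ} (hUV : Disjoint U V) {z0 : ℂ} (hzU : z0 ∉ U) (hzV : z0 ∉ V)
    {α0 β0 α1 β1 : ℝ} (h1 : α0 < β0) (h2 : β0 < α1)
    (h3 : α1 < β1) (h4 : β1 < α0 + 2 * Real.pi) {r : ℝ} (hr : 0 < r)
    (hU0 : ∀ t : ℝ, 0 < t → t ≤ r → z0 + t * exp (α0 * I) ∈ U)
    (hU1 : ∀ t : ℝ, 0 < t → t ≤ r → z0 + t * exp (α1 * I) ∈ U)
    (hV0 : ∀ t : ℝ, 0 < t → t ≤ r → z0 + t * exp (β0 * I) ∈ V)
    (hV1 : ∀ t : ℝ, 0 < t → t ≤ r → z0 + t * exp (β1 * I) ∈ V)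
    (hU : JoinedIn U (z0 + r * exp (α0 * I)) (z0 + r * exp (α1 * I)))
    (hV : JoinedIn V (z0 + r * exp (β0 * I)) (z0 + r * exp (β1 * I))) : False := by
  obtain ⟨δ1, hδ1, γ, hγU, hγ⟩ := dist_pos_of_joinedIn hzU hU
  obtain ⟨δ2, hδ2, η, hηV, hη⟩ := dist_pos_of_joinedIn hzV hV
  set δ := min r (min δ1 δ2) with hδdef
  have hδ : 0 < δ := lt_min hr (lt_min hδ1 hδ2)
  have hδr : δ ≤ r := min_le_left _ _
  have hδδ1 : δ ≤ δ1 := (min_le_right _ _).trans (min_le_left _ _)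
  have hδδ2 : δ ≤ δ2 := (min_le_right _ _).trans (min_le_right _ _)
  obtain ⟨γ0, a1, a2⟩ := joined_shrink hδ hδr hU0
  obtain ⟨γ1, b1, b2⟩ := joined_shrink hδ hδr hU1
  obtain ⟨η0, c1, c2⟩ := joined_shrink hδ hδr hV0
  obtain ⟨η1, d1, d2⟩ := joined_shrink hδ hδr hV1
  have key : ∀ {W : Set ℂ} {x y x' y' : ℂ} (p : Path x x') (q : Path x' y') (p' : Path y y')
      (_ : ∀ s, p s ∈ W ∧ δ ≤ ‖p s - z0‖) (_ : ∀ s, q s ∈ W ∧ δ ≤ ‖q s - z0‖)
      (_ : ∀ s, p' s ∈ W ∧ δ ≤ ‖p' s - z0‖), ∀ s, ((p.trans q).trans p'.symm) s ∈ W ∧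
        δ ≤ ‖((p.trans q).trans p'.symm) s - z0‖ := by
    intro W x y x' y' p q p' hp hq hp' s
    have hs : ((p.trans q).trans p'.symm) s ∈ range ((p.trans q).trans p'.symm) := mem_range_self s
    rw [Path.trans_range, Path.trans_range, Path.symm_range] at hs
    rcases hs with (⟨s', h⟩ | ⟨s', h⟩) | ⟨s', h⟩
    · rw [← h]; exact hp s'
    · rw [← h]; exact hq s'
    · rw [← h]; exact hp' s'
  have k1 := key γ0 γ γ1 (fun s => ⟨a1 s, a2 s⟩) (fun s => ⟨hγU s, hδδ1.trans (hγ s)⟩)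
    (fun s => ⟨b1 s, b2 s⟩)
  have k2 := key η0 η η1 (fun s => ⟨c1 s, c2 s⟩) (fun s => ⟨hηV s, hδδ2.trans (hη s)⟩)
    (fun s => ⟨d1 s, d2 s⟩)
  obtain ⟨s, t, hst⟩ := crossing_ext hδ h1 h2 h3 h4 _ _ (fun s => (k1 s).2) (fun s => (k2 s).2)
  exact Set.disjoint_left.1 hUV (k1 s).1 (hst ▸ (k2 t).1)

end Pool.Agent.H777R2
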