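import Pool.Agent.H777R2.Crit

set_option autoImplicit false
open Complex Set Topology Metric

namespace Pool.Agent.H777R2

theorem localHomeo {F : ℂ → ℂ} (S : Setup F) : IsLocalHomeomorphOn F (ball 0 1) := by
  intro x hx
  obtain ⟨L, hL⟩ := strict S hx
  exact ⟨hL.toOpenPartialHomeomorph F, hL.mem_toOpenPartialHomeomorph_source, rfl⟩

theorem covering {F : ℂ → ℂ} (S : Setup F) :
    IsCoveringMapOn (fun z : closedBall (0:ℂ) 1 => F z) (F '' sphere 0 1)ᶜ := by
  have : CompactSpace (closedBall (0:ℂ) 1) := isCompact_iff_compactSpace.1 (isCompact_closedBall 0 1)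
  refine IsCoveringMapOn.of_isLocalHomeomorphOn (continuousOn_iff_continuous_domRestrict.1 S.cont) ?_
  set i : ball (0:ℂ) 1 → closedBall (0:ℂ) 1 := Set.inclusion ball_subset_closedBall with hi
  have hio : IsOpenEmbedding i := by
    refine ⟨IsEmbedding.inclusion _, ?_⟩
    rw [hi, range_inclusion]
    exact isOpen_ball.preimage continuous_subtype_val
  have hcomp : IsLocalHomeomorphOn ((fun z : closedBall (0:ℂ) 1 => F z) ∘ i) univ := by
    have h1 : (fun z : closedBall (0:ℂ) 1 => F z) ∘ i = F ∘ (Subtype.val : ball (0:ℂ) 1 → ℂ) := by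
      ext z; rfl
    rw [h1]
    refine (localHomeo S).comp
      (isOpen_ball.isOpenEmbedding_subtypeVal.isLocalHomeomorph.isLocalHomeomorphOn) ?_
    intro z _
    exact z.2
  have h2 := hcomp.of_comp_right (hio.isLocalHomeomorph.isLocalHomeomorphOn)
  refine h2.mono ?_
  intro z hz
  have hzb : (z : ℂ) ∈ ball (0:ℂ) 1 := by
    rcases (mem_closedBall_zero_iff.1 z.2).lt_or_eq with h | h
    · exact mem_ball_zero_iff.2 h
    · exact absurd ⟨(z:ℂ), mem_sphere_zero_iff_norm.2 h, rfl⟩ hz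
  exact ⟨⟨z, hzb⟩, mem_univ _, rfl⟩

section
variable {F : ℂ → ℂ} {p e : ℂ} {t1 t2 : ℝ} {α β : ℂ}

theorem EE_preconnected (S : Setup F) (C : CC F p e t1 t2 α β) :
    IsPreconnected (EE F p e t1 t2) := by
  rcases Set.eq_empty_or_nonempty (EE F p e t1 t2) with hE | hE
  · rw [hE]; exact isPreconnected_empty
  obtain ⟨c1, c2, hOm⟩ := structure_thm S C hE
  have : ContractibleSpace (ball (0:ℂ) 1) :=
    (convex_ball (0:ℂ) 1).contractibleSpace ⟨0, mem_ball_self one_pos⟩
  have : LocallyPathConnectedSpace (ball (0:ℂ) 1) := isOpen_ball.locallyPathConnectedSpace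
  have hEOm : ∀ z ∈ EE F p e t1 t2, z ∉ Om F p e t1 t2 := fun z hz h => h.2 (Or.inr hz.2)
  -- the closed sets
  have key : ∀ σ : ℝ, IsPreconnected (WW F p e t1 t2 σ) →
      (∀ z0 ∈ EE F p e t1 t2, z0 ∈ closure (WW F p e t1 t2 σ)) →
      IsPreconnected ((Subtype.val : ball (0:ℂ) 1 → ℂ) ⁻¹'
        (WW F p e t1 t2 σ ∪ EE F p e t1 t2)) := by
    intro σ hσ hcl
    rw [← (IsEmbedding.subtypeVal.isInducing).isPreconnected_image]
    have h1 : (Subtype.val : ball (0:ℂ) 1 → ℂ) '' ((Subtype.val : ball (0:ℂ) 1 → ℂ) ⁻¹'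
        (WW F p e t1 t2 σ ∪ EE F p e t1 t2)) = WW F p e t1 t2 σ ∪ EE F p e t1 t2 := by
      rw [Subtype.image_preimage_coe]
      apply inter_eq_right.2
      rintro z (hz | hz)
      · exact hz.1
      · exact hz.1
    rw [h1]
    refine hσ.subset_closure subset_union_left ?_
    rintro z (hz | hz)
    · exact subset_closure hz
    · exact hcl z hz
  have hA := key 1 c1 (fun z hz => (signs S C hz).1)
  have hB := key (-1) c2 (fun z hz => (signs S C hz).2)
  have hdisj := WW_disjoint S C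
  have hclosed : ∀ σ τ : ℝ, Om F p e t1 t2 = WW F p e t1 t2 σ ∪ WW F p e t1 t2 τ →
      Disjoint (WW F p e t1 t2 σ) (WW F p e t1 t2 τ) →
      IsClosed ((Subtype.val : ball (0:ℂ) 1 → ℂ) ⁻¹'
        (WW F p e t1 t2 σ ∪ EE F p e t1 t2)) := by
    intro σ τ hO hd
    rw [← isOpen_compl_iff]
    have : ((Subtype.val : ball (0:ℂ) 1 → ℂ) ⁻¹' (WW F p e t1 t2 σ ∪ EE F p e t1 t2))ᶜ =
        (Subtype.val : ball (0:ℂ) 1 → ℂ) ⁻¹' (WW F p e t1 t2 τ) := by
      ext z
      simp only [mem_compl_iff, mem_preimage, mem_union, not_or]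
      constructor
      · rintro ⟨h1, h2⟩
        rcases ball_cases (p := p) (e := e) (t1 := t1) (t2 := t2) S z.2 with h | h
        · exact absurd h h2
        · rw [hO] at h
          exact h.resolve_left h1
      · intro h
        refine ⟨fun h' => Set.disjoint_left.1 hd h' h, fun h' => hEOm _ h' ?_⟩
        exact WW_subset _ h
    rw [this]
    exact (WW_open S C τ).preimage continuous_subtype_val
  have hu := unicoherent (hclosed 1 (-1) hOm hdisj)
    (hclosed (-1) 1 (by rw [hOm, union_comm]) hdisj.symm) hA hB (by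
      ext z
      simp only [mem_union, mem_preimage, mem_univ, iff_true]
      rcases ball_cases (p := p) (e := e) (t1 := t1) (t2 := t2) S z.2 with h | h
      · exact Or.inl (Or.inr h)
      · rw [hOm] at h
        rcases h with h | h
        · exact Or.inl (Or.inl h)
        · exact Or.inr (Or.inl h))
  have h3 := hu.image (Subtype.val : ball (0:ℂ) 1 → ℂ) continuous_subtype_val.continuousOn
  have h4 : (Subtype.val : ball (0:ℂ) 1 → ℂ) '' ((Subtype.val : ball (0:ℂ) 1 → ℂ) ⁻¹'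
        (WW F p e t1 t2 1 ∪ EE F p e t1 t2) ∩ (Subtype.val : ball (0:ℂ) 1 → ℂ) ⁻¹'
        (WW F p e t1 t2 (-1) ∪ EE F p e t1 t2)) = EE F p e t1 t2 := by
    ext z
    constructor
    · rintro ⟨w, ⟨h1, h2⟩, rfl⟩
      rcases h1 with h1 | h1
      · rcases h2 with h2 | h2
        · exact absurd h2 (Set.disjoint_left.1 hdisj h1)
        · exact h2
      · exact h1
    · intro hz
      exact ⟨⟨z, hz.1⟩, ⟨Or.inr hz, Or.inr hz⟩, rfl⟩
  rw [h4] at h3
  exact h3

end

theorem injOn_ball {F : ℂ → ℂ} (S : Setup F) : InjOn F (ball 0 1) := by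
  intro w1 hw1 w2 hw2 hw
  obtain ⟨t1, t2, α, β, C⟩ := exists_CC S hw1 (e := 1) (by simp)
  set p := F w1 with hp
  have hE1 : w1 ∈ EE F p 1 t1 t2 := ⟨hw1, 0, by linarith [C.ht2], C.ht1, by simp [← hp]⟩
  have hE2 : w2 ∈ EE F p 1 t1 t2 := ⟨hw2, 0, by linarith [C.ht2], C.ht1, by simp [← hw]⟩
  have hEc := EE_preconnected S C
  have cov := (covering S).isCoveringMap_restrictPreimage
  set g : closedBall (0:ℂ) 1 → ℂ := fun z => F z with hg
  have h0mem : (0:ℝ) ∈ Ioo (-t2) t1 := ⟨by linarith [C.ht2], C.ht1⟩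
  have : ContractibleSpace (Ioo (-t2) t1) :=
    (convex_Ioo (-t2) t1).contractibleSpace ⟨0, h0mem⟩
  have : LocallyPathConnectedSpace (Ioo (-t2) t1) := isOpen_Ioo.locallyPathConnectedSpace
  let f : C(Ioo (-t2) t1, ((F '' sphere 0 1)ᶜ : Set ℂ)) :=
    ⟨fun t => ⟨p + (t:ℝ) * 1, C.hI t t.2.1 t.2.2⟩, by fun_prop⟩
  have hw1J : g ⟨w1, ball_subset_closedBall hw1⟩ ∈ (F '' sphere 0 1)ᶜ := S.notMem w1 hw1
  obtain ⟨sec, ⟨hsec0, hsec⟩, -⟩ := cov.existsUnique_continuousMap_lifts f ⟨0, h0mem⟩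
    ⟨⟨w1, ball_subset_closedBall hw1⟩, hw1J⟩ (by
      apply Subtype.ext
      simp [f, hg, ← hp])
  -- coordinates on E
  have hτmem : ∀ z ∈ EE F p 1 t1 t2, (F z - p).re ∈ Ioo (-t2) t1 ∧
      F z = p + (((F z - p).re : ℝ) : ℂ) * 1 := by
    rintro z ⟨hz, t, k1, k2, k3⟩
    have : (F z - p).re = t := by rw [k3]; simp
    rw [this]
    exact ⟨⟨k1, k2⟩, k3⟩
  have hFc : Continuous fun z : EE F p 1 t1 t2 => F z :=
    continuousOn_iff_continuous_domRestrict.1 ((Fcont_ball S).mono (fun z hz => hz.1))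
  let τ : EE F p 1 t1 t2 → Ioo (-t2) t1 := fun z => ⟨(F z - p).re, (hτmem z z.2).1⟩
  have hτc : Continuous τ := by
    refine Continuous.subtype_mk ?_ _
    exact continuous_re.comp (hFc.sub continuous_const)
  let g2 : EE F p 1 t1 t2 → (g ⁻¹' (F '' sphere 0 1)ᶜ) := fun z =>
    ⟨⟨z, ball_subset_closedBall z.2.1⟩, S.notMem z z.2.1⟩
  have hg2c : Continuous g2 := by
    refine Continuous.subtype_mk (Continuous.subtype_mk continuous_subtype_val _) _
  have hpre : PreconnectedSpace (EE F p 1 t1 t2) := isPreconnected_iff_preconnectedSpace.1 hEc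
  have heq := cov.eq_of_comp_eq (g₁ := fun z => sec (τ z)) (g₂ := g2)
    (sec.continuous.comp hτc) hg2c (by
      ext z
      have h1 := congrFun hsec (τ z)
      have h2 := congrArg Subtype.val h1
      have h3 := (hτmem z z.2).2
      simp only [Function.comp_apply] at h2 ⊢
      rw [h2]
      exact h3.symm) ⟨w1, hE1⟩ (by
      have : τ ⟨w1, hE1⟩ = ⟨0, h0mem⟩ := by
        apply Subtype.ext
        simp [τ, ← hp]
      simp only [this, hsec0]
      rfl)
  have h5 := congrFun heq ⟨w2, hE2⟩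
  have h6 : τ ⟨w2, hE2⟩ = ⟨0, h0mem⟩ := by
    apply Subtype.ext
    simp [τ, ← hw]
  simp only [h6, hsec0] at h5
  have h7 := congrArg (fun x => ((x : closedBall (0:ℂ) 1) : ℂ)) (congrArg Subtype.val h5)
  exact h7

end Pool.Agent.H777R2
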