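import Mathlib

set_option autoImplicit false
open Complex Set Topology Metric MeasureTheory

namespace Pool.Agent.H777R2

/-- The Poisson integral as in the problem. -/
def IsPoisson (φ P : ℂ → ℂ) : Prop :=
  ∀ z ∈ Metric.ball (0:ℂ) 1,
        P z = ((1 / (2 * Real.pi) : ℝ) : ℂ) *
          ∫ t in (0:ℝ)..(2 * Real.pi),
            (((1 - ‖z‖ ^ 2) / ‖Complex.exp ((t : ℂ) * Complex.I) - z‖ ^ 2 : ℝ) : ℂ) *
              φ (Complex.exp ((t : ℂ) * Complex.I))

theorem exp_mem (t : ℝ) : exp ((t : ℂ) * I) ∈ sphere (0:ℂ) 1 := by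
  simp [norm_exp_ofReal_mul_I]

theorem den_pos {z : ℂ} (hz : z ∈ ball (0:ℂ) 1) (t : ℝ) : 0 < ‖exp ((t : ℂ) * I) - z‖ := by
  rw [norm_pos_iff, sub_ne_zero]
  intro h
  have h1 : ‖exp ((t : ℂ) * I)‖ = 1 := norm_exp_ofReal_mul_I t
  rw [h] at h1
  rw [mem_ball_zero_iff] at hz
  linarith

theorem phi_cont {φ : ℂ → ℂ} (hφ : ContinuousOn φ (sphere (0:ℂ) 1)) :
    Continuous fun t : ℝ => φ (exp ((t : ℂ) * I)) :=
  hφ.comp_continuous (by fun_prop) exp_mem

theorem ker_cont {z : ℂ} (hz : z ∈ ball (0:ℂ) 1) :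
    Continuous fun t : ℝ => ((1 - ‖z‖ ^ 2) / ‖exp ((t : ℂ) * I) - z‖ ^ 2 : ℝ) := by
  refine Continuous.div (by fun_prop) (by fun_prop) (fun t => ?_)
  have := den_pos hz t
  positivity

theorem ker_integral {z : ℂ} (hz : z ∈ ball (0:ℂ) 1) :
    ∫ t in (0:ℝ)..(2 * Real.pi), ((1 - ‖z‖ ^ 2) / ‖exp ((t : ℂ) * I) - z‖ ^ 2 : ℝ) =
      2 * Real.pi := by
  have h := DiffContOnCl.circleAverage_poissonKernel_smul' (E := ℂ) (f := fun _ => (1:ℂ)) (c := 0)
    (R := 1) (w := z) diffContOnCl_const hz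
  rw [Real.circleAverage_def] at h
  simp only [sub_zero, circleMap_zero, ofReal_one, one_mul, norm_exp_ofReal_mul_I, one_pow] at h
  have h2 : (∫ t in (0:ℝ)..(2 * Real.pi), ((1 - ‖z‖ ^ 2) / ‖exp ((t : ℂ) * I) - z‖ ^ 2 : ℝ) •
      (1:ℂ)) = ((∫ t in (0:ℝ)..(2 * Real.pi),
        ((1 - ‖z‖ ^ 2) / ‖exp ((t : ℂ) * I) - z‖ ^ 2 : ℝ) : ℝ) : ℂ) := by
    rw [← intervalIntegral.integral_ofReal]
    simp
  rw [h2] at h
  have h3 := congrArg re h
  simp only [real_smul, ← ofReal_mul, ofReal_re, one_re] at h3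
  have : (2 * Real.pi) ≠ 0 := by positivity
  field_simp at h3
  linarith

theorem poisson_bound {φ P : ℂ → ℂ} (hP : IsPoisson φ P) (hφ : ContinuousOn φ (sphere (0:ℂ) 1))
    {z : ℂ} (hz : z ∈ ball (0:ℂ) 1) (w : ℂ) {ε B : ℝ}
    (hb : ∀ t : ℝ, ‖φ (exp ((t : ℂ) * I)) - w‖ *
      ((1 - ‖z‖ ^ 2) / ‖exp ((t : ℂ) * I) - z‖ ^ 2) ≤
      ε * ((1 - ‖z‖ ^ 2) / ‖exp ((t : ℂ) * I) - z‖ ^ 2) + B) : ‖P z - w‖ ≤ ε + B := by
  have hpi : (0:ℝ) < 2 * Real.pi := by positivity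
  have hk0 : ∀ t : ℝ, 0 ≤ ((1 - ‖z‖ ^ 2) / ‖exp ((t : ℂ) * I) - z‖ ^ 2) := by
    intro t
    have := den_pos hz t
    rw [mem_ball_zero_iff] at hz
    have h1 := norm_nonneg z
    have : 0 ≤ 1 - ‖z‖ ^ 2 := by nlinarith
    positivity
  have e1 : P z - w = ((1 / (2 * Real.pi) : ℝ) : ℂ) *
          ∫ t in (0:ℝ)..(2 * Real.pi),
            (((1 - ‖z‖ ^ 2) / ‖exp ((t : ℂ) * I) - z‖ ^ 2 : ℝ) : ℂ) *
              (φ (exp ((t : ℂ) * I)) - w) := by
    rw [hP z hz]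
    have h1 : (∫ t in (0:ℝ)..(2 * Real.pi),
            (((1 - ‖z‖ ^ 2) / ‖exp ((t : ℂ) * I) - z‖ ^ 2 : ℝ) : ℂ) *
              (φ (exp ((t : ℂ) * I)) - w)) = (∫ t in (0:ℝ)..(2 * Real.pi),
            (((1 - ‖z‖ ^ 2) / ‖exp ((t : ℂ) * I) - z‖ ^ 2 : ℝ) : ℂ) *
              φ (exp ((t : ℂ) * I))) - ((2 * Real.pi : ℝ) : ℂ) * w := by
      have hk : ((2 * Real.pi : ℝ) : ℂ) * w = ∫ t in (0:ℝ)..(2 * Real.pi),
            (((1 - ‖z‖ ^ 2) / ‖exp ((t : ℂ) * I) - z‖ ^ 2 : ℝ) : ℂ) * w := by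
        rw [intervalIntegral.integral_mul_const, intervalIntegral.integral_ofReal,
          ker_integral hz]
      rw [hk, ← intervalIntegral.integral_sub]
      · simp only [mul_sub]
      · exact ((continuous_ofReal.comp (ker_cont hz)).mul (phi_cont hφ)).intervalIntegrable _ _
      · exact ((continuous_ofReal.comp (ker_cont hz)).mul continuous_const).intervalIntegrable _ _
    rw [h1, mul_sub, ← mul_assoc, ← ofReal_mul]
    have : 1 / (2 * Real.pi) * (2 * Real.pi) = 1 := by field_simp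
    rw [this]; simp
  rw [e1, norm_mul, norm_real, Real.norm_of_nonneg (by positivity)]
  have h2 : ‖∫ t in (0:ℝ)..(2 * Real.pi),
            (((1 - ‖z‖ ^ 2) / ‖exp ((t : ℂ) * I) - z‖ ^ 2 : ℝ) : ℂ) *
              (φ (exp ((t : ℂ) * I)) - w)‖ ≤ ∫ t in (0:ℝ)..(2 * Real.pi),
                (ε * ((1 - ‖z‖ ^ 2) / ‖exp ((t : ℂ) * I) - z‖ ^ 2) + B) := by
    refine intervalIntegral.norm_integral_le_of_norm_le hpi.le ?_ ?_
    · refine Filter.Eventually.of_forall fun t _ => ?_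
      rw [norm_mul, norm_real, Real.norm_of_nonneg (hk0 t), mul_comm]
      exact hb t
    · exact (((ker_cont hz).const_mul ε).add continuous_const).intervalIntegrable _ _
  have h3 : (∫ t in (0:ℝ)..(2 * Real.pi),
                (ε * ((1 - ‖z‖ ^ 2) / ‖exp ((t : ℂ) * I) - z‖ ^ 2) + B)) =
      (ε + B) * (2 * Real.pi) := by
    rw [intervalIntegral.integral_add, intervalIntegral.integral_const_mul, ker_integral hz,
      intervalIntegral.integral_const]
    · simp; ring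
    · exact ((ker_cont hz).const_mul ε).intervalIntegrable _ _
    · exact continuous_const.intervalIntegrable _ _
  rw [h3] at h2
  calc 1 / (2 * Real.pi) * _ ≤ 1 / (2 * Real.pi) * ((ε + B) * (2 * Real.pi)) := by gcongr
    _ = ε + B := by field_simp

/-- The extension to the closed disc. -/
noncomputable def ext (φ P : ℂ → ℂ) (z : ℂ) : ℂ := by
  classical exact if z ∈ ball (0:ℂ) 1 then P z else φ z

theorem ext_ball {φ P : ℂ → ℂ} {z : ℂ} (hz : z ∈ ball (0:ℂ) 1) : ext φ P z = P z := by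
  unfold ext; rw [if_pos hz]

theorem ext_sphere {φ P : ℂ → ℂ} {z : ℂ} (hz : z ∈ sphere (0:ℂ) 1) : ext φ P z = φ z := by
  unfold ext
  rw [if_neg]
  rw [mem_ball_zero_iff]
  rw [mem_sphere_zero_iff_norm] at hz
  linarith

theorem harm {φ P : ℂ → ℂ} (hP : IsPoisson φ P) (hφ : ContinuousOn φ (sphere (0:ℂ) 1)) (a : ℂ) :
    ∃ H : ℂ → ℂ, DifferentiableOn ℂ H (ball 0 1) ∧ ∀ z ∈ ball (0:ℂ) 1, (H z).re = (a * P z).re := by
  have hci : CircleIntegrable (fun ζ => (a * φ ζ).re) 0 1 := by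
    refine ContinuousOn.circleIntegrable zero_le_one ?_
    exact continuous_re.comp_continuousOn (continuousOn_const.mul hφ)
  have hci' : CircleIntegrable (fun ζ => (((a * φ ζ).re : ℝ) : ℂ)) 0 1 := by
    refine ContinuousOn.circleIntegrable zero_le_one ?_
    exact continuous_ofReal.comp_continuousOn
      (continuous_re.comp_continuousOn (continuousOn_const.mul hφ))
  refine ⟨fun w => Real.circleAverage (fun ζ ↦ herglotzRieszKernel 0 w ζ •
    (((a * φ ζ).re : ℝ) : ℂ)) 0 1,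
    differentiableOn_circleAverage_herglotzRieszKernel_smul hci', ?_⟩
  intro z hz
  rw [re_circleAverage_herglotzRieszKernel_smul hci hz, Real.circleAverage_def,
    ← poissonKernel_eq_re_herglotzRieszKernel]
  simp only [Pi.smul_apply', smul_eq_mul, circleMap_zero,
    ofReal_one, one_mul, poissonKernel, sub_zero, norm_exp_ofReal_mul_I, one_pow]
  rw [hP z hz, ← mul_assoc, mul_comm a, mul_assoc, re_ofReal_mul]
  have e0 : a * (∫ t in (0:ℝ)..(2 * Real.pi), (((1 - ‖z‖ ^ 2) /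
      ‖exp ((t : ℂ) * I) - z‖ ^ 2 : ℝ) : ℂ) * φ (exp ((t : ℂ) * I))) =
      ∫ t in (0:ℝ)..(2 * Real.pi), a * ((((1 - ‖z‖ ^ 2) /
      ‖exp ((t : ℂ) * I) - z‖ ^ 2 : ℝ) : ℂ) * φ (exp ((t : ℂ) * I))) :=
    (intervalIntegral.integral_const_mul _ _).symm
  rw [e0]
  have : (∫ t in (0:ℝ)..(2 * Real.pi), a * ((((1 - ‖z‖ ^ 2) / ‖exp ((t : ℂ) * I) - z‖ ^ 2 : ℝ) : ℂ)
      * φ (exp ((t : ℂ) * I)))).re = ∫ t in (0:ℝ)..(2 * Real.pi),
        (a * ((((1 - ‖z‖ ^ 2) / ‖exp ((t : ℂ) * I) - z‖ ^ 2 : ℝ) : ℂ)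
      * φ (exp ((t : ℂ) * I)))).re := by
    have := ContinuousLinearMap.intervalIntegral_comp_comm (μ := volume) (a := 0)
      (b := 2 * Real.pi) reCLM
      (f := fun t : ℝ => a * ((((1 - ‖z‖ ^ 2) / ‖exp ((t : ℂ) * I) - z‖ ^ 2 : ℝ) : ℂ)
      * φ (exp ((t : ℂ) * I))))
      ((continuous_const.mul ((continuous_ofReal.comp (ker_cont hz)).mul
        (phi_cont hφ))).intervalIntegrable _ _)
    simpa using this.symm
  rw [this]
  have h1 : (2 * Real.pi)⁻¹ = 1 / (2 * Real.pi) := by ring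
  rw [h1]
  congr 1
  refine intervalIntegral.integral_congr fun t _ => ?_
  have e2 : a * ((((1 - ‖z‖ ^ 2) / ‖exp ((t : ℂ) * I) - z‖ ^ 2 : ℝ) : ℂ) * φ (exp ((t : ℂ) * I)))
      = (((1 - ‖z‖ ^ 2) / ‖exp ((t : ℂ) * I) - z‖ ^ 2 : ℝ) : ℂ) * (a * φ (exp ((t : ℂ) * I))) := by
    ring
  rw [e2, re_ofReal_mul]

theorem ext_cont {φ P : ℂ → ℂ} (hP : IsPoisson φ P) (hφ : ContinuousOn φ (sphere (0:ℂ) 1)) :
    ContinuousOn (ext φ P) (closedBall 0 1) := by
  intro ζ hζ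
  rcases (mem_closedBall_zero_iff.1 hζ).lt_or_eq with hlt | heq
  · -- interior point
    obtain ⟨H1, hd1, he1⟩ := harm hP hφ 1
    obtain ⟨H2, hd2, he2⟩ := harm hP hφ (-I)
    have hopen : ball (0:ℂ) 1 ∈ 𝓝 ζ := isOpen_ball.mem_nhds (mem_ball_zero_iff.2 hlt)
    have h1 : ContinuousAt H1 ζ := (hd1.differentiableAt hopen).continuousAt
    have h2 : ContinuousAt H2 ζ := (hd2.differentiableAt hopen).continuousAt
    have h3 : ContinuousAt (fun z => ((H1 z).re : ℂ) + ((H2 z).re : ℂ) * I) ζ := by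
      refine ContinuousAt.add ?_ (ContinuousAt.mul ?_ continuousAt_const)
      · exact continuous_ofReal.continuousAt.comp (continuous_re.continuousAt.comp h1)
      · exact continuous_ofReal.continuousAt.comp (continuous_re.continuousAt.comp h2)
    refine ContinuousAt.continuousWithinAt (h3.congr ?_)
    filter_upwards [hopen] with z hz
    rw [ext_ball hz, he1 z hz, he2 z hz]
    apply Complex.ext <;> simp
  · -- boundary point
    have hζs : ζ ∈ sphere (0:ℂ) 1 := mem_sphere_zero_iff_norm.2 heq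
    rw [Metric.continuousWithinAt_iff]
    intro ε hε
    rw [ext_sphere hζs]
    -- modulus of continuity of φ at ζ
    obtain ⟨δ, hδ, hδφ⟩ := (Metric.continuousWithinAt_iff.1 (hφ ζ hζs)) (ε / 2) (by positivity)
    -- bound for φ
    obtain ⟨M, hM⟩ := ((isCompact_sphere (0:ℂ) 1).image_of_continuousOn hφ).isBounded.exists_norm_le
    have hM0 : 0 ≤ M := (norm_nonneg _).trans (hM _ (mem_image_of_mem φ hζs))
    -- choose radius
    set η := min (δ / 2) (ε * δ ^ 2 / (64 * (M + 1))) with hη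
    have hηpos : 0 < η := lt_min (by positivity) (by positivity)
    refine ⟨η, hηpos, fun {z} hz hdist => ?_⟩
    rcases (mem_closedBall_zero_iff.1 hz).lt_or_eq with hzlt | hzeq
    · have hzb : z ∈ ball (0:ℂ) 1 := mem_ball_zero_iff.2 hzlt
      rw [ext_ball hzb, dist_eq_norm]
      have hn0 := norm_nonneg z
      have hd1 : ‖z - ζ‖ < η := by rwa [← dist_eq_norm]
      have h1z : 1 - ‖z‖ < η := by
        have : ‖ζ‖ - ‖z‖ ≤ ‖ζ - z‖ := norm_sub_norm_le _ _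
        rw [norm_sub_rev] at this
        linarith
      have h1z2 : 1 - ‖z‖ ^ 2 ≤ 2 * η := by nlinarith
      have h1z0 : 0 ≤ 1 - ‖z‖ ^ 2 := by nlinarith
      have hb := poisson_bound hP hφ hzb (φ ζ) (ε := ε / 2)
        (B := 2 * M * ((1 - ‖z‖ ^ 2) / (δ / 2) ^ 2)) (by
          intro t
          have hden := den_pos hzb t
          have hk0 : 0 ≤ (1 - ‖z‖ ^ 2) / ‖exp ((t : ℂ) * I) - z‖ ^ 2 := by positivity
          rcases lt_or_ge (dist (exp ((t : ℂ) * I)) ζ) δ with hlt' | hge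
          · have h4 := hδφ (exp_mem t) hlt'
            rw [dist_eq_norm] at h4
            have : ‖φ (exp ((t : ℂ) * I)) - φ ζ‖ *
              ((1 - ‖z‖ ^ 2) / ‖exp ((t : ℂ) * I) - z‖ ^ 2) ≤
              ε / 2 * ((1 - ‖z‖ ^ 2) / ‖exp ((t : ℂ) * I) - z‖ ^ 2) := by
              gcongr
            have h5 : 0 ≤ 2 * M * ((1 - ‖z‖ ^ 2) / (δ / 2) ^ 2) := by positivity
            linarith
          · have h4 : ‖φ (exp ((t : ℂ) * I)) - φ ζ‖ ≤ 2 * M := by
              refine (norm_sub_le _ _).trans ?_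
              have := hM _ (mem_image_of_mem φ (exp_mem t))
              have := hM _ (mem_image_of_mem φ hζs)
              linarith
            have h5 : δ / 2 ≤ ‖exp ((t : ℂ) * I) - z‖ := by
              rw [dist_eq_norm] at hge
              have h6 : ‖exp ((t : ℂ) * I) - ζ‖ ≤ ‖exp ((t : ℂ) * I) - z‖ + ‖z - ζ‖ := by
                have := norm_add_le (exp ((t : ℂ) * I) - z) (z - ζ)
                rwa [sub_add_sub_cancel] at this
              have h7 : ‖z - ζ‖ < δ / 2 := hd1.trans_le (min_le_left _ _)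
              linarith
            have h8 : (1 - ‖z‖ ^ 2) / ‖exp ((t : ℂ) * I) - z‖ ^ 2 ≤
                (1 - ‖z‖ ^ 2) / (δ / 2) ^ 2 := by gcongr
            have h9 : ‖φ (exp ((t : ℂ) * I)) - φ ζ‖ *
              ((1 - ‖z‖ ^ 2) / ‖exp ((t : ℂ) * I) - z‖ ^ 2) ≤
              2 * M * ((1 - ‖z‖ ^ 2) / (δ / 2) ^ 2) := by gcongr
            have h10 : 0 ≤ ε / 2 * ((1 - ‖z‖ ^ 2) / ‖exp ((t : ℂ) * I) - z‖ ^ 2) := by positivity
            linarith)
      have h11 : 2 * M * ((1 - ‖z‖ ^ 2) / (δ / 2) ^ 2) < ε / 2 := by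
        have h12 : η ≤ ε * δ ^ 2 / (64 * (M + 1)) := min_le_right _ _
        have h13 : η * (64 * (M + 1)) ≤ ε * δ ^ 2 := by
          rwa [le_div_iff₀ (by positivity)] at h12
        have h14 : 2 * M * ((1 - ‖z‖ ^ 2) / (δ / 2) ^ 2) =
          (8 * M * (1 - ‖z‖ ^ 2)) / δ ^ 2 := by field_simp; ring
        rw [h14, div_lt_iff₀ (by positivity)]
        have h15 : 8 * M * (1 - ‖z‖ ^ 2) ≤ 8 * M * (2 * η) := by gcongr
        have h16 : 0 < η * 32 := by positivity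
        nlinarith
      linarith
    · rw [ext_sphere (mem_sphere_zero_iff_norm.2 hzeq)]
      have h3 : dist z ζ < δ := hdist.trans_le ((min_le_left _ _).trans (by linarith))
      have := hδφ (mem_sphere_zero_iff_norm.2 hzeq) h3
      linarith

end Pool.Agent.H777R2
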