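import Pool.Agent.H777R2.Fin
import Pool.Agent.H777R2.Pois

set_option autoImplicit false
open Complex Set Topology Metric

namespace Pool.Agent.H777R2

theorem mem_image_of_bounded {F : ℂ → ℂ} (S : Setup F) {w : ℂ} (hwJ : w ∉ F '' sphere 0 1)
    (hwb : Bornology.IsBounded (connectedComponentIn (F '' sphere 0 1)ᶜ w)) :
    w ∈ F '' ball 0 1 := by
  by_contra hcon
  have hne : ∀ z ∈ closedBall (0:ℂ) 1, F z ≠ w := by
    intro z hz h
    rcases (mem_closedBall_zero_iff.1 hz).lt_or_eq with h1 | h1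
    · exact hcon ⟨z, mem_ball_zero_iff.2 h1, h⟩
    · exact hwJ ⟨z, mem_sphere_zero_iff_norm.2 h1, h⟩
  -- radial retraction
  set ρ : ℂ → ℂ := fun z => ((max 1 ‖z‖)⁻¹ : ℝ) • z with hρ
  have hmaxpos : ∀ z : ℂ, 0 < max 1 ‖z‖ := fun z => lt_max_of_lt_left one_pos
  have hρc : Continuous ρ := by
    refine Continuous.smul (Continuous.inv₀ (by fun_prop) (fun z => (hmaxpos z).ne')) continuous_id
  have hρm : ∀ z, ρ z ∈ closedBall (0:ℂ) 1 := by
    intro z
    rw [mem_closedBall_zero_iff, hρ]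
    simp only
    rw [norm_smul, norm_inv, Real.norm_of_nonneg (hmaxpos z).le, inv_mul_le_iff₀ (hmaxpos z),
      mul_one]
    exact le_max_right _ _
  have hρid : ∀ z ∈ closedBall (0:ℂ) 1, ρ z = z := by
    intro z hz
    rw [mem_closedBall_zero_iff] at hz
    simp only [hρ]
    rw [max_eq_left hz]; simp
  have hgc : Continuous fun z => F (ρ z) - w :=
    (S.cont.comp_continuous hρc hρm).sub continuous_const
  obtain ⟨k, hk, hkexp⟩ := exists_log hgc (fun z => sub_ne_zero.2 (hne _ (hρm z)))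
  -- transport to J
  have hcs : CompactSpace (sphere (0:ℂ) 1) := isCompact_iff_compactSpace.1 (isCompact_sphere 0 1)
  let eq0 : sphere (0:ℂ) 1 ≃ (F '' sphere (0:ℂ) 1) := Equiv.Set.imageOfInjOn F _ S.inj
  have heq0c : Continuous eq0 := by
    refine Continuous.subtype_mk ?_ _
    exact continuousOn_iff_continuous_domRestrict.1 (S.cont.mono sphere_subset_closedBall)
  let e : sphere (0:ℂ) 1 ≃ₜ (F '' sphere (0:ℂ) 1) := heq0c.homeoOfEquivCompactToT2
  have heF : ∀ x : (F '' sphere (0:ℂ) 1), F (e.symm x) = x := by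
    intro x
    have h1 : e (e.symm x) = x := e.apply_symm_apply x
    have h2 : ((e (e.symm x) : (F '' sphere (0:ℂ) 1)) : ℂ) = F (e.symm x) := rfl
    rw [← h2, h1]
  let G0 : C((F '' sphere (0:ℂ) 1), ℂ) :=
    ⟨fun x => k (e.symm x), hk.comp (continuous_subtype_val.comp e.symm.continuous)⟩
  obtain ⟨G, hG⟩ := G0.exists_restrict_eq (isCompact_J S).isClosed
  have hGJ : ∀ x ∈ F '' sphere (0:ℂ) 1, exp (G x) = x - w := by
    intro x hx
    have h1 : G x = G0 ⟨x, hx⟩ := by rw [← hG]; rfl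
    rw [h1]
    show exp (k (e.symm ⟨x, hx⟩)) = x - w
    rw [hkexp, hρid _ (sphere_subset_closedBall (e.symm ⟨x, hx⟩).2), heF]
  set V := connectedComponentIn (F '' sphere (0:ℂ) 1)ᶜ w with hV
  have hJo : IsOpen (F '' sphere (0:ℂ) 1)ᶜ := (isCompact_J S).isClosed.isOpen_compl
  have hwV : w ∈ V := mem_connectedComponentIn hwJ
  classical
  have hHc : Continuous (V.piecewise (fun x => exp (G x)) (fun x => x - w)) := by
    refine Continuous.piecewise ?_ (continuous_exp.comp G.continuous) (by fun_prop)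
    intro a ha
    have h1 := comp_frontier hJo ha
    rw [mem_compl_iff, not_not] at h1
    exact hGJ a h1
  obtain ⟨κ, hκ, hκexp⟩ := exists_log hHc (by
    intro x
    by_cases hx : x ∈ V
    · rw [Set.piecewise_eq_of_mem _ _ _ hx]; exact exp_ne_zero _
    · rw [Set.piecewise_eq_of_notMem _ _ _ hx]
      rw [sub_ne_zero]
      rintro rfl
      exact hx hwV)
  obtain ⟨R0, hR0⟩ := hwb.exists_norm_le
  have hwR : ‖w‖ ≤ R0 := hR0 w hwV
  refine no_log_circle (R := R0 + 1) (w := w) (by linarith) (k := κ) hκ.continuousOn ?_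
  intro x hx
  rw [mem_sphere_zero_iff_norm] at hx
  have hxV : x ∉ V := by
    intro h
    have := hR0 x h
    linarith
  rw [hκexp, Set.piecewise_eq_of_notMem _ _ _ hxV]

theorem main {φ : ℂ → ℂ} (hφ : ContinuousOn φ (sphere (0:ℂ) 1)) (hinj : InjOn φ (sphere (0:ℂ) 1))
    {P : ℂ → ℂ} (hP : IsPoisson φ P)
    (hD : ∀ z ∈ Metric.ball (0:ℂ) 1,
        P z ∉ φ '' Metric.sphere (0:ℂ) 1 ∧
          Bornology.IsBounded (connectedComponentIn (φ '' Metric.sphere (0:ℂ) 1)ᶜ (P z))) :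
    Set.InjOn P (Metric.ball (0:ℂ) 1) ∧
        P '' Metric.ball (0:ℂ) 1 =
          {w : ℂ | w ∉ φ '' Metric.sphere (0:ℂ) 1 ∧
            Bornology.IsBounded (connectedComponentIn (φ '' Metric.sphere (0:ℂ) 1)ᶜ w)} := by
  have hJ : ext φ P '' sphere (0:ℂ) 1 = φ '' sphere (0:ℂ) 1 :=
    Set.image_congr (fun z hz => ext_sphere hz)
  have hB : ext φ P '' ball (0:ℂ) 1 = P '' ball (0:ℂ) 1 :=
    Set.image_congr (fun z hz => ext_ball hz)
  have S : Setup (ext φ P) := by
    refine ⟨ext_cont hP hφ, ?_, ?_, ?_, ?_⟩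
    · intro x hx y hy hxy
      rw [ext_sphere hx, ext_sphere hy] at hxy
      exact hinj hx hy hxy
    · intro a
      obtain ⟨H, hH, hHP⟩ := harm hP hφ a
      refine ⟨H, hH, fun z hz => ?_⟩
      rw [hHP z hz, ext_ball hz]
    · intro z hz
      rw [hJ, ext_ball hz]
      exact (hD z hz).1
    · intro z hz
      rw [hJ, ext_ball hz]
      exact (hD z hz).2
  refine ⟨?_, ?_⟩
  · intro x hx y hy hxy
    apply injOn_ball S hx hy
    rw [ext_ball hx, ext_ball hy, hxy]
  · apply Subset.antisymm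
    · rintro _ ⟨z, hz, rfl⟩
      exact hD z hz
    · rintro w ⟨h1, h2⟩
      rw [← hB]
      apply mem_image_of_bounded S
      · rw [hJ]; exact h1
      · rw [hJ]; exact h2

end Pool.Agent.H777R2
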