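import Pool.Agent.H777R2.IncInj

/-! Derivatives of the self-similar map. -/

open Set Filter Topology MeasureTheory Metric

namespace H777R2.Inc

lemma fderiv_child (G : X → X) (c a : X) (y : X) :
    fderiv ℝ (fun y => (1 / 4 : ℝ) • (c + G ((4 : ℝ) • y - a))) y =
      fderiv ℝ G ((4 : ℝ) • y - a) := by
  have h1 : (fun y => (1 / 4 : ℝ) • (c + G ((4 : ℝ) • y - a))) =
      (1 / 4 : ℝ) • (fun y => c + G ((4 : ℝ) • y - a)) := rfl
  rw [h1, fderiv_const_smul_field, Pi.smul_apply, fderiv_const_add]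
  have h2 := fderiv_comp_smul (𝕜 := ℝ) (f := fun z : X => G (z - a)) (x := y) (4 : ℝ)
  have h3 : fderiv ℝ (fun y => G ((4 : ℝ) • y - a)) y = (4 : ℝ) • fderiv ℝ G ((4 : ℝ) • y - a) := by
    rw [← fderiv_comp_sub]; exact h2
  rw [h3, smul_smul]; norm_num

lemma isOpen_child (s : Bool × Bool) : IsOpen {y : X | ‖(4 : ℝ) • y - ctr s‖ < 1} :=
  isOpen_lt (by fun_prop) continuous_const

lemma fderiv_Phi_child (n : ℕ) (μ : ℝ) {y : X} {s : Bool × Bool}
    (h : ‖(4 : ℝ) • y - ctr s‖ < 1) :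
    fderiv ℝ (Phi (n + 1) μ) y = fderiv ℝ (Phi n (4 * μ)) ((4 : ℝ) • y - ctr s) := by
  rw [← fderiv_child (Phi n (4 * μ)) (T (4 * μ) • ctr s) (ctr s) y]
  apply Filter.EventuallyEq.fderiv_eq
  filter_upwards [(isOpen_child s).mem_nhds h] with z hz
  exact Phi_succ_child n μ hz

lemma fderiv_F_child {μ : ℝ} (hμ : 0 ≤ μ) {y : X} {s : Bool × Bool}
    (h : ‖(4 : ℝ) • y - ctr s‖ < 1) :
    fderiv ℝ (F μ) y = fderiv ℝ (F (4 * μ)) ((4 : ℝ) • y - ctr s) := by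
  rw [← fderiv_child (F (4 * μ)) (T (4 * μ) • ctr s) (ctr s) y]
  apply Filter.EventuallyEq.fderiv_eq
  filter_upwards [(isOpen_child s).mem_nhds h] with z hz
  exact F_child hμ hz

lemma frame_mem_nhds {y : X} (h : 1 / 2 < ‖y‖) : ∀ᶠ z in 𝓝 y, 1 / 2 ≤ ‖z‖ :=
  (continuous_norm.continuousAt.eventually (lt_mem_nhds h)).mono fun _ hz => le_of_lt hz

lemma fderiv_Phi_frame (n : ℕ) {μ : ℝ} (hμ : 0 ≤ μ) {y : X} (h : 1 / 2 < ‖y‖) :
    fderiv ℝ (Phi (n + 1) μ) y = fderiv ℝ (F μ) y := by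
  apply Filter.EventuallyEq.fderiv_eq
  filter_upwards [frame_mem_nhds h] with z hz
  rw [Phi_succ_none n μ (fun s => child_ge hz), F_frame hμ hz]

lemma norm_fderiv_frame {μ : ℝ} (hμ : 0 ≤ μ) {y : X} (h : 1 / 2 < ‖y‖) :
    ‖fderiv ℝ (F μ) y‖ ≤ 11 * T μ := by
  have hT := T_pos hμ
  rw [← fderiv_Phi_frame 0 hμ h]
  have h1 : LipschitzWith (Real.toNNReal (11 * T μ)) (Phi (0 + 1) μ) := by
    apply LipschitzWith.of_dist_le_mul fun y z => ?_
    rw [dist_eq_norm, dist_eq_norm, Real.coe_toNNReal _ (by positivity)]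
    have h1 : Phi (0 + 1) μ y - Phi (0 + 1) μ z = T μ • (y - z) + (rho μ y - rho μ z) := by
      simp only [Phi, Th, Finset.sum_const_zero, smul_zero, add_zero]; module
    rw [h1]
    refine (norm_add_le _ _).trans ?_
    rw [norm_smul, Real.norm_of_nonneg hT.le]
    have := rho_lip hμ y z
    linarith
  have h2 := norm_fderiv_le_of_lipschitz ℝ h1 (x₀ := y)
  rwa [Real.coe_toNNReal _ (by positivity)] at h2

/-! ### determinants -/

lemma det_X (A : X →L[ℝ] X) :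
    A.det = (A (1, 0)).1 * (A (0, 1)).2 - (A (0, 1)).1 * (A (1, 0)).2 := by
  rw [ContinuousLinearMap.det, ← LinearMap.det_toMatrix (Module.Basis.finTwoProd ℝ),
    Matrix.det_fin_two]
  simp [LinearMap.toMatrix_apply]

lemma det_radial (h c : ℝ) (ℓ : X →L[ℝ] ℝ) (y : X) :
    (h • ContinuousLinearMap.id ℝ X + (c • ℓ).smulRight y).det = h ^ 2 + h * c * ℓ y := by
  have hy : ℓ y = y.1 * ℓ (1, 0) + y.2 * ℓ (0, 1) := by
    have : y = y.1 • ((1 : ℝ), (0 : ℝ)) + y.2 • ((0 : ℝ), (1 : ℝ)) := by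
      ext <;> simp
    conv_lhs => rw [this]
    rw [map_add, map_smul, map_smul]; simp
  rw [det_X, hy]
  simp
  ring

lemma hasFDerivAt_radial {μ : ℝ} (hμ : 0 ≤ μ) (ℓ : X →L[ℝ] ℝ) {y : X} (hy : 0 < ℓ y) :
    HasFDerivAt (fun z : X => (√((ℓ z) ^ 2 + μ) / ℓ z) • z)
      ((√((ℓ y) ^ 2 + μ) / ℓ y) • ContinuousLinearMap.id ℝ X +
        ((-(μ / ((ℓ y) ^ 2 * √((ℓ y) ^ 2 + μ)))) • ℓ).smulRight y) y := by
  have h0 : 0 < (ℓ y) ^ 2 + μ := by positivity
  have hs : √((ℓ y) ^ 2 + μ) ^ 2 = (ℓ y) ^ 2 + μ := Real.sq_sqrt h0.le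
  have hs0 : 0 < √((ℓ y) ^ 2 + μ) := Real.sqrt_pos.2 h0
  have h1 : HasDerivAt (fun t : ℝ => √(t ^ 2 + μ) / t)
      (-(μ / ((ℓ y) ^ 2 * √((ℓ y) ^ 2 + μ)))) (ℓ y) := by
    have h2 : HasDerivAt (fun t : ℝ => t ^ 2 + μ) (2 * ℓ y) (ℓ y) := by
      simpa using (hasDerivAt_pow 2 (ℓ y)).add_const μ
    have h3 := (h2.sqrt h0.ne').div (hasDerivAt_id (ℓ y)) hy.ne'
    refine h3.congr_deriv ?_
    rw [div_eq_iff (by simp only [id]; positivity)]
    simp only [id]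
    field_simp
    rw [hs]; ring
  have h2 := h1.comp_hasFDerivAt y ℓ.hasFDerivAt
  have h3 := h2.smul (hasFDerivAt_id y)
  exact h3

lemma det_radial_one {μ : ℝ} (hμ : 0 ≤ μ) (ℓ : X →L[ℝ] ℝ) {y : X} (hy : 0 < ℓ y) :
    ((√((ℓ y) ^ 2 + μ) / ℓ y) • ContinuousLinearMap.id ℝ X +
        ((-(μ / ((ℓ y) ^ 2 * √((ℓ y) ^ 2 + μ)))) • ℓ).smulRight y).det = 1 := by
  have h0 : 0 < (ℓ y) ^ 2 + μ := by positivity
  have hs : √((ℓ y) ^ 2 + μ) ^ 2 = (ℓ y) ^ 2 + μ := Real.sq_sqrt h0.le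
  have hs0 : 0 < √((ℓ y) ^ 2 + μ) := Real.sqrt_pos.2 h0
  rw [det_radial]
  field_simp
  rw [hs]; ring

/-- off the diagonals the sup norm is locally a linear functional -/
lemma exists_functional {y : X} (h1 : y.1 ≠ y.2) (h2 : y.1 ≠ -y.2) :
    ∃ ℓ : X →L[ℝ] ℝ, 0 < ℓ y ∧ ∀ᶠ z in 𝓝 y, ‖z‖ = ℓ z := by
  have c1 : Continuous fun z : X => z.1 := continuous_fst
  have c2 : Continuous fun z : X => z.2 := continuous_snd
  rcases lt_or_ge |y.2| |y.1| with h | h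
  · have hlt : ∀ᶠ z : X in 𝓝 y, |z.2| < |z.1| :=
      (isOpen_lt (by fun_prop : Continuous fun z : X => |z.2|)
        (by fun_prop : Continuous fun z : X => |z.1|)).mem_nhds h
    have hy1 : y.1 ≠ 0 := by
      intro h0; rw [h0, abs_zero] at h; exact absurd h (abs_nonneg _).not_gt
    rcases lt_or_gt_of_ne hy1 with h0 | h0
    · refine ⟨-ContinuousLinearMap.fst ℝ ℝ ℝ, by simpa using h0, ?_⟩
      filter_upwards [hlt, (isOpen_lt c1 continuous_const).mem_nhds h0] with z hz hz0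
      rw [Prod.norm_def, Real.norm_eq_abs, Real.norm_eq_abs, max_eq_left hz.le]
      simpa using abs_of_neg hz0
    · refine ⟨ContinuousLinearMap.fst ℝ ℝ ℝ, by simpa using h0, ?_⟩
      filter_upwards [hlt, (isOpen_lt continuous_const c1).mem_nhds h0] with z hz hz0
      rw [Prod.norm_def, Real.norm_eq_abs, Real.norm_eq_abs, max_eq_left hz.le]
      simpa using abs_of_pos hz0
  · have h' : |y.1| < |y.2| := by
      refine lt_of_le_of_ne h fun he => ?_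
      rcases abs_eq_abs.1 he with h3 | h3
      · exact h1 h3
      · exact h2 h3
    have hlt : ∀ᶠ z : X in 𝓝 y, |z.1| < |z.2| :=
      (isOpen_lt (by fun_prop : Continuous fun z : X => |z.1|)
        (by fun_prop : Continuous fun z : X => |z.2|)).mem_nhds h'
    have hy2 : y.2 ≠ 0 := by
      intro h0; rw [h0, abs_zero] at h'; exact absurd h' (abs_nonneg _).not_gt
    rcases lt_or_gt_of_ne hy2 with h0 | h0
    · refine ⟨-ContinuousLinearMap.snd ℝ ℝ ℝ, by simpa using h0, ?_⟩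
      filter_upwards [hlt, (isOpen_lt c2 continuous_const).mem_nhds h0] with z hz hz0
      rw [Prod.norm_def, Real.norm_eq_abs, Real.norm_eq_abs, max_eq_right hz.le]
      simpa using abs_of_neg hz0
    · refine ⟨ContinuousLinearMap.snd ℝ ℝ ℝ, by simpa using h0, ?_⟩
      filter_upwards [hlt, (isOpen_lt continuous_const c2).mem_nhds h0] with z hz hz0
      rw [Prod.norm_def, Real.norm_eq_abs, Real.norm_eq_abs, max_eq_right hz.le]
      simpa using abs_of_pos hz0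

lemma det_frame {μ : ℝ} (hμ : 0 ≤ μ) {y : X} (h : 1 / 2 < ‖y‖) (h' : ‖y‖ < 1)
    (h1 : y.1 ≠ y.2) (h2 : y.1 ≠ -y.2) : (fderiv ℝ (F μ) y).det = 1 := by
  obtain ⟨ℓ, hℓ, hev⟩ := exists_functional h1 h2
  have h3 : F μ =ᶠ[𝓝 y] fun z : X => (√((ℓ z) ^ 2 + μ) / ℓ z) • z := by
    filter_upwards [hev, frame_mem_nhds h,
      continuous_norm.continuousAt.eventually (gt_mem_nhds h')] with z hz hz1 hz2
    rw [F_frame hμ hz1, gg_of_mem hz1 hz2.le, hz]
  rw [h3.fderiv_eq, (hasFDerivAt_radial hμ ℓ hℓ).fderiv, det_radial_one hμ ℓ hℓ]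

/-! ### the exceptional null set -/

def Z : Set X := sphere 0 (1 / 2) ∪ {y | y.1 = 0} ∪ {y | y.2 = 0} ∪ {y | y.1 = y.2} ∪
  {y | y.1 = -y.2}

lemma volume_ker (ℓ : X →L[ℝ] ℝ) (h : ℓ ≠ 0) : volume {y : X | ℓ y = 0} = 0 := by
  have h1 : {y : X | ℓ y = 0} = (LinearMap.ker ℓ.toLinearMap : Set X) := by
    ext y; simp
  rw [h1]
  apply Measure.addHaar_submodule
  intro h2
  apply h
  ext
  · have : ((1 : ℝ), (0 : ℝ)) ∈ LinearMap.ker ℓ.toLinearMap := by rw [h2]; trivial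
    simpa using this
  · have : ((0 : ℝ), (1 : ℝ)) ∈ LinearMap.ker ℓ.toLinearMap := by rw [h2]; trivial
    simpa using this

lemma volume_Z : volume Z = 0 := by
  unfold Z
  refine measure_union_null (measure_union_null (measure_union_null (measure_union_null ?_ ?_) ?_)
    ?_) ?_
  · exact Measure.addHaar_sphere _ _ _
  · apply volume_ker (ContinuousLinearMap.fst ℝ ℝ ℝ)
    intro h; simpa using congrArg (fun A : X →L[ℝ] ℝ => A (1, 0)) h
  · apply volume_ker (ContinuousLinearMap.snd ℝ ℝ ℝ)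
    intro h; simpa using congrArg (fun A : X →L[ℝ] ℝ => A (0, 1)) h
  · have := volume_ker (ContinuousLinearMap.fst ℝ ℝ ℝ - ContinuousLinearMap.snd ℝ ℝ ℝ) (by
      intro h; simpa using congrArg (fun A : X →L[ℝ] ℝ => A (1, 0)) h)
    simpa [sub_eq_zero] using this
  · have := volume_ker (ContinuousLinearMap.fst ℝ ℝ ℝ + ContinuousLinearMap.snd ℝ ℝ ℝ) (by
      intro h; simpa using congrArg (fun A : X →L[ℝ] ℝ => A (1, 0)) h)
    simpa [add_eq_zero_iff_eq_neg] using this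

lemma cover {y : X} (hZ : y ∉ Z) :
    (1 / 2 < ‖y‖ ∧ y.1 ≠ y.2 ∧ y.1 ≠ -y.2) ∨ ∃ s, ‖(4 : ℝ) • y - ctr s‖ < 1 := by
  simp only [Z, mem_union, Set.mem_ofPred_eq, not_or, mem_sphere_iff_norm, sub_zero] at hZ
  obtain ⟨⟨⟨⟨h1, h2⟩, h3⟩, h4⟩, h5⟩ := hZ
  rcases lt_trichotomy ‖y‖ (1 / 2) with h6 | h6 | h6
  · exact Or.inr (exists_child h6 h2 h3)
  · exact absurd h6 h1
  · exact Or.inl ⟨h6, h4, h5⟩

/-! ### scaling -/

noncomputable def ce (s : Bool × Bool) : X ≃ₜ X :=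
  (Homeomorph.smulOfNeZero (4 : ℝ) (by norm_num)).trans (Homeomorph.subRight (ctr s))

lemma ce_apply (s : Bool × Bool) (y : X) : ce s y = (4 : ℝ) • y - ctr s := rfl

lemma map_ce (s : Bool × Bool) :
    Measure.map (ce s) (volume : Measure X) = ENNReal.ofReal (1 / 16) • volume := by
  have h1 : (ce s : X → X) = (fun z => z - ctr s) ∘ fun y => (4 : ℝ) • y := rfl
  rw [h1, ← Measure.map_map (by fun_prop) (by fun_prop), Measure.map_addHaar_smul _ (by norm_num),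
    Measure.map_smul, map_sub_right_eq_self]
  congr 2
  simp
  norm_num

lemma volume_ce_preimage (s : Bool × Bool) (A : Set X) :
    volume (ce s ⁻¹' A) = ENNReal.ofReal (1 / 16) * volume A := by
  have := (ce s).toMeasurableEquiv.map_apply (μ := volume) A
  rw [Homeomorph.toMeasurableEquiv_coe, map_ce] at this
  rw [← this]; simp

lemma lintegral_ce (s : Bool × Bool) (H : X → ENNReal) :
    ∫⁻ y in {y : X | ‖(4 : ℝ) • y - ctr s‖ < 1}, H ((4 : ℝ) • y - ctr s) =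
      ENNReal.ofReal (1 / 16) * ∫⁻ y in ball 0 1, H y := by
  have h1 : {y : X | ‖(4 : ℝ) • y - ctr s‖ < 1} = ce s ⁻¹' (ball 0 1) := by
    ext y; simp [ce_apply]
  have h2 : MeasurableEmbedding (ce s) := (ce s).measurableEmbedding
  rw [h1]
  have h3 : ∫⁻ y in ce s ⁻¹' (ball 0 1), H ((4 : ℝ) • y - ctr s) =
      ∫⁻ y in (ball 0 1), H y ∂(Measure.map (ce s) volume) := by
    rw [h2.restrict_map, h2.lintegral_map]
    rfl
  rw [h3, map_ce, Measure.restrict_smul, lintegral_smul_measure, smul_eq_mul]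

lemma volume_ball_X : volume (ball (0 : X) 1) = 4 := by
  have : ball (0 : X) 1 = ball (0 : ℝ) 1 ×ˢ ball (0 : ℝ) 1 := (ball_prod_same (0 : ℝ) (0 : ℝ) 1).symm
  rw [this, Measure.volume_eq_prod, Measure.prod_prod, Real.volume_ball, ← ENNReal.ofReal_mul]
  · norm_num
  · norm_num

lemma lint_rec (h h' : X → ENNReal) (c : ENNReal) (hf : ∀ y : X, 1 / 2 < ‖y‖ → ‖y‖ < 1 → h y ≤ c)
    (hc : ∀ (s : Bool × Bool) (y : X), ‖(4 : ℝ) • y - ctr s‖ < 1 → h y ≤ h' ((4 : ℝ) • y - ctr s)) :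
    ∫⁻ y in ball 0 1, h y ≤ 4 * c + ENNReal.ofReal (1 / 4) * ∫⁻ y in ball 0 1, h' y := by
  have hsub : ball (0 : X) 1 ⊆ (Z ∪ {y : X | 1 / 2 < ‖y‖ ∧ ‖y‖ < 1}) ∪
      ⋃ s : Bool × Bool, {y : X | ‖(4 : ℝ) • y - ctr s‖ < 1} := by
    intro y hy
    rw [mem_ball_zero_iff] at hy
    by_cases hZ : y ∈ Z
    · exact Or.inl (Or.inl hZ)
    · rcases cover hZ with h1 | ⟨s, h1⟩
      · exact Or.inl (Or.inr ⟨h1.1, hy⟩)
      · exact Or.inr (mem_iUnion.2 ⟨s, h1⟩)
  calc ∫⁻ y in ball 0 1, h y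
      ≤ ∫⁻ y in (Z ∪ {y : X | 1 / 2 < ‖y‖ ∧ ‖y‖ < 1}) ∪
          ⋃ s : Bool × Bool, {y : X | ‖(4 : ℝ) • y - ctr s‖ < 1}, h y :=
        lintegral_mono_set hsub
    _ ≤ ((∫⁻ y in Z, h y) + (∫⁻ y in {y : X | 1 / 2 < ‖y‖ ∧ ‖y‖ < 1}, h y)) +
        ∑' s : Bool × Bool, ∫⁻ y in {y : X | ‖(4 : ℝ) • y - ctr s‖ < 1}, h y :=
        (lintegral_union_le _ _ _).trans (add_le_add (lintegral_union_le _ _ _)
          (lintegral_iUnion_le _ _))
    _ ≤ (0 + 4 * c) + ∑' s : Bool × Bool, ENNReal.ofReal (1 / 16) * ∫⁻ y in ball 0 1, h' y := by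
        gcongr with s
        · rw [Measure.restrict_eq_zero.2 volume_Z]; simp
        · have hm : MeasurableSet {y : X | 1 / 2 < ‖y‖ ∧ ‖y‖ < 1} :=
            (measurableSet_lt measurable_const measurable_norm).inter
              (measurableSet_lt measurable_norm measurable_const)
          calc ∫⁻ y in {y : X | 1 / 2 < ‖y‖ ∧ ‖y‖ < 1}, h y ≤
              ∫⁻ y in {y : X | 1 / 2 < ‖y‖ ∧ ‖y‖ < 1}, c :=
                setLIntegral_mono' hm fun y hy => hf y hy.1 hy.2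
            _ = c * volume {y : X | 1 / 2 < ‖y‖ ∧ ‖y‖ < 1} := by
                rw [setLIntegral_const]
            _ ≤ c * volume (ball (0 : X) 1) := by
                gcongr
                intro y hy
                simpa using hy.2
            _ = 4 * c := by rw [volume_ball_X, mul_comm]
        · rw [← lintegral_ce s]
          exact setLIntegral_mono' (isOpen_child s).measurableSet fun y hy => hc s y hy
    _ = 4 * c + ENNReal.ofReal (1 / 4) * ∫⁻ y in ball 0 1, h' y := by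
        rw [tsum_fintype, Finset.sum_const, zero_add, nsmul_eq_mul, ← mul_assoc]
        congr 2
        have : ((Finset.univ : Finset (Bool × Bool)).card : ENNReal) = ENNReal.ofReal 4 := by
          simp
        rw [this, ← ENNReal.ofReal_mul (by norm_num)]
        norm_num

/-! ### almost every point is good -/

def Good (μ : ℝ) (y : X) : Prop :=
  (fderiv ℝ (F μ) y).det = 1 ∧ ∀ᶠ n in atTop, fderiv ℝ (Phi n μ) y = fderiv ℝ (F μ) y

def Bad (μ : ℝ) : Set X := {y | ‖y‖ < 1 ∧ ¬ Good μ y}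

lemma bad_subset {μ : ℝ} (hμ : 0 ≤ μ) :
    Bad μ ⊆ Z ∪ ⋃ s : Bool × Bool, ce s ⁻¹' (Bad (4 * μ)) := by
  rintro y ⟨hy, hb⟩
  by_cases hZ : y ∈ Z
  · exact Or.inl hZ
  right
  rcases cover hZ with ⟨h1, h2, h3⟩ | ⟨s, hs⟩
  · exfalso
    apply hb
    refine ⟨det_frame hμ h1 hy h2 h3, ?_⟩
    filter_upwards [eventually_ge_atTop 1] with n hn
    obtain ⟨m, rfl⟩ := Nat.exists_eq_add_of_le hn
    rw [add_comm 1 m]
    exact fderiv_Phi_frame m hμ h1
  · rw [mem_iUnion]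
    refine ⟨s, ?_⟩
    rw [mem_preimage, ce_apply]
    refine ⟨hs, fun hg => hb ?_⟩
    refine ⟨by rw [fderiv_F_child hμ hs]; exact hg.1, ?_⟩
    rw [fderiv_F_child hμ hs]
    obtain ⟨N, hN⟩ := eventually_atTop.1 hg.2
    refine eventually_atTop.2 ⟨N + 1, fun n hn => ?_⟩
    obtain ⟨m, rfl⟩ := Nat.exists_eq_add_of_le' (show 1 ≤ n by omega)
    rw [fderiv_Phi_child m μ hs, hN m (by omega)]

lemma volume_bad_rec {μ : ℝ} (hμ : 0 ≤ μ) :
    volume (Bad μ) ≤ ENNReal.ofReal (1 / 4) * volume (Bad (4 * μ)) := by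
  calc volume (Bad μ) ≤ volume (Z ∪ ⋃ s : Bool × Bool, ce s ⁻¹' (Bad (4 * μ))) :=
        measure_mono (bad_subset hμ)
    _ ≤ volume Z + volume (⋃ s : Bool × Bool, ce s ⁻¹' (Bad (4 * μ))) := measure_union_le _ _
    _ ≤ 0 + ∑' s : Bool × Bool, volume (ce s ⁻¹' (Bad (4 * μ))) := by
        rw [volume_Z]; gcongr; exact measure_iUnion_le _
    _ = ENNReal.ofReal (1 / 4) * volume (Bad (4 * μ)) := by
        simp only [volume_ce_preimage]
        rw [tsum_fintype, Finset.sum_const, zero_add, nsmul_eq_mul, ← mul_assoc]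
        congr 1
        have : ((Finset.univ : Finset (Bool × Bool)).card : ENNReal) = ENNReal.ofReal 4 := by
          simp
        rw [this, ← ENNReal.ofReal_mul (by norm_num)]
        norm_num

lemma volume_bad_le : ∀ (n : ℕ) {μ : ℝ}, 0 ≤ μ → volume (Bad μ) ≤ 4 * ENNReal.ofReal (1 / 4) ^ n
  | 0, μ, _ => by
    rw [pow_zero, mul_one, ← volume_ball_X]
    exact measure_mono fun y hy => by simpa using hy.1
  | n + 1, μ, hμ => by
    refine (volume_bad_rec hμ).trans ?_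
    have := volume_bad_le n (μ := 4 * μ) (by linarith)
    calc _ ≤ ENNReal.ofReal (1 / 4) * (4 * ENNReal.ofReal (1 / 4) ^ n) := by gcongr
      _ = _ := by ring

lemma volume_bad {μ : ℝ} (hμ : 0 ≤ μ) : volume (Bad μ) = 0 := by
  have h1 : Tendsto (fun n : ℕ => 4 * ENNReal.ofReal (1 / 4) ^ n) atTop (𝓝 (4 * 0)) := by
    apply ENNReal.Tendsto.const_mul
    · apply ENNReal.tendsto_pow_atTop_nhds_zero_of_lt_one
      rw [ENNReal.ofReal_lt_one]; norm_num
    · right; norm_num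
  rw [mul_zero] at h1
  exact le_antisymm (ge_of_tendsto' h1 fun n => volume_bad_le n hμ) zero_le

lemma ae_good {μ : ℝ} (hμ : 0 ≤ μ) : ∀ᵐ y ∂(volume.restrict (ball (0 : X) 1)), Good μ y := by
  rw [ae_restrict_iff' measurableSet_ball]
  have : {y : X | ¬ (y ∈ ball (0 : X) 1 → Good μ y)} = Bad μ := by
    ext y; simp [Bad]
  rw [ae_iff, this]
  exact volume_bad hμ

end H777R2.Inc
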