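import Mathlib

/-! Geometry of the self-similar map used for incompressible homeomorphisms. -/

open Set Filter Topology MeasureTheory

namespace H777R2.Inc

abbrev X := ℝ × ℝ

noncomputable def T (μ : ℝ) : ℝ := √(1 + μ)
noncomputable def cl (r : ℝ) : ℝ := max (1 / 2) (min r 1)
noncomputable def gg (μ r : ℝ) : ℝ := √(cl r ^ 2 + μ) / cl r
noncomputable def rho (μ : ℝ) (y : X) : X := (gg μ ‖y‖ - T μ) • y

noncomputable def sg (b : Bool) : ℝ := if b then 1 else -1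
noncomputable def ctr (s : Bool × Bool) : X := (sg s.1, sg s.2)

noncomputable def Th : ℕ → ℝ → X → X
  | 0, _, _ => 0
  | n + 1, μ, y => rho μ y + (1 / 4 : ℝ) • ∑ s : Bool × Bool, Th n (4 * μ) ((4 : ℝ) • y - ctr s)

noncomputable def Phi (n : ℕ) (μ : ℝ) (y : X) : X := T μ • y + Th n μ y

lemma abs_sg (b : Bool) : |sg b| = 1 := by
  cases b <;> simp [sg]

lemma norm_ctr (s : Bool × Bool) : ‖ctr s‖ = 1 := by
  simp [ctr, Prod.norm_def, abs_sg]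

lemma T_pos {μ : ℝ} (hμ : 0 ≤ μ) : 0 < T μ := by
  unfold T; positivity

lemma one_le_T {μ : ℝ} (hμ : 0 ≤ μ) : 1 ≤ T μ := by
  unfold T; rw [Real.one_le_sqrt]; linarith

lemma T_sq {μ : ℝ} (hμ : 0 ≤ μ) : T μ ^ 2 = 1 + μ := by
  unfold T; rw [Real.sq_sqrt]; linarith

lemma cl_ge (r : ℝ) : 1 / 2 ≤ cl r := le_max_left _ _
lemma cl_pos (r : ℝ) : 0 < cl r := by have := cl_ge r; linarith
lemma cl_le (r : ℝ) : cl r ≤ 1 := by
  unfold cl; apply max_le (by norm_num) (min_le_right _ _)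
lemma cl_of_le {r : ℝ} (h : r ≤ 1 / 2) : cl r = 1 / 2 := by
  unfold cl; rw [min_eq_left (by linarith), max_eq_left h]
lemma cl_of_ge {r : ℝ} (h : 1 ≤ r) : cl r = 1 := by
  unfold cl; rw [min_eq_right h, max_eq_right (by norm_num)]
lemma cl_of_mem {r : ℝ} (h : 1 / 2 ≤ r) (h' : r ≤ 1) : cl r = r := by
  unfold cl; rw [min_eq_left h', max_eq_right h]

lemma gg_of_le {μ r : ℝ} (h : r ≤ 1 / 2) : gg μ r = T (4 * μ) := by
  unfold gg T
  rw [cl_of_le h]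
  have : (1 + 4 * μ) = 2 ^ 2 * ((1 / 2) ^ 2 + μ) := by ring
  rw [this, Real.sqrt_mul (by norm_num), Real.sqrt_sq (by norm_num)]
  ring

lemma gg_of_ge {μ r : ℝ} (h : 1 ≤ r) : gg μ r = T μ := by
  unfold gg T
  rw [cl_of_ge h]; simp

lemma gg_of_mem {μ r : ℝ} (h : 1 / 2 ≤ r) (h' : r ≤ 1) : gg μ r = √(r ^ 2 + μ) / r := by
  unfold gg; rw [cl_of_mem h h']

lemma rho_of_ge {μ : ℝ} {y : X} (h : 1 ≤ ‖y‖) : rho μ y = 0 := by
  unfold rho; rw [gg_of_ge h]; simp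

lemma child_norm {y : X} {s : Bool × Bool} (h : ‖(4 : ℝ) • y - ctr s‖ < 1) : ‖y‖ < 1 / 2 := by
  have h1 : ‖(4 : ℝ) • y‖ ≤ ‖(4 : ℝ) • y - ctr s‖ + ‖ctr s‖ := by
    have := norm_add_le ((4 : ℝ) • y - ctr s) (ctr s)
    simpa using this
  rw [norm_ctr, norm_smul, Real.norm_of_nonneg (by norm_num : (0:ℝ) ≤ 4)] at h1
  linarith

lemma child_ge {y : X} {s : Bool × Bool} (h : 1 / 2 ≤ ‖y‖) : 1 ≤ ‖(4 : ℝ) • y - ctr s‖ := by
  by_contra hc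
  have := child_norm (not_le.1 hc)
  linarith

lemma norm_lt_iff {y : X} {c : ℝ} : ‖y‖ < c ↔ |y.1| < c ∧ |y.2| < c := by
  simp [Prod.norm_def]

lemma norm_le_iff {y : X} {c : ℝ} : ‖y‖ ≤ c ↔ |y.1| ≤ c ∧ |y.2| ≤ c := by
  simp [Prod.norm_def]

lemma sg_lt {t : ℝ} {a b : Bool} (h : |4 * t - sg a| < 1) (hab : b ≠ a) : 1 ≤ |4 * t - sg b| := by
  cases a <;> cases b <;> simp [sg] at * <;> rw [abs_lt] at h
  · rw [le_abs]; right; linarith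
  · rw [le_abs]; left; linarith

lemma child_unique {y : X} {s s' : Bool × Bool} (h : ‖(4 : ℝ) • y - ctr s‖ < 1) (hs : s' ≠ s) :
    1 ≤ ‖(4 : ℝ) • y - ctr s'‖ := by
  rw [norm_lt_iff] at h
  simp only [Prod.fst_sub, Prod.smul_fst, Prod.snd_sub, Prod.smul_snd, ctr, smul_eq_mul] at h
  by_cases h1 : s'.1 = s.1
  · have h2 : s'.2 ≠ s.2 := fun h2 => hs (Prod.ext h1 h2)
    have := sg_lt h.2 h2
    calc (1:ℝ) ≤ _ := this
      _ ≤ _ := by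
        have := norm_snd_le ((4 : ℝ) • y - ctr s')
        simpa [ctr] using this
  · have := sg_lt h.1 h1
    calc (1:ℝ) ≤ _ := this
      _ ≤ _ := by
        have := norm_fst_le ((4 : ℝ) • y - ctr s')
        simpa [ctr] using this

/-- sign of a real number as a Boolean -/
lemma sg_exists {t : ℝ} (h : |t| < 1 / 2) (h0 : t ≠ 0) : ∃ a, |4 * t - sg a| < 1 := by
  rw [abs_lt] at h
  rcases lt_or_gt_of_ne h0 with h1 | h1
  · refine ⟨false, ?_⟩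
    simp only [sg, Bool.false_eq_true, if_false]; rw [abs_lt]; constructor <;> linarith
  · refine ⟨true, ?_⟩
    simp only [sg, if_true]; rw [abs_lt]; constructor <;> linarith

lemma exists_child {y : X} (h : ‖y‖ < 1 / 2) (h1 : y.1 ≠ 0) (h2 : y.2 ≠ 0) :
    ∃ s, ‖(4 : ℝ) • y - ctr s‖ < 1 := by
  rw [norm_lt_iff] at h
  obtain ⟨a, ha⟩ := sg_exists h.1 h1
  obtain ⟨b, hb⟩ := sg_exists h.2 h2
  refine ⟨(a, b), ?_⟩
  rw [norm_lt_iff]
  simpa [ctr] using ⟨ha, hb⟩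

lemma Th_of_ge : ∀ (n : ℕ) (μ : ℝ) {y : X}, 1 ≤ ‖y‖ → Th n μ y = 0
  | 0, μ, y, _ => rfl
  | n + 1, μ, y, h => by
    rw [Th, rho_of_ge h]
    have : ∀ s : Bool × Bool, Th n (4 * μ) ((4 : ℝ) • y - ctr s) = 0 := fun s =>
      Th_of_ge n _ (child_ge (by linarith))
    simp [this]

lemma Th_succ_frame (n : ℕ) (μ : ℝ) {y : X} (h : ∀ s, 1 ≤ ‖(4 : ℝ) • y - ctr s‖) :
    Th (n + 1) μ y = rho μ y := by
  rw [Th]
  have : ∀ s : Bool × Bool, Th n (4 * μ) ((4 : ℝ) • y - ctr s) = 0 := fun s =>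
      Th_of_ge n _ (h s)
  simp [this]

lemma Th_succ_child (n : ℕ) (μ : ℝ) {y : X} {s : Bool × Bool} (h : ‖(4 : ℝ) • y - ctr s‖ < 1) :
    Th (n + 1) μ y = rho μ y + (1 / 4 : ℝ) • Th n (4 * μ) ((4 : ℝ) • y - ctr s) := by
  rw [Th, Finset.sum_eq_single s]
  · intro s' _ hs'
    exact Th_of_ge n _ (child_unique h hs')
  · simp

lemma Phi_of_ge (n : ℕ) {μ : ℝ} {y : X} (h : 1 ≤ ‖y‖) : Phi n μ y = T μ • y := by
  rw [Phi, Th_of_ge n μ h, add_zero]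

lemma Phi_succ_none (n : ℕ) (μ : ℝ) {y : X} (h : ∀ s, 1 ≤ ‖(4 : ℝ) • y - ctr s‖) :
    Phi (n + 1) μ y = gg μ ‖y‖ • y := by
  rw [Phi, Th_succ_frame n μ h, rho]; module

lemma Phi_succ_child (n : ℕ) (μ : ℝ) {y : X} {s : Bool × Bool} (h : ‖(4 : ℝ) • y - ctr s‖ < 1) :
    Phi (n + 1) μ y =
      (1 / 4 : ℝ) • (T (4 * μ) • ctr s + Phi n (4 * μ) ((4 : ℝ) • y - ctr s)) := by
  rw [Phi, Th_succ_child n μ h, rho, gg_of_le (child_norm h).le, Phi]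
  module

/-! ### bounds and the limit -/

lemma sqrt_le_T {μ r : ℝ} (h : r ≤ 1) (h0 : 0 ≤ r) : √(r ^ 2 + μ) ≤ T μ := by
  apply Real.sqrt_le_sqrt; nlinarith

lemma T_four_le {μ : ℝ} (hμ : 0 ≤ μ) : T (4 * μ) ≤ 2 * T μ := by
  unfold T
  rw [show (2:ℝ) * √(1 + μ) = √(2 ^ 2 * (1 + μ)) by
    rw [Real.sqrt_mul (by norm_num), Real.sqrt_sq (by norm_num)]]
  apply Real.sqrt_le_sqrt; linarith

lemma gg_mul_le {μ : ℝ} (hμ : 0 ≤ μ) {r : ℝ} (h0 : 0 ≤ r) (h1 : r ≤ 1) : gg μ r * r ≤ T μ := by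
  rcases le_total r (1 / 2) with h | h
  · rw [gg_of_le h]
    have := T_four_le hμ
    have := T_pos hμ
    nlinarith
  · rw [gg_of_mem h h1, div_mul_cancel₀ _ (by linarith)]
    exact sqrt_le_T h1 h0

lemma T_le_gg {μ : ℝ} (hμ : 0 ≤ μ) (r : ℝ) : T μ ≤ gg μ r := by
  unfold gg T
  rw [le_div_iff₀ (cl_pos r)]
  apply Real.le_sqrt_of_sq_le
  rw [mul_pow, Real.sq_sqrt (by linarith)]
  have := cl_le r; have := cl_pos r
  have : cl r ^ 2 ≤ 1 := by nlinarith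
  nlinarith

lemma gg_pos {μ : ℝ} (hμ : 0 ≤ μ) (r : ℝ) : 0 < gg μ r := lt_of_lt_of_le (T_pos hμ) (T_le_gg hμ r)

lemma norm_rho_le {μ : ℝ} (hμ : 0 ≤ μ) (y : X) : ‖rho μ y‖ ≤ T μ := by
  rcases le_total 1 ‖y‖ with h | h
  · rw [rho_of_ge h]; simpa using (T_pos hμ).le
  · rw [rho, norm_smul, Real.norm_of_nonneg (by have := T_le_gg hμ ‖y‖; linarith)]
    have := gg_mul_le hμ (norm_nonneg y) h
    have := T_pos hμ
    have := norm_nonneg y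
    nlinarith

lemma Th_diff_le : ∀ (n : ℕ) {μ : ℝ}, 0 ≤ μ → ∀ y : X,
    ‖Th (n + 1) μ y - Th n μ y‖ ≤ T μ * (1 / 2) ^ n
  | 0, μ, hμ, y => by
    have : Th 1 μ y = rho μ y := by
      rw [Th]; simp [Th]
    rw [this]
    simpa [Th] using norm_rho_le hμ y
  | n + 1, μ, hμ, y => by
    have h4 : 0 ≤ 4 * μ := by linarith
    by_cases h : ∃ s, ‖(4 : ℝ) • y - ctr s‖ < 1
    · obtain ⟨s, hs⟩ := h
      rw [Th_succ_child (n + 1) μ hs, Th_succ_child n μ hs, add_sub_add_left_eq_sub, ← smul_sub,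
        norm_smul]
      have := Th_diff_le n h4 ((4 : ℝ) • y - ctr s)
      have h2 := T_four_le hμ
      rw [Real.norm_of_nonneg (by norm_num)]
      have h3 : T (4 * μ) * (1 / 2) ^ n ≤ (2 * T μ) * (1 / 2) ^ n := by gcongr
      calc (1 / 4 : ℝ) * ‖Th (n + 1) (4 * μ) ((4 : ℝ) • y - ctr s) -
              Th n (4 * μ) ((4 : ℝ) • y - ctr s)‖ ≤ 1 / 4 * ((2 * T μ) * (1 / 2) ^ n) := by
            gcongr; exact this.trans h3
        _ = T μ * (1 / 2) ^ (n + 1) := by ring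
    · push Not at h
      rw [Th_succ_frame (n + 1) μ h, Th_succ_frame n μ h, sub_self, norm_zero]
      have := T_pos hμ
      positivity

/-- the limit -/
noncomputable def F (μ : ℝ) (y : X) : X := limUnder atTop (fun n => Phi n μ y)

lemma Phi_diff_le (n : ℕ) {μ : ℝ} (hμ : 0 ≤ μ) (y : X) :
    dist (Phi n μ y) (Phi (n + 1) μ y) ≤ T μ * (1 / 2) ^ n := by
  rw [dist_comm, dist_eq_norm, Phi, Phi, add_sub_add_left_eq_sub]
  exact Th_diff_le n hμ y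

lemma tendsto_Phi {μ : ℝ} (hμ : 0 ≤ μ) (y : X) :
    Tendsto (fun n => Phi n μ y) atTop (𝓝 (F μ y)) := by
  have h : CauchySeq (fun n => Phi n μ y) :=
    cauchySeq_of_le_geometric (1 / 2) (T μ) (by norm_num) (fun n => Phi_diff_le n hμ y)
  exact h.tendsto_limUnder

lemma dist_Phi_F (n : ℕ) {μ : ℝ} (hμ : 0 ≤ μ) (y : X) :
    dist (Phi n μ y) (F μ y) ≤ 2 * T μ * (1 / 2) ^ n := by
  have := dist_le_of_le_geometric_of_tendsto (1 / 2) (T μ) (by norm_num)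
    (fun n => Phi_diff_le n hμ y) (tendsto_Phi hμ y) n
  refine this.trans (le_of_eq ?_)
  norm_num; ring

lemma F_none {μ : ℝ} (hμ : 0 ≤ μ) {y : X} (h : ∀ s, 1 ≤ ‖(4 : ℝ) • y - ctr s‖) :
    F μ y = gg μ ‖y‖ • y := by
  have h1 := (tendsto_add_atTop_iff_nat 1).2 (tendsto_Phi hμ y)
  simp only [Phi_succ_none _ μ h] at h1
  exact tendsto_nhds_unique h1 tendsto_const_nhds |>.symm ▸ rfl

lemma F_child {μ : ℝ} (hμ : 0 ≤ μ) {y : X} {s : Bool × Bool} (h : ‖(4 : ℝ) • y - ctr s‖ < 1) :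
    F μ y = (1 / 4 : ℝ) • (T (4 * μ) • ctr s + F (4 * μ) ((4 : ℝ) • y - ctr s)) := by
  have h1 := (tendsto_add_atTop_iff_nat 1).2 (tendsto_Phi hμ y)
  simp only [Phi_succ_child _ μ h] at h1
  have h2 := tendsto_Phi (μ := 4 * μ) (by linarith) ((4 : ℝ) • y - ctr s)
  exact tendsto_nhds_unique h1 ((h2.const_add _).const_smul _)

lemma F_frame {μ : ℝ} (hμ : 0 ≤ μ) {y : X} (h : 1 / 2 ≤ ‖y‖) :
    F μ y = gg μ ‖y‖ • y := F_none hμ (fun _ => child_ge h)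

lemma norm_F_frame {μ : ℝ} (hμ : 0 ≤ μ) {y : X} (h : 1 / 2 ≤ ‖y‖) (h' : ‖y‖ ≤ 1) :
    ‖F μ y‖ = √(‖y‖ ^ 2 + μ) := by
  rw [F_frame hμ h, gg_of_mem h h', norm_smul, Real.norm_of_nonneg (by positivity),
    div_mul_cancel₀]
  linarith

end H777R2.Inc
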