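import Pool.Agent.H777R2.IncGeom

/-! Injectivity, continuity and image of the self-similar map. -/

open Set Filter Topology MeasureTheory

namespace H777R2.Inc

lemma T_four_half_lt {μ : ℝ} (hμ : 0 ≤ μ) : T (4 * μ) / 2 < T μ := by
  have h1 := T_sq hμ
  have h2 := T_sq (μ := 4 * μ) (by linarith)
  have h3 := T_pos hμ
  have h4 := T_pos (μ := 4 * μ) (by linarith)
  by_contra h
  push Not at h
  nlinarith

lemma norm_child_le {a c : ℝ} {s : Bool × Bool} {w : X} (ha : 0 ≤ a) (hw : ‖w‖ ≤ c) :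
    ‖(1 / 4 : ℝ) • (a • ctr s + w)‖ ≤ (a + c) / 4 := by
  rw [norm_smul, Real.norm_of_nonneg (by norm_num)]
  have := norm_add_le (a • ctr s) w
  rw [norm_smul, norm_ctr, Real.norm_of_nonneg ha] at this
  linarith

lemma norm_child_lt {a c : ℝ} {s : Bool × Bool} {w : X} (ha : 0 ≤ a) (hw : ‖w‖ < c) :
    ‖(1 / 4 : ℝ) • (a • ctr s + w)‖ < (a + c) / 4 := by
  rw [norm_smul, Real.norm_of_nonneg (by norm_num)]
  have := norm_add_le (a • ctr s) w
  rw [norm_smul, norm_ctr, Real.norm_of_nonneg ha] at this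
  linarith

lemma norm_Phi_le : ∀ (n : ℕ) {μ : ℝ}, 0 ≤ μ → ∀ {y : X}, ‖y‖ ≤ 1 → ‖Phi n μ y‖ ≤ T μ
  | 0, μ, hμ, y, hy => by
    have : Phi 0 μ y = T μ • y := by simp [Phi, Th]
    rw [this, norm_smul, Real.norm_of_nonneg (T_pos hμ).le]
    have := T_pos hμ
    nlinarith
  | n + 1, μ, hμ, y, hy => by
    by_cases h : ∃ s, ‖(4 : ℝ) • y - ctr s‖ < 1
    · obtain ⟨s, hs⟩ := h
      rw [Phi_succ_child n μ hs]
      have h4 : 0 ≤ 4 * μ := by linarith
      have h1 := norm_child_le (s := s) (T_pos h4).le (norm_Phi_le n h4 hs.le)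
      have := T_four_half_lt hμ
      linarith
    · push Not at h
      rw [Phi_succ_none n μ h, norm_smul, Real.norm_of_nonneg (gg_pos hμ _).le]
      exact gg_mul_le hμ (norm_nonneg y) hy

lemma norm_F_le {μ : ℝ} (hμ : 0 ≤ μ) {y : X} (hy : ‖y‖ ≤ 1) : ‖F μ y‖ ≤ T μ :=
  le_of_tendsto (tendsto_Phi hμ y).norm (Eventually.of_forall fun n => norm_Phi_le n hμ hy)

lemma none_of_half {μ : ℝ} (hμ : 0 ≤ μ) {y : X} (h : ∀ s, 1 ≤ ‖(4 : ℝ) • y - ctr s‖)
    (hy : ‖y‖ ≤ 1 / 2) : F μ y = T (4 * μ) • y := by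
  rw [F_none hμ h, gg_of_le hy]

lemma norm_F_lt {μ : ℝ} (hμ : 0 ≤ μ) {y : X} (hy : ‖y‖ < 1) : ‖F μ y‖ < T μ := by
  have h4 : 0 ≤ 4 * μ := by linarith
  rcases le_or_gt (1 / 2) ‖y‖ with h | h
  · rw [norm_F_frame hμ h hy.le]
    apply Real.sqrt_lt_sqrt (by positivity)
    have := norm_nonneg y
    nlinarith
  · by_cases h' : ∃ s, ‖(4 : ℝ) • y - ctr s‖ < 1
    · obtain ⟨s, hs⟩ := h'
      rw [F_child hμ hs]
      have h1 := norm_child_le (s := s) (T_pos h4).le (norm_F_le h4 hs.le)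
      have := T_four_half_lt hμ
      linarith
    · push Not at h'
      rw [none_of_half hμ h' h.le, norm_smul, Real.norm_of_nonneg (T_pos h4).le]
      have := T_four_half_lt hμ
      have := T_pos h4
      nlinarith

lemma norm_F_half {μ : ℝ} (hμ : 0 ≤ μ) {y : X} (hy : ‖y‖ < 1 / 2) : ‖F μ y‖ < T (4 * μ) / 2 := by
  have h4 : 0 ≤ 4 * μ := by linarith
  by_cases h' : ∃ s, ‖(4 : ℝ) • y - ctr s‖ < 1
  · obtain ⟨s, hs⟩ := h'
    rw [F_child hμ hs]
    have h1 := norm_child_lt (s := s) (T_pos h4).le (norm_F_lt h4 hs)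
    linarith
  · push Not at h'
    rw [none_of_half hμ h' hy.le, norm_smul, Real.norm_of_nonneg (T_pos h4).le]
    have := T_pos h4
    nlinarith

lemma norm_F_frame_ge {μ : ℝ} (hμ : 0 ≤ μ) {y : X} (h : 1 / 2 ≤ ‖y‖) (h1 : ‖y‖ ≤ 1) :
    T (4 * μ) / 2 ≤ ‖F μ y‖ := by
  rw [norm_F_frame hμ h h1]
  apply Real.le_sqrt_of_sq_le
  rw [div_pow, T_sq (by linarith)]
  nlinarith

lemma sg_mul_sg (a : Bool) : sg a * sg a = 1 := by cases a <;> simp [sg]

lemma sg_pos_unique {a b : Bool} {t : ℝ} (ha : 0 < sg a * t) (hb : 0 < sg b * t) : a = b := by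
  cases a <;> cases b <;> simp [sg] at * <;> linarith

lemma child_sign {μ : ℝ} (hμ : 0 ≤ μ) {y : X} {s : Bool × Bool}
    (h : ‖(4 : ℝ) • y - ctr s‖ < 1) : 0 < sg s.1 * (F μ y).1 ∧ 0 < sg s.2 * (F μ y).2 := by
  have h4 : 0 ≤ 4 * μ := by linarith
  have h1 := norm_F_lt h4 h
  rw [F_child hμ h]
  rw [norm_lt_iff, abs_lt, abs_lt] at h1
  obtain ⟨⟨h1, h2⟩, h3, h5⟩ := h1
  have := T_pos h4
  generalize F (4 * μ) ((4 : ℝ) • y - ctr s) = w at *
  constructor
  · cases hs : s.1 <;> simp [ctr, sg, hs] <;> linarith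
  · cases hs : s.2 <;> simp [ctr, sg, hs] <;> linarith

lemma child_ctr_eq {μ : ℝ} (hμ : 0 ≤ μ) {y z : X} {s : Bool × Bool}
    (h : ‖(4 : ℝ) • y - ctr s‖ < 1) (hz : ‖z‖ < 1 / 2) (he : F μ y = F μ z) :
    ‖(4 : ℝ) • z - ctr s‖ < 1 := by
  have h4 : 0 ≤ 4 * μ := by linarith
  have h1 := child_sign hμ h
  by_cases h' : ∃ s, ‖(4 : ℝ) • z - ctr s‖ < 1
  · obtain ⟨s', hs'⟩ := h'
    have h2 := child_sign hμ hs'
    rw [← he] at h2
    have : s = s' := Prod.ext (sg_pos_unique h1.1 h2.1) (sg_pos_unique h1.2 h2.2)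
    rw [this]; exact hs'
  · exfalso
    have h2 : F μ z = T (4 * μ) • z := by
      push Not at h'
      exact none_of_half hμ h' hz.le
    have h3 : z.1 ≠ 0 := by
      intro h0
      rw [he, h2] at h1
      simp [h0] at h1
    have h5 : z.2 ≠ 0 := by
      intro h0
      rw [he, h2] at h1
      simp [h0] at h1
    exact h' (exists_child hz h3 h5)

lemma inj_aux : ∀ (n : ℕ) {μ : ℝ}, 0 ≤ μ → ∀ {y z : X}, ‖y‖ ≤ 1 → ‖z‖ ≤ 1 → F μ y = F μ z →
    ‖y - z‖ ≤ 2 * (1 / 4) ^ n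
  | 0, μ, hμ, y, z, hy, hz, h => by
    have := norm_sub_le y z
    simp; linarith
  | n + 1, μ, hμ, y, z, hy, hz, h => by
    have h4 : 0 ≤ 4 * μ := by linarith
    have triv : y = z → ‖y - z‖ ≤ 2 * (1 / 4) ^ (n + 1) := by
      intro h; rw [h, sub_self, norm_zero]; positivity
    have key : ∀ {y z : X}, ‖y‖ ≤ 1 → ‖z‖ ≤ 1 → F μ y = F μ z → 1 / 2 ≤ ‖y‖ → 1 / 2 ≤ ‖z‖ := by
      intro y z hy hz h h1
      by_contra hc
      push Not at hc
      have h2 := norm_F_half hμ hc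
      have h3 := norm_F_frame_ge hμ h1 hy
      rw [h] at h3
      linarith
    rcases le_or_gt (1 / 2) ‖y‖ with h1 | h1
    · have h2 := key hy hz h h1
      apply triv
      have h3 := norm_F_frame hμ h1 hy
      have h5 := norm_F_frame hμ h2 hz
      rw [h, h5] at h3
      have h6 : ‖y‖ = ‖z‖ := by
        rw [Real.sqrt_inj (by positivity) (by positivity)] at h3
        nlinarith [norm_nonneg y, norm_nonneg z]
      rw [F_frame hμ h1, F_frame hμ h2, h6] at h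
      exact smul_right_injective _ (gg_pos hμ _).ne' h
    · have h2 : ‖z‖ < 1 / 2 := by
        by_contra hc
        push Not at hc
        have := key hz hy h.symm hc
        linarith
      by_cases h' : ∃ s, ‖(4 : ℝ) • y - ctr s‖ < 1
      · obtain ⟨s, hs⟩ := h'
        have hs' := child_ctr_eq hμ hs h2 h
        rw [F_child hμ hs, F_child hμ hs'] at h
        have h3 : F (4 * μ) ((4 : ℝ) • y - ctr s) = F (4 * μ) ((4 : ℝ) • z - ctr s) := by
          have := smul_right_injective X (by norm_num : (1 / 4 : ℝ) ≠ 0) h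
          exact add_left_cancel this
        have h5 := inj_aux n h4 hs.le hs'.le h3
        have h6 : (4 : ℝ) • y - ctr s - ((4 : ℝ) • z - ctr s) = (4 : ℝ) • (y - z) := by module
        rw [h6, norm_smul, Real.norm_of_nonneg (by norm_num)] at h5
        rw [pow_succ]; linarith
      · by_cases h'' : ∃ s, ‖(4 : ℝ) • z - ctr s‖ < 1
        · obtain ⟨s, hs⟩ := h''
          exact absurd ⟨s, child_ctr_eq hμ hs h1 h.symm⟩ h'
        · push Not at h' h''
          rw [none_of_half hμ h' h1.le, none_of_half hμ h'' h2.le] at h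
          exact triv (smul_right_injective _ (T_pos h4).ne' h)

lemma F_injOn {μ : ℝ} (hμ : 0 ≤ μ) : InjOn (F μ) (Metric.closedBall (0 : X) 1) := by
  intro y hy z hz h
  rw [mem_closedBall_zero_iff] at hy hz
  have h1 : ∀ n : ℕ, ‖y - z‖ ≤ 2 * (1 / 4) ^ n := fun n => inj_aux n hμ hy hz h
  have h2 : Tendsto (fun n : ℕ => (2 : ℝ) * (1 / 4) ^ n) atTop (𝓝 (2 * 0)) :=
    (tendsto_pow_atTop_nhds_zero_of_lt_one (by norm_num) (by norm_num)).const_mul 2
  rw [mul_zero] at h2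
  have h3 := ge_of_tendsto' h2 h1
  exact sub_eq_zero.1 (norm_le_zero_iff.1 h3)

/-! ### Lipschitz bounds -/

lemma abs_sqrt_sub_le {μ a b : ℝ} (hμ : 0 ≤ μ) (ha : 0 < a) (hb : 0 < b) :
    |√(a ^ 2 + μ) - √(b ^ 2 + μ)| ≤ |a - b| := by
  have hA : √(a ^ 2 + μ) ^ 2 = a ^ 2 + μ := Real.sq_sqrt (by positivity)
  have hB : √(b ^ 2 + μ) ^ 2 = b ^ 2 + μ := Real.sq_sqrt (by positivity)
  have hA' : a ≤ √(a ^ 2 + μ) := Real.le_sqrt_of_sq_le (by linarith)
  have hB' : b ≤ √(b ^ 2 + μ) := Real.le_sqrt_of_sq_le (by linarith)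
  have h1 : (√(a ^ 2 + μ) - √(b ^ 2 + μ)) * (√(a ^ 2 + μ) + √(b ^ 2 + μ)) = (a - b) * (a + b) := by
    nlinarith
  have h2 : |√(a ^ 2 + μ) - √(b ^ 2 + μ)| * (√(a ^ 2 + μ) + √(b ^ 2 + μ)) = |a - b| * (a + b) := by
    rw [← abs_of_nonneg (by linarith : 0 ≤ √(a ^ 2 + μ) + √(b ^ 2 + μ)), ← abs_mul, h1, abs_mul,
      abs_of_nonneg (by linarith : 0 ≤ a + b)]
  by_contra hc
  push Not at hc
  have h3 : |a - b| * (a + b) < |√(a ^ 2 + μ) - √(b ^ 2 + μ)| * (a + b) := by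
    apply mul_lt_mul_of_pos_right hc (by linarith)
  have h4 : |√(a ^ 2 + μ) - √(b ^ 2 + μ)| * (a + b) ≤
      |√(a ^ 2 + μ) - √(b ^ 2 + μ)| * (√(a ^ 2 + μ) + √(b ^ 2 + μ)) := by
    apply mul_le_mul_of_nonneg_left (by linarith) (abs_nonneg _)
  linarith

lemma abs_cl_sub_le (r t : ℝ) : |cl r - cl t| ≤ |r - t| := by
  unfold cl
  refine (abs_max_sub_max_le_max _ _ _ _).trans ?_
  rw [sub_self, abs_zero]
  apply max_le (abs_nonneg _)
  refine (abs_min_sub_min_le_max _ _ _ _).trans ?_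
  rw [sub_self, abs_zero]
  exact max_le le_rfl (abs_nonneg _)

lemma abs_gg_sub_le {μ : ℝ} (hμ : 0 ≤ μ) (r t : ℝ) :
    |gg μ r - gg μ t| ≤ 8 * T μ * |r - t| := by
  have ha := cl_pos r
  have hb := cl_pos t
  have h1 := abs_sqrt_sub_le hμ ha hb
  have h2 := abs_cl_sub_le r t
  have hB : √(cl t ^ 2 + μ) ≤ T μ := sqrt_le_T (cl_le t) hb.le
  have hB0 : 0 ≤ √(cl t ^ 2 + μ) := Real.sqrt_nonneg _
  have h3 : gg μ r - gg μ t = ((√(cl r ^ 2 + μ) - √(cl t ^ 2 + μ)) * cl t +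
      √(cl t ^ 2 + μ) * (cl t - cl r)) / (cl r * cl t) := by
    unfold gg; field_simp; ring
  rw [h3, abs_div, abs_of_pos (mul_pos ha hb), div_le_iff₀ (mul_pos ha hb)]
  have h4 : |(√(cl r ^ 2 + μ) - √(cl t ^ 2 + μ)) * cl t + √(cl t ^ 2 + μ) * (cl t - cl r)| ≤
      |cl r - cl t| * cl t + T μ * |cl r - cl t| := by
    refine (abs_add_le _ _).trans ?_
    rw [abs_mul, abs_mul, abs_of_pos hb, abs_of_nonneg hB0, abs_sub_comm (cl t) (cl r)]
    gcongr
  have hT := one_le_T hμ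
  have h5 : |cl r - cl t| * cl t + T μ * |cl r - cl t| ≤ 2 * T μ * |r - t| := by
    have := cl_le t
    have := abs_nonneg (cl r - cl t)
    nlinarith
  have h6 : 1 / 4 ≤ cl r * cl t := by
    have := cl_ge r; have := cl_ge t; nlinarith
  have h7 : 2 * T μ * |r - t| ≤ 8 * T μ * |r - t| * (cl r * cl t) := by
    have := abs_nonneg (r - t)
    have : 0 ≤ 8 * T μ * |r - t| := by positivity
    nlinarith
  linarith

lemma rho_lip_aux {μ : ℝ} (hμ : 0 ≤ μ) {y z : X} (h : ‖z‖ ≤ ‖y‖) :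
    ‖rho μ y - rho μ z‖ ≤ 10 * T μ * ‖y - z‖ := by
  have hT := T_pos hμ
  rcases le_total 1 ‖z‖ with hz | hz
  · rw [rho_of_ge hz, rho_of_ge (hz.trans h), sub_self, norm_zero]
    positivity
  · have h1 : rho μ y - rho μ z = (gg μ ‖y‖ - T μ) • (y - z) + (gg μ ‖y‖ - gg μ ‖z‖) • z := by
      unfold rho; module
    have h2 := abs_gg_sub_le hμ ‖y‖ ‖z‖
    have h3 : |‖y‖ - ‖z‖| ≤ ‖y - z‖ := abs_norm_sub_norm_le y z
    have h4 : |gg μ ‖y‖ - T μ| ≤ 2 * T μ := by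
      rw [abs_le]
      constructor
      · have := T_le_gg hμ ‖y‖; linarith
      · unfold gg
        have ha := cl_pos ‖y‖
        have h5 : √(cl ‖y‖ ^ 2 + μ) ≤ T μ := sqrt_le_T (cl_le _) ha.le
        have h6 : √(cl ‖y‖ ^ 2 + μ) / cl ‖y‖ ≤ 2 * T μ := by
          rw [div_le_iff₀ ha]
          have := cl_ge ‖y‖
          nlinarith
        linarith
    rw [h1]
    refine (norm_add_le _ _).trans ?_
    rw [norm_smul, norm_smul, Real.norm_eq_abs, Real.norm_eq_abs]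
    have h5 : |gg μ ‖y‖ - gg μ ‖z‖| * ‖z‖ ≤ 8 * T μ * ‖y - z‖ := by
      have h6 : |gg μ ‖y‖ - gg μ ‖z‖| * ‖z‖ ≤ |gg μ ‖y‖ - gg μ ‖z‖| * 1 := by gcongr
      have h7 : 8 * T μ * |‖y‖ - ‖z‖| ≤ 8 * T μ * ‖y - z‖ := by gcongr
      linarith
    have h6 : |gg μ ‖y‖ - T μ| * ‖y - z‖ ≤ 2 * T μ * ‖y - z‖ := by gcongr
    linarith

lemma rho_lip {μ : ℝ} (hμ : 0 ≤ μ) (y z : X) :
    ‖rho μ y - rho μ z‖ ≤ 10 * T μ * ‖y - z‖ := by
  rcases le_total ‖z‖ ‖y‖ with h | h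
  · exact rho_lip_aux hμ h
  · rw [norm_sub_rev, norm_sub_rev y z]; exact rho_lip_aux hμ h

lemma Th_lip : ∀ (n : ℕ) {μ : ℝ}, 0 ≤ μ → ∃ K : ℝ, 0 ≤ K ∧
    ∀ y z : X, ‖Th n μ y - Th n μ z‖ ≤ K * ‖y - z‖
  | 0, μ, hμ => ⟨0, le_rfl, fun y z => by simp [Th]⟩
  | n + 1, μ, hμ => by
    obtain ⟨K, hK, h⟩ := Th_lip n (μ := 4 * μ) (by linarith)
    have hT := T_pos hμ
    refine ⟨10 * T μ + 4 * K, by positivity, fun y z => ?_⟩
    rw [Th, Th]
    have h1 : rho μ y + (1 / 4 : ℝ) • ∑ s : Bool × Bool, Th n (4 * μ) ((4 : ℝ) • y - ctr s) -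
        (rho μ z + (1 / 4 : ℝ) • ∑ s : Bool × Bool, Th n (4 * μ) ((4 : ℝ) • z - ctr s)) =
        (rho μ y - rho μ z) + (1 / 4 : ℝ) • ∑ s : Bool × Bool,
          (Th n (4 * μ) ((4 : ℝ) • y - ctr s) - Th n (4 * μ) ((4 : ℝ) • z - ctr s)) := by
      rw [Finset.sum_sub_distrib]; module
    rw [h1]
    refine (norm_add_le _ _).trans ?_
    rw [norm_smul, Real.norm_of_nonneg (by norm_num)]
    have h2 : ‖∑ s : Bool × Bool,
          (Th n (4 * μ) ((4 : ℝ) • y - ctr s) - Th n (4 * μ) ((4 : ℝ) • z - ctr s))‖ ≤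
          4 * (K * (4 * ‖y - z‖)) := by
      have h7 : (4 : ℝ) * (K * (4 * ‖y - z‖)) = ∑ s : Bool × Bool, K * (4 * ‖y - z‖) := by
        simp only [Finset.sum_const, Finset.card_univ, Fintype.card_prod, Fintype.card_bool]
        norm_num
      rw [h7]
      refine norm_sum_le_of_le _ fun s _ => ?_
      refine (h _ _).trans ?_
      have h6 : (4 : ℝ) • y - ctr s - ((4 : ℝ) • z - ctr s) = (4 : ℝ) • (y - z) := by module
      rw [h6, norm_smul, Real.norm_of_nonneg (by norm_num)]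
    have h3 := rho_lip hμ y z
    linarith

lemma Phi_lip (n : ℕ) {μ : ℝ} (hμ : 0 ≤ μ) : ∃ K : NNReal, LipschitzWith K (Phi n μ) := by
  obtain ⟨K, hK, h⟩ := Th_lip n hμ
  have hT := T_pos hμ
  refine ⟨Real.toNNReal (T μ + K), LipschitzWith.of_dist_le_mul fun y z => ?_⟩
  rw [dist_eq_norm, dist_eq_norm, Real.coe_toNNReal _ (by positivity)]
  have h1 : Phi n μ y - Phi n μ z = T μ • (y - z) + (Th n μ y - Th n μ z) := by
    unfold Phi; module
  rw [h1]
  refine (norm_add_le _ _).trans ?_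
  rw [norm_smul, Real.norm_of_nonneg hT.le]
  have := h y z
  linarith

lemma continuous_F {μ : ℝ} (hμ : 0 ≤ μ) : Continuous (F μ) := by
  have h : TendstoUniformly (fun n => Phi n μ) (F μ) atTop := by
    rw [Metric.tendstoUniformly_iff]
    intro ε hε
    have h2 : Tendsto (fun n : ℕ => (2 * T μ) * (1 / 2) ^ n) atTop (𝓝 (2 * T μ * 0)) :=
      (tendsto_pow_atTop_nhds_zero_of_lt_one (by norm_num) (by norm_num)).const_mul _
    rw [mul_zero] at h2
    filter_upwards [h2.eventually (gt_mem_nhds hε)] with n hn y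
    rw [dist_comm]
    exact (dist_Phi_F n hμ y).trans_lt hn
  refine h.continuous (Frequently.of_forall fun n => ?_)
  obtain ⟨K, hK⟩ := Phi_lip n hμ
  exact hK.continuous

/-! ### image -/

lemma Phi_surj : ∀ (n : ℕ) {μ : ℝ}, 0 ≤ μ → ∀ {w : X}, ‖w‖ ≤ T μ → ∃ y : X, ‖y‖ ≤ 1 ∧
    Phi n μ y = w
  | 0, μ, hμ, w, hw => by
    have hT := T_pos hμ
    refine ⟨(T μ)⁻¹ • w, ?_, ?_⟩
    · rw [norm_smul, norm_inv, Real.norm_of_nonneg hT.le, inv_mul_le_iff₀ hT]
      linarith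
    · simp only [Phi, Th, add_zero]
      rw [smul_smul, mul_inv_cancel₀ hT.ne', one_smul]
  | n + 1, μ, hμ, w, hw => by
    have h4 : 0 ≤ 4 * μ := by linarith
    have hT4 := T_pos h4
    have hT4s := T_sq h4
    have hTs := T_sq hμ
    have hT := T_pos hμ
    rcases le_or_gt (T (4 * μ) / 2) ‖w‖ with h | h
    · have hw0 : 0 < ‖w‖ := by linarith
      have h0 : 1 / 4 ≤ ‖w‖ ^ 2 - μ := by nlinarith
      have h0' : ‖w‖ ^ 2 - μ ≤ 1 := by nlinarith
      have hr : 1 / 2 ≤ √(‖w‖ ^ 2 - μ) := by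
        apply Real.le_sqrt_of_sq_le; linarith
      have hr' : √(‖w‖ ^ 2 - μ) ≤ 1 := by
        rw [Real.sqrt_le_one]; exact h0'
      set r := √(‖w‖ ^ 2 - μ) with hrdef
      have hrs : r ^ 2 = ‖w‖ ^ 2 - μ := Real.sq_sqrt (by linarith)
      have hn : ‖(r / ‖w‖) • w‖ = r := by
        rw [norm_smul, Real.norm_of_nonneg (by positivity), div_mul_cancel₀ _ hw0.ne']
      refine ⟨(r / ‖w‖) • w, by rw [hn]; exact hr', ?_⟩
      rw [Phi_succ_none n μ (fun s => child_ge (by rw [hn]; exact hr)), hn, gg_of_mem hr hr', hrs,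
        sub_add_cancel, Real.sqrt_sq hw0.le, smul_smul, div_mul_div_cancel₀ (by linarith),
        div_self hw0.ne', one_smul]
    · have key : ∀ y : X, ‖y‖ < 1 / 2 → (y.1 = 0 ∨ y.2 = 0) →
          Phi (n + 1) μ y = T (4 * μ) • y := by
        intro y hy h0
        rw [Phi_succ_none n μ, gg_of_le hy.le]
        intro s
        rcases h0 with h0 | h0
        · calc (1:ℝ) = |(4 • y - ctr s).1| := by
                simp [ctr, h0, abs_sg]
            _ ≤ _ := by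
                have := norm_fst_le ((4 : ℝ) • y - ctr s)
                simpa [ctr, h0, abs_sg] using this
        · calc (1:ℝ) = |(4 • y - ctr s).2| := by
                simp [ctr, h0, abs_sg]
            _ ≤ _ := by
                have := norm_snd_le ((4 : ℝ) • y - ctr s)
                simpa [ctr, h0, abs_sg] using this
      by_cases h0 : w.1 = 0 ∨ w.2 = 0
      · refine ⟨(T (4 * μ))⁻¹ • w, ?_, ?_⟩
        · rw [norm_smul, norm_inv, Real.norm_of_nonneg hT4.le, inv_mul_le_iff₀ hT4]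
          linarith
        · rw [key, smul_smul, mul_inv_cancel₀ hT4.ne', one_smul]
          · rw [norm_smul, norm_inv, Real.norm_of_nonneg hT4.le, inv_mul_lt_iff₀ hT4]
            linarith
          · rcases h0 with h0 | h0
            · left; simp [h0]
            · right; simp [h0]
      · push Not at h0
        have hex : ∀ t : ℝ, |t| < T (4 * μ) / 2 → t ≠ 0 →
            ∃ a, |4 * t - T (4 * μ) * sg a| < T (4 * μ) := by
          intro t ht ht0
          rw [abs_lt] at ht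
          rcases lt_or_gt_of_ne ht0 with h1 | h1
          · refine ⟨false, ?_⟩
            simp only [sg, Bool.false_eq_true, if_false]; rw [abs_lt]; constructor <;> linarith
          · refine ⟨true, ?_⟩
            simp only [sg, if_true]; rw [abs_lt]; constructor <;> linarith
        rw [norm_lt_iff] at h
        obtain ⟨a, ha⟩ := hex _ h.1 h0.1
        obtain ⟨b, hb⟩ := hex _ h.2 h0.2
        have hw' : ‖(4 : ℝ) • w - T (4 * μ) • ctr (a, b)‖ < T (4 * μ) := by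
          rw [norm_lt_iff]; simpa [ctr] using ⟨ha, hb⟩
        obtain ⟨z, hz, hz'⟩ := Phi_surj n h4 hw'.le
        have hz1 : ‖z‖ < 1 := by
          rcases hz.lt_or_eq with h1 | h1
          · exact h1
          · exfalso
            rw [Phi_of_ge n h1.ge] at hz'
            rw [← hz', norm_smul, h1, Real.norm_of_nonneg hT4.le] at hw'
            linarith
        have he : (4 : ℝ) • ((1 / 4 : ℝ) • (z + ctr (a, b))) - ctr (a, b) = z := by module
        refine ⟨(1 / 4 : ℝ) • (z + ctr (a, b)), ?_, ?_⟩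
        · have := child_norm (y := (1 / 4 : ℝ) • (z + ctr (a, b))) (s := (a, b)) (by rw [he]; exact hz1)
          linarith
        · rw [Phi_succ_child n μ (s := (a, b)) (by rw [he]; exact hz1), he, hz']
          module

lemma F_surj {μ : ℝ} (hμ : 0 ≤ μ) {w : X} (hw : ‖w‖ ≤ T μ) : ∃ y : X, ‖y‖ ≤ 1 ∧ F μ y = w := by
  have hcl : IsClosed (F μ '' Metric.closedBall (0 : X) 1) :=
    ((isCompact_closedBall (0 : X) 1).image (continuous_F hμ)).isClosed
  have h1 : w ∈ closure (F μ '' Metric.closedBall (0 : X) 1) := by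
    rw [Metric.mem_closure_iff]
    intro ε hε
    have h2 : Tendsto (fun n : ℕ => (2 * T μ) * (1 / 2) ^ n) atTop (𝓝 (2 * T μ * 0)) :=
      (tendsto_pow_atTop_nhds_zero_of_lt_one (by norm_num) (by norm_num)).const_mul _
    rw [mul_zero] at h2
    obtain ⟨n, hn⟩ := (h2.eventually (gt_mem_nhds hε)).exists
    obtain ⟨y, hy, hy'⟩ := Phi_surj n hμ hw
    refine ⟨F μ y, ⟨y, by simpa using hy, rfl⟩, ?_⟩
    rw [← hy']
    exact (dist_Phi_F n hμ y).trans_lt hn
  rw [hcl.closure_eq] at h1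
  obtain ⟨y, hy, hy'⟩ := h1
  exact ⟨y, by simpa using hy, hy'⟩

lemma image_F {μ : ℝ} (hμ : 0 ≤ μ) : F μ '' Metric.ball (0 : X) 1 = Metric.ball 0 (T μ) := by
  ext w
  simp only [mem_image, mem_ball_zero_iff]
  constructor
  · rintro ⟨y, hy, rfl⟩
    exact norm_F_lt hμ hy
  · intro hw
    obtain ⟨y, hy, hy'⟩ := F_surj hμ hw.le
    refine ⟨y, ?_, hy'⟩
    rcases hy.lt_or_eq with h | h
    · exact h
    · exfalso
      have h1 := norm_F_frame hμ (y := y) (by linarith) hy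
      rw [hy', h] at h1
      unfold T at hw
      rw [h1] at hw
      norm_num at hw

end H777R2.Inc
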