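import Pool.Agent.H777R2.IncDiff

/-! Integrability of the derivative and weak differentiability of the self-similar map. -/

open Set Filter Topology MeasureTheory Metric
open scoped ContDiff

namespace H777R2.Inc

lemma norm_fderiv_Phi_zero {μ : ℝ} (hμ : 0 ≤ μ) (y : X) :
    ‖fderiv ℝ (Phi 0 μ) y‖ ≤ T μ := by
  have h : (Phi 0 μ) = fun y => T μ • y := by
    ext y <;> simp [Phi, Th]
  rw [h]
  have h1 : LipschitzWith (Real.toNNReal (T μ)) (fun y : X => T μ • y) := by
    apply LipschitzWith.of_dist_le_mul fun y z => ?_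
    rw [dist_smul₀, Real.norm_of_nonneg (T_pos hμ).le, Real.coe_toNNReal _ (T_pos hμ).le]
  have h2 := norm_fderiv_le_of_lipschitz ℝ h1 (x₀ := y)
  rwa [Real.coe_toNNReal _ (T_pos hμ).le] at h2

/-- constant in the `p`-th power bound -/
noncomputable def Kp (p : ℝ) : ℝ := 4 * 11 ^ p / (1 - 2 ^ (p - 2))

lemma two_rpow_lt {p : ℝ} (hp : p < 2) : (2 : ℝ) ^ (p - 2) < 1 :=
  Real.rpow_lt_one_of_one_lt_of_neg (by norm_num) (by linarith)

lemma Kp_pos {p : ℝ} (hp : p < 2) : 0 < Kp p := by
  have := two_rpow_lt hp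
  unfold Kp
  apply div_pos (by positivity) (by linarith)

lemma Kp_eq {p : ℝ} (hp : p < 2) : 4 * 11 ^ p + 1 / 4 * (Kp p * 2 ^ p) = Kp p := by
  have h := two_rpow_lt hp
  have h1 : (2 : ℝ) ^ p = 4 * 2 ^ (p - 2) := by
    rw [Real.rpow_sub (by norm_num)]; norm_num; ring
  rw [h1]
  unfold Kp
  have : (1 : ℝ) - 2 ^ (p - 2) ≠ 0 := by linarith
  field_simp
  ring

lemma Kp_ge {p : ℝ} (hp1 : 1 ≤ p) (hp : p < 2) : 4 ≤ Kp p := by
  have h1 := Kp_eq hp
  have h2 : (1 : ℝ) ≤ 11 ^ p := Real.one_le_rpow (by norm_num) (by linarith)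
  have h3 : 0 ≤ 1 / 4 * (Kp p * 2 ^ p) := by
    have := Kp_pos hp; positivity
  linarith

lemma lint_Phi_le {p : ℝ} (hp1 : 1 ≤ p) (hp : p < 2) : ∀ (n : ℕ) {μ : ℝ}, 0 ≤ μ →
    ∫⁻ y in ball (0 : X) 1, ‖fderiv ℝ (Phi n μ) y‖ₑ ^ p ≤ ENNReal.ofReal (Kp p * T μ ^ p)
  | 0, μ, hμ => by
    have hT := T_pos hμ
    calc ∫⁻ y in ball (0 : X) 1, ‖fderiv ℝ (Phi 0 μ) y‖ₑ ^ p
        ≤ ∫⁻ y in ball (0 : X) 1, ENNReal.ofReal (T μ ^ p) := by
          apply lintegral_mono fun y => ?_
          rw [← ENNReal.ofReal_rpow_of_pos hT]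
          gcongr
          rw [← ofReal_norm]
          exact ENNReal.ofReal_le_ofReal (norm_fderiv_Phi_zero hμ y)
      _ = ENNReal.ofReal (T μ ^ p) * 4 := by rw [setLIntegral_const, volume_ball_X]
      _ = ENNReal.ofReal (4 * T μ ^ p) := by
          rw [mul_comm, ENNReal.ofReal_mul (by norm_num)]; norm_num
      _ ≤ ENNReal.ofReal (Kp p * T μ ^ p) := by
          apply ENNReal.ofReal_le_ofReal
          have := Kp_ge hp1 hp
          gcongr
  | n + 1, μ, hμ => by
    have h4 : 0 ≤ 4 * μ := by linarith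
    have hT := T_pos hμ
    have hT4 := T_pos h4
    have hK := Kp_pos hp
    have ih := lint_Phi_le hp1 hp n h4
    have h1 := lint_rec (fun y => ‖fderiv ℝ (Phi (n + 1) μ) y‖ₑ ^ p)
      (fun y => ‖fderiv ℝ (Phi n (4 * μ)) y‖ₑ ^ p) (ENNReal.ofReal ((11 * T μ) ^ p))
      (fun y hy _ => by
        rw [← ENNReal.ofReal_rpow_of_pos (by positivity)]
        gcongr
        rw [← ofReal_norm, fderiv_Phi_frame n hμ hy]
        exact ENNReal.ofReal_le_ofReal (norm_fderiv_frame hμ hy))
      (fun s y hy => by rw [fderiv_Phi_child n μ hy])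
    refine h1.trans ?_
    calc 4 * ENNReal.ofReal ((11 * T μ) ^ p) +
          ENNReal.ofReal (1 / 4) * ∫⁻ y in ball (0 : X) 1, ‖fderiv ℝ (Phi n (4 * μ)) y‖ₑ ^ p
        ≤ 4 * ENNReal.ofReal ((11 * T μ) ^ p) +
          ENNReal.ofReal (1 / 4) * ENNReal.ofReal (Kp p * T (4 * μ) ^ p) := by gcongr
      _ = ENNReal.ofReal (4 * (11 * T μ) ^ p + 1 / 4 * (Kp p * T (4 * μ) ^ p)) := by
          rw [ENNReal.ofReal_add (by positivity) (by positivity),
            ENNReal.ofReal_mul (by norm_num : (0:ℝ) ≤ 4),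
            ENNReal.ofReal_mul (by norm_num : (0:ℝ) ≤ 1 / 4)]
          norm_num
      _ ≤ ENNReal.ofReal (Kp p * T μ ^ p) := by
          apply ENNReal.ofReal_le_ofReal
          have h5 : T (4 * μ) ^ p ≤ (2 * T μ) ^ p :=
            Real.rpow_le_rpow hT4.le (T_four_le hμ) (by linarith)
          have h6 : Kp p * T (4 * μ) ^ p ≤ Kp p * (2 * T μ) ^ p := by gcongr
          rw [Real.mul_rpow (by norm_num) hT.le] at h6 ⊢
          have h7 := Kp_eq hp
          have h8 : 4 * (11 ^ p * T μ ^ p) + 1 / 4 * (Kp p * (2 ^ p * T μ ^ p)) =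
              Kp p * T μ ^ p := by
            calc 4 * (11 ^ p * T μ ^ p) + 1 / 4 * (Kp p * (2 ^ p * T μ ^ p))
                = (4 * 11 ^ p + 1 / 4 * (Kp p * 2 ^ p)) * T μ ^ p := by ring
              _ = Kp p * T μ ^ p := by rw [h7]
          linarith

lemma lint_F_le {p : ℝ} (hp1 : 1 ≤ p) (hp : p < 2) {μ : ℝ} (hμ : 0 ≤ μ) :
    ∫⁻ y in ball (0 : X) 1, ‖fderiv ℝ (F μ) y‖ₑ ^ p ≤ ENNReal.ofReal (Kp p * T μ ^ p) := by
  calc ∫⁻ y in ball (0 : X) 1, ‖fderiv ℝ (F μ) y‖ₑ ^ p
      = ∫⁻ y in ball (0 : X) 1, liminf (fun n => ‖fderiv ℝ (Phi n μ) y‖ₑ ^ p) atTop := by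
        apply lintegral_congr_ae
        filter_upwards [ae_good hμ] with y hy
        symm
        apply Tendsto.liminf_eq
        apply tendsto_const_nhds.congr'
        filter_upwards [hy.2] with n hn
        rw [hn]
    _ ≤ liminf (fun n => ∫⁻ y in ball (0 : X) 1, ‖fderiv ℝ (Phi n μ) y‖ₑ ^ p) atTop :=
        lintegral_liminf_le fun n => ((measurable_fderiv ℝ (Phi n μ)).enorm).pow_const p
    _ ≤ ENNReal.ofReal (Kp p * T μ ^ p) := by
        apply liminf_le_of_le
        · isBoundedDefault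
        · intro b hb
          obtain ⟨n, hn⟩ := hb.exists
          exact hn.trans (lint_Phi_le hp1 hp n hμ)

lemma lint_F_one_le {μ : ℝ} (hμ : 0 ≤ μ) :
    ∫⁻ y in ball (0 : X) 1, ‖fderiv ℝ (F μ) y‖ₑ ≤ ENNReal.ofReal (Kp 1 * T μ) := by
  have := lint_F_le (p := 1) le_rfl (by norm_num) hμ
  simpa using this

lemma lint_diff_le : ∀ (n : ℕ) {μ : ℝ}, 0 ≤ μ →
    ∫⁻ y in ball (0 : X) 1, ‖fderiv ℝ (Phi n μ) y - fderiv ℝ (F μ) y‖ₑ ≤
      ENNReal.ofReal ((4 + Kp 1) * T μ * (1 / 2) ^ n)
  | 0, μ, hμ => by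
    have hT := T_pos hμ
    have hK := Kp_pos (p := 1) (by norm_num)
    calc ∫⁻ y in ball (0 : X) 1, ‖fderiv ℝ (Phi 0 μ) y - fderiv ℝ (F μ) y‖ₑ
        ≤ ∫⁻ y in ball (0 : X) 1, (ENNReal.ofReal (T μ) + ‖fderiv ℝ (F μ) y‖ₑ) := by
          apply lintegral_mono fun y => ?_
          refine (enorm_sub_le).trans ?_
          gcongr
          rw [← ofReal_norm]
          exact ENNReal.ofReal_le_ofReal (norm_fderiv_Phi_zero hμ y)
      _ = ENNReal.ofReal (T μ) * 4 + ∫⁻ y in ball (0 : X) 1, ‖fderiv ℝ (F μ) y‖ₑ := by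
          rw [lintegral_add_left measurable_const, setLIntegral_const, volume_ball_X]
      _ ≤ ENNReal.ofReal (T μ) * 4 + ENNReal.ofReal (Kp 1 * T μ) := by
          gcongr; exact lint_F_one_le hμ
      _ = ENNReal.ofReal ((4 + Kp 1) * T μ * (1 / 2) ^ 0) := by
          rw [pow_zero, mul_one, add_mul, ENNReal.ofReal_add (by positivity) (by positivity),
            mul_comm (ENNReal.ofReal (T μ)), ENNReal.ofReal_mul (by norm_num : (0:ℝ) ≤ 4)]
          norm_num
  | n + 1, μ, hμ => by
    have h4 : 0 ≤ 4 * μ := by linarith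
    have hT := T_pos hμ
    have hT4 := T_pos h4
    have hK := Kp_pos (p := 1) (by norm_num)
    have ih := lint_diff_le n h4
    have h1 := lint_rec (fun y => ‖fderiv ℝ (Phi (n + 1) μ) y - fderiv ℝ (F μ) y‖ₑ)
      (fun y => ‖fderiv ℝ (Phi n (4 * μ)) y - fderiv ℝ (F (4 * μ)) y‖ₑ) 0
      (fun y hy _ => by
        rw [fderiv_Phi_frame n hμ hy, sub_self, ← ofReal_norm, norm_zero, ENNReal.ofReal_zero])
      (fun s y hy => by rw [fderiv_Phi_child n μ hy, fderiv_F_child hμ hy])
    refine h1.trans ?_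
    rw [mul_zero, zero_add]
    calc _ ≤ ENNReal.ofReal (1 / 4) * ENNReal.ofReal ((4 + Kp 1) * T (4 * μ) * (1 / 2) ^ n) := by
          gcongr
      _ ≤ ENNReal.ofReal ((4 + Kp 1) * T μ * (1 / 2) ^ (n + 1)) := by
          rw [← ENNReal.ofReal_mul (by norm_num)]
          apply ENNReal.ofReal_le_ofReal
          have h5 := T_four_le hμ
          have h6 : (4 + Kp 1) * T (4 * μ) * (1 / 2) ^ n ≤ (4 + Kp 1) * (2 * T μ) * (1 / 2) ^ n := by
            gcongr
          rw [pow_succ]
          nlinarith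

/-- smooth test function supported in the open unit ball (a square) -/
structure IsTest (U : Set X) (φ : X → ℝ) : Prop where
  smooth : ContDiff ℝ ∞ φ
  cpt : HasCompactSupport φ
  supp : tsupport φ ⊆ U

/-- integration by parts against Lipschitz maps -/
lemma weak_lip {K : NNReal} {G : X → X} (hG : LipschitzWith K G) {φ : X → ℝ}
    (hφ : ContDiff ℝ ∞ φ) (hc : HasCompactSupport φ) (v : X) :
    ∫ x, (fderiv ℝ φ x v) • G x = - ∫ x, φ x • (fderiv ℝ G x v) := by
  obtain ⟨D, hD⟩ := ContDiff.lipschitzWith_of_hasCompactSupport hc hφ (by simp)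
  have hφd : Differentiable ℝ φ := hφ.differentiable (by simp)
  have hcont : Continuous (fun x => fderiv ℝ φ x v) :=
    (hφ.continuous_fderiv (by simp)).clm_apply continuous_const
  have hcs : HasCompactSupport (fun x => fderiv ℝ φ x v) := by
    have := hc.fderiv (𝕜 := ℝ)
    exact this.comp_left (g := fun A : X →L[ℝ] ℝ => A v) (by simp)
  have hae : ∀ᵐ x, DifferentiableAt ℝ G x := hG.ae_differentiableAt
  have hi1 : Integrable (fun x => (fderiv ℝ φ x v) • G x) :=
    (hcont.smul hG.continuous).integrable_of_hasCompactSupport hcs.smul_right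
  have hi2 : Integrable (fun x => φ x • (fderiv ℝ G x v)) := by
    have hb : Integrable (fun x => φ x) := hφ.continuous.integrable_of_hasCompactSupport hc
    refine Integrable.mono' (hb.norm.mul_const (K * ‖v‖)) ?_ ?_
    · exact hφ.continuous.aestronglyMeasurable.smul
        ((measurable_fderiv_apply_const ℝ G v).aestronglyMeasurable)
    · filter_upwards with x
      rw [norm_smul]
      gcongr
      exact (ContinuousLinearMap.le_opNorm _ _).trans
        (by gcongr; exact norm_fderiv_le_of_lipschitz ℝ hG)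
  have key : ∀ (L : X →L[ℝ] ℝ), L (∫ x, (fderiv ℝ φ x v) • G x) =
      L (- ∫ x, φ x • (fderiv ℝ G x v)) := by
    intro L
    have hLG : LipschitzWith (‖L‖₊ * K) (fun x => L (G x)) := L.lipschitz.comp hG
    have h := LipschitzWith.integral_lineDeriv_mul_eq (μ := (volume : Measure X)) hLG hD hc v
    rw [map_neg, ← L.integral_comp_comm hi1, ← L.integral_comp_comm hi2]
    have h1 : ∫ x, lineDeriv ℝ (fun x => L (G x)) x v * φ x = ∫ x, L (φ x • (fderiv ℝ G x v)) := by
      apply integral_congr_ae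
      filter_upwards [hae] with x hx
      have h2 : HasFDerivAt (fun x => L (G x)) (L.comp (fderiv ℝ G x)) x :=
        L.hasFDerivAt.comp x hx.hasFDerivAt
      rw [(h2.hasLineDerivAt v).lineDeriv]
      simp [mul_comm]
    have h3 : ∫ x, lineDeriv ℝ φ x (-v) * L (G x) = - ∫ x, L ((fderiv ℝ φ x v) • G x) := by
      rw [← integral_neg]
      apply integral_congr_ae
      filter_upwards with x
      rw [((hφd x).hasFDerivAt.hasLineDerivAt (-v)).lineDeriv]
      simp
    rw [h1, h3] at h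
    rw [h, neg_neg]
  ext
  · exact key (ContinuousLinearMap.fst ℝ ℝ ℝ)
  · exact key (ContinuousLinearMap.snd ℝ ℝ ℝ)

/-- weak differential on an open subset of the plane -/
structure WD (U : Set X) (G : X → X) (D : X → X →L[ℝ] X) : Prop where
  locG : LocallyIntegrableOn G U
  locD : LocallyIntegrableOn D U
  ibp : ∀ φ, IsTest U φ → ∀ v : X,
    ∫ x in U, (fderiv ℝ φ x v) • G x = - ∫ x in U, φ x • (D x v)

lemma IsTest.zero_off {U : Set X} {φ : X → ℝ} (h : IsTest U φ) {x : X} (hx : x ∉ U) : φ x = 0 :=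
  image_eq_zero_of_notMem_tsupport fun h' => hx (h.supp h')

lemma IsTest.fderiv_zero_off {U : Set X} {φ : X → ℝ} (h : IsTest U φ) {x : X} (hx : x ∉ U) :
    fderiv ℝ φ x = 0 := by
  have h1 : x ∉ tsupport (fderiv ℝ φ) := fun h' => hx (h.supp (tsupport_fderiv_subset ℝ h'))
  exact image_eq_zero_of_notMem_tsupport h1

lemma WD_lip {K : NNReal} {G : X → X} (hG : LipschitzWith K G) (U : Set X) :
    WD U G (fderiv ℝ G) where
  locG := hG.continuous.locallyIntegrable.locallyIntegrableOn U
  locD := by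
    have h1 : LocallyIntegrable (fun _ : X => (K : ℝ)) volume := continuous_const.locallyIntegrable
    have h2 : LocallyIntegrable (fderiv ℝ G) volume := by
      apply h1.mono (measurable_fderiv ℝ G).aestronglyMeasurable
      filter_upwards with x
      refine (norm_fderiv_le_of_lipschitz ℝ hG).trans ?_
      simp
    exact h2.locallyIntegrableOn U
  ibp := fun φ hφ v => by
    rw [setIntegral_eq_integral_of_forall_compl_eq_zero, setIntegral_eq_integral_of_forall_compl_eq_zero]
    · exact weak_lip hG hφ.smooth hφ.cpt v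
    · intro x hx; rw [hφ.zero_off hx, zero_smul]
    · intro x hx; rw [hφ.fderiv_zero_off hx]; simp

lemma integrableOn_fderiv_F {μ : ℝ} (hμ : 0 ≤ μ) :
    IntegrableOn (fderiv ℝ (F μ)) (ball 0 1) :=
  ⟨(measurable_fderiv ℝ (F μ)).aestronglyMeasurable,
    (lint_F_one_le hμ).trans_lt ENNReal.ofReal_lt_top⟩

lemma WD_F {μ : ℝ} (hμ : 0 ≤ μ) : WD (ball 0 1) (F μ) (fderiv ℝ (F μ)) where
  locG := (continuous_F hμ).locallyIntegrable.locallyIntegrableOn _
  locD := (integrableOn_fderiv_F hμ).locallyIntegrableOn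
  ibp := fun φ hφ v => by
    have hcont : Continuous (fun x => fderiv ℝ φ x v) :=
      (hφ.smooth.continuous_fderiv (by simp)).clm_apply continuous_const
    have hcs : HasCompactSupport (fun x => fderiv ℝ φ x v) := by
      have := hφ.cpt.fderiv (𝕜 := ℝ)
      exact this.comp_left (g := fun A : X →L[ℝ] ℝ => A v) (by simp)
    obtain ⟨C, hC⟩ := hφ.cpt.exists_bound_of_continuous hφ.smooth.continuous
    have hC0 : 0 ≤ C := (norm_nonneg _).trans (hC 0)
    obtain ⟨C', hC'⟩ := hcs.exists_bound_of_continuous hcont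
    have hC0' : 0 ≤ C' := (norm_nonneg _).trans (hC' 0)
    have hT := T_pos hμ
    have hKp := Kp_pos (p := 1) (by norm_num)
    have htend : ∀ c : ℝ, Tendsto (fun n : ℕ => ENNReal.ofReal (c * (1 / 2) ^ n)) atTop (𝓝 0) := by
      intro c
      rw [← ENNReal.ofReal_zero]
      apply ENNReal.tendsto_ofReal
      have h2 : Tendsto (fun n : ℕ => c * (1 / 2 : ℝ) ^ n) atTop (𝓝 (c * 0)) :=
        (tendsto_pow_atTop_nhds_zero_of_lt_one (by norm_num) (by norm_num)).const_mul _
      rwa [mul_zero] at h2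
    have hiG : ∀ H : X → X, Continuous H →
        Integrable (fun x => (fderiv ℝ φ x v) • H x) (volume.restrict (ball 0 1)) := fun H hH =>
      ((hcont.smul hH).integrable_of_hasCompactSupport hcs.smul_right).restrict
    have h1 : Tendsto (fun n : ℕ => ∫ x in ball (0 : X) 1, (fderiv ℝ φ x v) • Phi n μ x) atTop
        (𝓝 (∫ x in ball (0 : X) 1, (fderiv ℝ φ x v) • F μ x)) := by
      apply tendsto_integral_of_L1 _ (hiG _ (continuous_F hμ)).aestronglyMeasurable
      · refine Eventually.of_forall fun n => ?_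
        obtain ⟨K, hK⟩ := Phi_lip n hμ
        exact hiG _ hK.continuous
      · refine tendsto_of_tendsto_of_tendsto_of_le_of_le tendsto_const_nhds
          (htend (4 * C' * (2 * T μ))) (fun _ => zero_le) fun n => ?_
        calc ∫⁻ x in ball (0 : X) 1, ‖(fderiv ℝ φ x v) • Phi n μ x - (fderiv ℝ φ x v) • F μ x‖ₑ
            ≤ ∫⁻ x in ball (0 : X) 1, ENNReal.ofReal (C' * (2 * T μ * (1 / 2) ^ n)) := by
              apply lintegral_mono fun x => ?_
              rw [← smul_sub, ← ofReal_norm, norm_smul]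
              apply ENNReal.ofReal_le_ofReal
              have := dist_Phi_F n hμ x
              rw [dist_eq_norm] at this
              gcongr
              exact hC' x
          _ = ENNReal.ofReal (4 * C' * (2 * T μ) * (1 / 2) ^ n) := by
              rw [setLIntegral_const, volume_ball_X, mul_comm,
                show (4 : ENNReal) = ENNReal.ofReal 4 by norm_num, ← ENNReal.ofReal_mul (by norm_num)]
              congr 1; ring
    have hiD : ∀ D : X → X →L[ℝ] X, IntegrableOn D (ball 0 1) →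
        Integrable (fun x => φ x • (D x v)) (volume.restrict (ball 0 1)) := by
      intro D hD
      have h0 : Integrable (fun x => D x v) (volume.restrict (ball 0 1)) := by
        have := hD.integrable.norm.mul_const ‖v‖
        refine this.mono' ?_ ?_
        · exact (ContinuousLinearMap.apply ℝ X v).continuous.comp_aestronglyMeasurable
            hD.aestronglyMeasurable
        · filter_upwards with x
          exact ContinuousLinearMap.le_opNorm _ _
      exact h0.bdd_smul C hφ.smooth.continuous.aestronglyMeasurable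
        (Eventually.of_forall hC)
    have hiPhi : ∀ n, IntegrableOn (fderiv ℝ (Phi n μ)) (ball 0 1) := by
      intro n
      obtain ⟨K, hK⟩ := Phi_lip n hμ
      refine Measure.integrableOn_of_bounded (M := K) (by rw [volume_ball_X]; norm_num)
        (measurable_fderiv ℝ _).aestronglyMeasurable ?_
      filter_upwards with x
      exact norm_fderiv_le_of_lipschitz ℝ hK
    have h2 : Tendsto (fun n : ℕ => ∫ x in ball (0 : X) 1, φ x • (fderiv ℝ (Phi n μ) x v)) atTop
        (𝓝 (∫ x in ball (0 : X) 1, φ x • (fderiv ℝ (F μ) x v))) := by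
      apply tendsto_integral_of_L1 _ (hiD _ (integrableOn_fderiv_F hμ)).aestronglyMeasurable
      · exact Eventually.of_forall fun n => hiD _ (hiPhi n)
      · refine tendsto_of_tendsto_of_tendsto_of_le_of_le tendsto_const_nhds
          (htend (C * ‖v‖ * ((4 + Kp 1) * T μ))) (fun _ => zero_le) fun n => ?_
        calc ∫⁻ x in ball (0 : X) 1, ‖φ x • (fderiv ℝ (Phi n μ) x v) -
              φ x • (fderiv ℝ (F μ) x v)‖ₑ
            ≤ ∫⁻ x in ball (0 : X) 1, ENNReal.ofReal (C * ‖v‖) *
                ‖fderiv ℝ (Phi n μ) x - fderiv ℝ (F μ) x‖ₑ := by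
              apply lintegral_mono fun x => ?_
              rw [← smul_sub, ← ofReal_norm, ← ofReal_norm, norm_smul,
                ← ENNReal.ofReal_mul (by positivity)]
              apply ENNReal.ofReal_le_ofReal
              have h3 : ‖fderiv ℝ (Phi n μ) x v - fderiv ℝ (F μ) x v‖ ≤
                  ‖fderiv ℝ (Phi n μ) x - fderiv ℝ (F μ) x‖ * ‖v‖ :=
                ContinuousLinearMap.le_opNorm (fderiv ℝ (Phi n μ) x - fderiv ℝ (F μ) x) v
              calc ‖φ x‖ * ‖fderiv ℝ (Phi n μ) x v - fderiv ℝ (F μ) x v‖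
                  ≤ C * (‖fderiv ℝ (Phi n μ) x - fderiv ℝ (F μ) x‖ * ‖v‖) := by
                    gcongr; exact hC x
                _ = _ := by ring
          _ = ENNReal.ofReal (C * ‖v‖) *
                ∫⁻ x in ball (0 : X) 1, ‖fderiv ℝ (Phi n μ) x - fderiv ℝ (F μ) x‖ₑ := by
              rw [lintegral_const_mul]
              exact ((measurable_fderiv ℝ _).sub (measurable_fderiv ℝ _)).enorm
          _ ≤ ENNReal.ofReal (C * ‖v‖) * ENNReal.ofReal ((4 + Kp 1) * T μ * (1 / 2) ^ n) := by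
              gcongr; exact lint_diff_le n hμ
          _ = ENNReal.ofReal (C * ‖v‖ * ((4 + Kp 1) * T μ) * (1 / 2) ^ n) := by
              rw [← ENNReal.ofReal_mul (by positivity)]
              congr 1; ring
    have h3 : ∀ n : ℕ, ∫ x in ball (0 : X) 1, (fderiv ℝ φ x v) • Phi n μ x =
        - ∫ x in ball (0 : X) 1, φ x • (fderiv ℝ (Phi n μ) x v) := by
      intro n
      obtain ⟨K, hK⟩ := Phi_lip n hμ
      exact (WD_lip hK (ball 0 1)).ibp φ hφ v
    simp only [h3] at h1
    exact tendsto_nhds_unique h1 h2.neg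

end H777R2.Inc
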