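import Pool.Agent.H777R2.IncMoll

/-! The weak Jacobian identity for weakly differentiable maps with locally bounded differential. -/

open Set Filter Topology MeasureTheory Metric ContinuousLinearMap
open scoped ContDiff Convolution

namespace H777R2.Inc

lemma IsTest.symm {U : Set X} {χ : X → ℝ} (hχ : IsTest U χ) (a b x : X) :
    fderiv ℝ (fun x => fderiv ℝ χ x a) x b = fderiv ℝ (fun x => fderiv ℝ χ x b) x a := by
  have h1 : ContDiff ℝ ∞ (fderiv ℝ χ) := hχ.smooth.fderiv_right (m := ∞) (by simp)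
  have h2 : DifferentiableAt ℝ (fderiv ℝ χ) x := (h1.differentiable (by simp)) x
  have h3 : ∀ w : X, fderiv ℝ (fun x => fderiv ℝ χ x w) x = (fderiv ℝ (fderiv ℝ χ) x).flip w := by
    intro w
    have := (h2.hasFDerivAt.clm_apply (hasFDerivAt_const w x)).fderiv
    rw [this]; ext <;> simp
  have h4 : IsSymmSndFDerivAt ℝ χ x := (hχ.smooth.contDiffAt).isSymmSndFDerivAt
    (by rw [minSmoothness_of_isRCLikeNormedField]; exact WithTop.coe_le_coe.2 (le_top : (2 : ℕ∞) ≤ ⊤))
  rw [h3, h3]
  simp only [flip_apply]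
  exact h4 b a

lemma WD.curl {U : Set X} {G : X → X} {D : X → X →L[ℝ] X} (h : WD U G D) {χ : X → ℝ}
    (hχ : IsTest U χ) (L : X →L[ℝ] ℝ) (a b : X) :
    ∫ x, (fderiv ℝ χ x a) * L (D x b) = ∫ x, (fderiv ℝ χ x b) * L (D x a) := by
  have h1 := h.scalar (hχ.deriv a) b L
  have h2 := h.scalar (hχ.deriv b) a L
  have h3 : ∫ x, (fderiv ℝ (fun x => fderiv ℝ χ x a) x b) * L (G x) =
      ∫ x, (fderiv ℝ (fun x => fderiv ℝ χ x b) x a) * L (G x) := by
    congr 1; ext x; rw [hχ.symm a b x]
  rw [h3, h2] at h1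
  exact (neg_injective h1).symm

/-- first and second unit vectors -/
def e1 : X := (1, 0)
def e2 : X := (0, 1)

lemma norm_e1 : ‖e1‖ = 1 := by simp [e1, Prod.norm_def]
lemma norm_e2 : ‖e2‖ = 1 := by simp [e2, Prod.norm_def]

/-- the integrand of the weak Jacobian identity -/
noncomputable def Jint (ψ : X → ℝ) (G : X → X) (D : X → X →L[ℝ] X) (x : X) : ℝ :=
  ψ x * (Real.cos (G x).1 * (D x).det) +
    Real.sin (G x).1 * (fderiv ℝ ψ x e1 * (D x e2).2 - fderiv ℝ ψ x e2 * (D x e1).2)

lemma weak_jac {U : Set X} (hU : IsOpen U) {G : X → X} {D : X → X →L[ℝ] X} (h : WD U G D)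
    (hb : LB U D) {ψ : X → ℝ} (hψ : IsTest U ψ) : ∫ x, Jint ψ G D x = 0 := by
  obtain ⟨δ, hδ, hδU⟩ := hψ.cpt.isCompact.exists_cthickening_subset_open hU hψ.supp
  set K := tsupport ψ with hKdef
  have hKc : IsCompact K := hψ.cpt
  set K' := cthickening δ K with hK'def
  have hK'c : IsCompact K' := hKc.cthickening
  have hKK' : K ⊆ K' := self_subset_cthickening _
  obtain ⟨C₀, hC₀⟩ := hb K' hδU hK'c
  set C := max C₀ 0 with hCdef
  have hC0 : 0 ≤ C := le_max_right _ _
  obtain ⟨Cψ, hCψ⟩ := hψ.cpt.exists_bound_of_continuous hψ.smooth.continuous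
  have hCψ0 : 0 ≤ Cψ := (norm_nonneg _).trans (hCψ 0)
  obtain ⟨C1, hC1⟩ := (hψ.cpt.fderiv (𝕜 := ℝ)).exists_bound_of_continuous
    (hψ.smooth.continuous_fderiv (by simp))
  have hC10 : 0 ≤ C1 := (norm_nonneg _).trans (hC1 0)
  let β : ℕ → ContDiffBump (0 : X) := fun n =>
    { rIn := δ / (2 * (n + 1))
      rOut := δ / (n + 1)
      rIn_pos := by positivity
      rIn_lt_rOut := by
        apply div_lt_div_of_pos_left hδ (by positivity)
        have : (0 : ℝ) ≤ n := Nat.cast_nonneg n
        linarith }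
  have hβOut : ∀ n, (β n).rOut = δ / (n + 1) := fun n => rfl
  have hβIn : ∀ n, (β n).rIn = δ / (2 * (n + 1)) := fun n => rfl
  have hβle : ∀ n, (β n).rOut ≤ δ := fun n => by
    rw [hβOut]
    apply div_le_self hδ.le
    have : (0 : ℝ) ≤ n := Nat.cast_nonneg n
    linarith
  have hβt : Tendsto (fun n => (β n).rOut) atTop (𝓝 0) := by
    simp only [hβOut]
    have := (tendsto_one_div_add_atTop_nhds_zero_nat (𝕜 := ℝ)).const_mul δ
    simpa [div_eq_mul_inv] using this
  have hβr : ∀ᶠ n in atTop, (β n).rOut ≤ 2 * (β n).rIn := by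
    refine Eventually.of_forall fun n => le_of_eq ?_
    rw [hβOut, hβIn]; field_simp
  -- the functions to be mollified
  set L1 : X →L[ℝ] ℝ := ContinuousLinearMap.fst ℝ ℝ ℝ with hL1
  set L2 : X →L[ℝ] ℝ := ContinuousLinearMap.snd ℝ ℝ ℝ with hL2
  set u : X → ℝ := K'.indicator fun y => L1 (G y) with hu
  set uw : X → X → ℝ := fun w => K'.indicator fun y => L1 (D y w) with huw
  have hui : LocallyIntegrable u volume := by
    apply Integrable.locallyIntegrable
    rw [hu, integrable_indicator_iff hK'c.measurableSet]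
    exact (locallyIntegrableOn_comp h.locG L1).integrableOn_compact_subset hδU hK'c
  have huwi : ∀ w, LocallyIntegrable (uw w) volume := by
    intro w
    apply Integrable.locallyIntegrable
    rw [huw, integrable_indicator_iff hK'c.measurableSet]
    exact (locallyIntegrableOn_comp (locallyIntegrableOn_apply h.locD w)
      L1).integrableOn_compact_subset hδU hK'c
  have hnL1 : ∀ z : X, |L1 z| ≤ ‖z‖ := fun z => norm_fst_le z
  have hnL2 : ∀ z : X, |L2 z| ≤ ‖z‖ := fun z => norm_snd_le z
  have huwb : ∀ w : X, ‖w‖ = 1 → ∀ᵐ x, |uw w x| ≤ C := by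
    intro w hw
    rw [ae_restrict_iff' hK'c.measurableSet] at hC₀
    filter_upwards [hC₀] with x hx
    by_cases hxK : x ∈ K'
    · rw [huw]; simp only; rw [indicator_of_mem hxK]
      calc |L1 (D x w)| ≤ ‖D x w‖ := hnL1 _
        _ ≤ ‖D x‖ * ‖w‖ := le_opNorm _ _
        _ ≤ C := by rw [hw, mul_one]; exact (hx hxK).trans (le_max_left _ _)
    · rw [huw]; simp only; rw [indicator_of_notMem hxK]; simpa using hC0
  let V : ℕ → X → ℝ := fun n => (β n).normed volume ⋆[lsmul ℝ ℝ, volume] u
  have hVs : ∀ n, ContDiff ℝ ∞ (V n) := fun n => conv_contDiff (β n) hui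
  have hVd : ∀ n, ∀ x ∈ K, ∀ w, fderiv ℝ (V n) x w =
      ((β n).normed volume ⋆[lsmul ℝ ℝ, volume] (uw w)) x := by
    intro n x hx w
    apply moll_fderiv h hK'c hδU (β n) _ w L1
    exact (closedBall_subset_closedBall (hβle n)).trans (closedBall_subset_cthickening hx δ)
  have hVb : ∀ n, ∀ x ∈ K, ∀ w : X, ‖w‖ = 1 → |fderiv ℝ (V n) x w| ≤ C := by
    intro n x hx w hw
    rw [hVd n x hx w]
    exact conv_bound (β n) (huwb w hw) x
  have hVt : ∀ᵐ x, Tendsto (fun n => V n x) atTop (𝓝 (u x)) :=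
    ContDiffBump.ae_convolution_tendsto_right_of_locallyIntegrable hβt hβr hui
  have hVwt : ∀ w, ∀ᵐ x, Tendsto (fun n =>
      ((β n).normed volume ⋆[lsmul ℝ ℝ, volume] (uw w)) x) atTop (𝓝 (uw w x)) := fun w =>
    ContDiffBump.ae_convolution_tendsto_right_of_locallyIntegrable hβt hβr (huwi w)
  -- the test functions
  let χ : ℕ → X → ℝ := fun n x => ψ x * Real.sin (V n x)
  have hχ : ∀ n, IsTest U (χ n) := fun n =>
    { smooth := hψ.smooth.mul (Real.contDiff_sin.comp (hVs n))
      cpt := hψ.cpt.mul_right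
      supp := (closure_mono (fun x hx => by
        simp only [Function.mem_support, χ] at hx ⊢
        exact left_ne_zero_of_mul hx)).trans hψ.supp }
  have hχd : ∀ n x w, fderiv ℝ (χ n) x w =
      ψ x * (Real.cos (V n x) * fderiv ℝ (V n) x w) + Real.sin (V n x) * fderiv ℝ ψ x w := by
    intro n x w
    have h1 : HasFDerivAt ψ (fderiv ℝ ψ x) x :=
      (hψ.smooth.differentiable (by simp) x).hasFDerivAt
    have h2 : HasFDerivAt (V n) (fderiv ℝ (V n) x) x :=
      ((hVs n).differentiable (by simp) x).hasFDerivAt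
    have h3 := (h1.mul h2.sin).fderiv
    have h4 : fderiv ℝ (χ n) x = ψ x • (Real.cos (V n x) • fderiv ℝ (V n) x) +
        Real.sin (V n x) • fderiv ℝ ψ x := h3
    rw [h4]; simp
  have hχb : ∀ n x w, ‖w‖ = 1 → |fderiv ℝ (χ n) x w| ≤ Cψ * C + C1 := by
    intro n x w hw
    rw [hχd]
    refine (abs_add_le _ _).trans ?_
    have h1 : |Real.sin (V n x) * fderiv ℝ ψ x w| ≤ C1 := by
      rw [abs_mul]
      calc |Real.sin (V n x)| * |fderiv ℝ ψ x w| ≤ 1 * C1 := by
            gcongr
            · exact Real.abs_sin_le_one _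
            · have := (fderiv ℝ ψ x).le_opNorm w
              rw [hw, mul_one, Real.norm_eq_abs] at this
              exact this.trans (hC1 x)
        _ = C1 := one_mul _
    have h2 : |ψ x * (Real.cos (V n x) * fderiv ℝ (V n) x w)| ≤ Cψ * C := by
      by_cases hx : x ∈ K
      · rw [abs_mul, abs_mul]
        have h3 := hVb n x hx w hw
        have h4 : |ψ x| ≤ Cψ := hCψ x
        calc |ψ x| * (|Real.cos (V n x)| * |fderiv ℝ (V n) x w|) ≤ Cψ * (1 * C) := by
              gcongr
              exact Real.abs_cos_le_one _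
          _ = Cψ * C := by ring
      · rw [image_eq_zero_of_notMem_tsupport hx]; simp; positivity
    linarith
  have hχ0 : ∀ n, ∀ x, x ∉ K → ∀ w, fderiv ℝ (χ n) x w = 0 := by
    intro n x hx w
    have h1 : fderiv ℝ ψ x = 0 := image_eq_zero_of_notMem_tsupport fun h' =>
      hx (tsupport_fderiv_subset ℝ h')
    rw [hχd, image_eq_zero_of_notMem_tsupport hx, h1]; simp
  -- the integrands
  let f : ℕ → X → ℝ := fun n x =>
    (fderiv ℝ (χ n) x e1) * L2 (D x e2) - (fderiv ℝ (χ n) x e2) * L2 (D x e1)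
  have hint : ∀ n w w', Integrable (fun x => (fderiv ℝ (χ n) x w) * L2 (D x w')) := by
    intro n w w'
    have := integrable_test_smul ((hχ n).deriv w).smooth.continuous ((hχ n).deriv w).cpt
      ((hχ n).deriv w).supp (locallyIntegrableOn_comp (locallyIntegrableOn_apply h.locD w') L2)
    simpa using this
  have hf0 : ∀ n, ∫ x, f n x = 0 := by
    intro n
    rw [integral_sub (hint n e1 e2) (hint n e2 e1), h.curl (hχ n) L2 e1 e2, sub_self]
  have hDK : IntegrableOn D K := h.locD.integrableOn_compact_subset hψ.supp hKc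
  have hlim : Tendsto (fun n => ∫ x, f n x) atTop (𝓝 (∫ x, Jint ψ G D x)) := by
    apply tendsto_integral_of_dominated_convergence
      (K.indicator fun x => (2 * (Cψ * C + C1)) * ‖D x‖)
    · intro n
      exact ((hint n e1 e2).sub (hint n e2 e1)).aestronglyMeasurable
    · rw [integrable_indicator_iff hKc.measurableSet]
      exact hDK.norm.const_mul _
    · intro n
      filter_upwards with x
      by_cases hx : x ∈ K
      · rw [indicator_of_mem hx, Real.norm_eq_abs]
        have h1 := hχb n x e1 norm_e1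
        have h2 := hχb n x e2 norm_e2
        have h3 : |L2 (D x e2)| ≤ ‖D x‖ := (hnL2 _).trans (by
          have := (D x).le_opNorm e2; rwa [norm_e2, mul_one] at this)
        have h4 : |L2 (D x e1)| ≤ ‖D x‖ := (hnL2 _).trans (by
          have := (D x).le_opNorm e1; rwa [norm_e1, mul_one] at this)
        calc |f n x| ≤ |(fderiv ℝ (χ n) x e1) * L2 (D x e2)| +
              |(fderiv ℝ (χ n) x e2) * L2 (D x e1)| := abs_sub _ _
          _ ≤ (Cψ * C + C1) * ‖D x‖ + (Cψ * C + C1) * ‖D x‖ := by
              rw [abs_mul, abs_mul]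
              gcongr
          _ = _ := by ring
      · rw [indicator_of_notMem hx]
        simp only [f]
        rw [hχ0 n x hx, hχ0 n x hx]; simp
    · filter_upwards [hVt, hVwt e1, hVwt e2] with x hx1 hx2 hx3
      by_cases hx : x ∈ K
      · have hxK' := hKK' hx
        have hu1 : u x = (G x).1 := by rw [hu, indicator_of_mem hxK']; rfl
        have hu2 : ∀ w, uw w x = (D x w).1 := by
          intro w; rw [huw]; simp only; rw [indicator_of_mem hxK']; rfl
        rw [hu1] at hx1
        rw [hu2] at hx2 hx3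
        simp only [← hVd _ x hx] at hx2 hx3
        have h1 : ∀ w, Tendsto (fun n => fderiv ℝ (V n) x w) atTop (𝓝 (D x w).1) →
            Tendsto (fun n => fderiv ℝ (χ n) x w) atTop
            (𝓝 (ψ x * (Real.cos (G x).1 * (D x w).1) + Real.sin (G x).1 * fderiv ℝ ψ x w)) := by
          intro w hw
          simp only [hχd]
          exact (((Real.continuous_cos.continuousAt.tendsto.comp hx1).mul hw).const_mul _).add
            ((Real.continuous_sin.continuousAt.tendsto.comp hx1).mul_const _)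
        have h2 := ((h1 e1 hx2).mul_const (L2 (D x e2))).sub ((h1 e2 hx3).mul_const (L2 (D x e1)))
        convert h2 using 2
        rw [Jint, det_X]
        change _ = (ψ x * (Real.cos (G x).1 * (D x e1).1) + Real.sin (G x).1 * fderiv ℝ ψ x e1) *
          (D x e2).2 - (ψ x * (Real.cos (G x).1 * (D x e2).1) +
            Real.sin (G x).1 * fderiv ℝ ψ x e2) * (D x e1).2
        change ψ x * (Real.cos (G x).1 * ((D x e1).1 * (D x e2).2 - (D x e2).1 * (D x e1).2)) +
          _ = _
        ring
      · have h1 : ∀ n, f n x = 0 := by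
          intro n; simp only [f]; rw [hχ0 n x hx, hχ0 n x hx]; simp
        have h2 : Jint ψ G D x = 0 := by
          have h1 : fderiv ℝ ψ x = 0 := image_eq_zero_of_notMem_tsupport fun h' =>
            hx (tsupport_fderiv_subset ℝ h')
          rw [Jint, image_eq_zero_of_notMem_tsupport hx, h1]; simp
        simp only [h1, h2]
        exact tendsto_const_nhds
  simp only [hf0] at hlim
  exact tendsto_nhds_unique hlim tendsto_const_nhds

end H777R2.Inc
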