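import Pool.Agent.H777R2.IncInt

/-! Mollification and the weak Jacobian identity. -/

open Set Filter Topology MeasureTheory Metric ContinuousLinearMap
open scoped ContDiff Convolution

namespace H777R2.Inc

lemma integrable_test_smul {U : Set X} {φ : X → ℝ} (hc : Continuous φ) (hs : HasCompactSupport φ)
    (hU : tsupport φ ⊆ U) {E : Type*} [NormedAddCommGroup E] [NormedSpace ℝ E] {g : X → E}
    (hg : LocallyIntegrableOn g U) : Integrable (fun x => φ x • g x) := by
  have h1 : IntegrableOn g (tsupport φ) := hg.integrableOn_compact_subset hU hs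
  obtain ⟨C, hC⟩ := hs.exists_bound_of_continuous hc
  have h2 : IntegrableOn (fun x => φ x • g x) (tsupport φ) :=
    h1.integrable.bdd_smul C hc.aestronglyMeasurable (Eventually.of_forall hC)
  refine (integrableOn_iff_integrable_of_support_subset ?_).1 h2
  intro x hx
  by_contra h
  apply hx
  simp [image_eq_zero_of_notMem_tsupport h]

/-- `D` is essentially bounded on compact subsets of `U` -/
def LB (U : Set X) (D : X → X →L[ℝ] X) : Prop :=
  ∀ K ⊆ U, IsCompact K → ∃ C : ℝ, ∀ᵐ x ∂(volume.restrict K), ‖D x‖ ≤ C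

lemma locallyIntegrableOn_apply {U : Set X} {D : X → X →L[ℝ] X} (h : LocallyIntegrableOn D U)
    (w : X) : LocallyIntegrableOn (fun x => D x w) U := by
  intro x hx
  obtain ⟨s, hs, h1⟩ := h x hx
  refine ⟨s, hs, ?_⟩
  exact (ContinuousLinearMap.apply ℝ X w).integrable_comp h1

lemma locallyIntegrableOn_comp {U : Set X} {g : X → X} (h : LocallyIntegrableOn g U)
    (L : X →L[ℝ] ℝ) : LocallyIntegrableOn (fun x => L (g x)) U := by
  intro x hx
  obtain ⟨s, hs, h1⟩ := h x hx
  exact ⟨s, hs, L.integrable_comp h1⟩

lemma IsTest.deriv {U : Set X} {φ : X → ℝ} (h : IsTest U φ) (w : X) :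
    IsTest U (fun x => fderiv ℝ φ x w) where
  smooth := (h.smooth.fderiv_right (m := ∞) (by simp)).clm_apply contDiff_const
  cpt := (h.cpt.fderiv (𝕜 := ℝ)).comp_left (g := fun A : X →L[ℝ] ℝ => A w) (by simp)
  supp := by
    refine subset_trans ?_ ((tsupport_fderiv_subset ℝ (f := φ)).trans h.supp)
    apply closure_mono
    intro x hx
    simp only [Function.mem_support] at hx ⊢
    intro h0; apply hx; rw [h0]; simp

/-- scalar version of the integration by parts formula, on the whole plane -/
lemma WD.scalar {U : Set X} {G : X → X} {D : X → X →L[ℝ] X} (h : WD U G D)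
    {φ : X → ℝ} (hφ : IsTest U φ) (w : X) (L : X →L[ℝ] ℝ) :
    ∫ x, (fderiv ℝ φ x w) * L (G x) = - ∫ x, φ x * L (D x w) := by
  have h1 : Integrable (fun x => (fderiv ℝ φ x w) • G x) :=
    integrable_test_smul (hφ.deriv w).smooth.continuous (hφ.deriv w).cpt (hφ.deriv w).supp h.locG
  have h2 : Integrable (fun x => φ x • D x w) :=
    integrable_test_smul hφ.smooth.continuous hφ.cpt hφ.supp (locallyIntegrableOn_apply h.locD w)
  have h3 := h.ibp φ hφ w
  rw [setIntegral_eq_integral_of_forall_compl_eq_zero,
    setIntegral_eq_integral_of_forall_compl_eq_zero] at h3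
  · have h4 := congrArg L h3
    rw [map_neg, ← L.integral_comp_comm h1, ← L.integral_comp_comm h2] at h4
    simpa using h4
  · intro x hx; rw [hφ.zero_off hx, zero_smul]
  · intro x hx; rw [hφ.fderiv_zero_off hx]; simp

lemma conv_apply (β : ContDiffBump (0 : X)) (g : X → ℝ) (x : X) :
    (β.normed volume ⋆[lsmul ℝ ℝ, volume] g) x = ∫ t, β.normed volume (x - t) * g t := by
  rw [convolution_eq_swap]; rfl

lemma conv_fderiv (β : ContDiffBump (0 : X)) {g : X → ℝ} (hg : LocallyIntegrable g) (x w : X) :
    fderiv ℝ (β.normed volume ⋆[lsmul ℝ ℝ, volume] g) x w =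
      ∫ t, (fderiv ℝ (β.normed volume) (x - t) w) * g t := by
  have hcs : HasCompactSupport (β.normed (volume : Measure X)) := β.hasCompactSupport_normed
  have hcd : ContDiff ℝ 1 (β.normed (volume : Measure X)) := β.contDiff_normed (n := 1)
  have h1 := hcs.hasFDerivAt_convolution_left (lsmul ℝ ℝ) hcd hg x
  rw [h1.fderiv]
  have h2 : ConvolutionExistsAt (fderiv ℝ (β.normed (volume : Measure X))) g x
      ((lsmul ℝ ℝ : ℝ →L[ℝ] ℝ →L[ℝ] ℝ).precompL X) volume :=
    (hcs.fderiv (𝕜 := ℝ)).convolutionExists_left _ (hcd.continuous_fderiv one_ne_zero) hg x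
  rw [convolution_eq_swap, ContinuousLinearMap.integral_apply h2.integrable_swap]
  rfl

lemma conv_contDiff (β : ContDiffBump (0 : X)) {g : X → ℝ} (hg : LocallyIntegrable g) :
    ContDiff ℝ ∞ (β.normed volume ⋆[lsmul ℝ ℝ, volume] g) := by
  have h1 : ContDiff ℝ ∞ (β.normed (volume : Measure X)) := β.contDiff_normed
  exact β.hasCompactSupport_normed.contDiff_convolution_left (lsmul ℝ ℝ) h1 hg

lemma integral_normed_sub (β : ContDiffBump (0 : X)) (x : X) :
    ∫ t, β.normed volume (x - t) = 1 := by
  rw [integral_sub_left_eq_self (fun t => β.normed volume t) volume x]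
  exact β.integral_normed

lemma conv_bound (β : ContDiffBump (0 : X)) {g : X → ℝ} {C : ℝ}
    (hg : ∀ᵐ x, |g x| ≤ C) (x : X) :
    |(β.normed volume ⋆[lsmul ℝ ℝ, volume] g) x| ≤ C := by
  rw [conv_apply]
  have hi : Integrable (fun t => β.normed (volume : Measure X) (x - t)) :=
    β.integrable_normed.comp_sub_left x
  calc |∫ t, β.normed volume (x - t) * g t| ≤ ∫ t, β.normed volume (x - t) * C := by
        rw [← Real.norm_eq_abs]
        apply norm_integral_le_of_norm_le (hi.mul_const C)
        filter_upwards [hg] with t ht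
        rw [norm_mul, Real.norm_of_nonneg (β.nonneg_normed _), Real.norm_eq_abs]
        exact mul_le_mul_of_nonneg_left ht (β.nonneg_normed _)
    _ = C := by rw [integral_mul_const, integral_normed_sub, one_mul]

/-- derivative of the mollified function -/
lemma moll_fderiv {U K' : Set X} {G : X → X} {D : X → X →L[ℝ] X} (h : WD U G D)
    (hK' : IsCompact K') (hK'U : K' ⊆ U) (β : ContDiffBump (0 : X)) {x : X}
    (hx : closedBall x β.rOut ⊆ K') (w : X) (L : X →L[ℝ] ℝ) :
    fderiv ℝ (β.normed volume ⋆[lsmul ℝ ℝ, volume] (K'.indicator fun y => L (G y))) x w =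
      (β.normed volume ⋆[lsmul ℝ ℝ, volume] (K'.indicator fun y => L (D y w))) x := by
  have hmK : MeasurableSet K' := hK'.measurableSet
  have hg : LocallyIntegrable (K'.indicator fun y => L (G y)) volume := by
    apply Integrable.locallyIntegrable
    rw [integrable_indicator_iff hmK]
    exact (locallyIntegrableOn_comp h.locG L).integrableOn_compact_subset hK'U hK'
  rw [conv_fderiv β hg, conv_apply]
  set φ : X → ℝ := fun t => β.normed volume (x - t) with hφdef
  have hsm : ContDiff ℝ ∞ (β.normed (volume : Measure X)) := β.contDiff_normed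
  have hts : tsupport φ ⊆ closedBall x β.rOut := by
    apply closure_minimal _ isClosed_closedBall
    intro t ht
    simp only [hφdef, Function.mem_support] at ht
    have h1 : x - t ∈ Function.support (β.normed (volume : Measure X)) := ht
    rw [β.support_normed_eq, mem_ball_zero_iff] at h1
    rw [mem_closedBall, dist_eq_norm, norm_sub_rev]
    exact h1.le
  have hφ : IsTest U φ :=
    { smooth := hsm.comp (contDiff_const.sub contDiff_id)
      cpt := HasCompactSupport.of_support_subset_isCompact (isCompact_closedBall x β.rOut)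
        ((subset_tsupport φ).trans hts)
      supp := hts.trans (hx.trans hK'U) }
  have hfd : ∀ t, fderiv ℝ φ t w = - fderiv ℝ (β.normed volume) (x - t) w := by
    intro t
    have h1 : HasFDerivAt (β.normed (volume : Measure X)) (fderiv ℝ (β.normed volume) (x - t))
        (x - t) := (hsm.differentiable (by simp) _).hasFDerivAt
    have h2 : HasFDerivAt (fun t : X => x - t) (-ContinuousLinearMap.id ℝ X) t := by
      simpa using (hasFDerivAt_id t).const_sub x
    have h3 := (h1.comp t h2).fderiv
    have h4 : fderiv ℝ φ t = (fderiv ℝ (β.normed volume) (x - t)).comp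
        (-ContinuousLinearMap.id ℝ X) := h3
    rw [h4]; simp
  have h5 := h.scalar hφ w L
  have hoff : ∀ t, t ∉ K' → φ t = 0 := fun t ht =>
    image_eq_zero_of_notMem_tsupport fun h' => ht (hx (hts h'))
  have hoff' : ∀ t, t ∉ K' → fderiv ℝ φ t = 0 := fun t ht =>
    image_eq_zero_of_notMem_tsupport fun h' =>
      ht (hx (hts (tsupport_fderiv_subset ℝ h')))
  have h6 : ∫ t, (fderiv ℝ (β.normed volume) (x - t) w) * (K'.indicator fun y => L (G y)) t =
      - ∫ t, (fderiv ℝ φ t w) * L (G t) := by
    rw [← integral_neg]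
    congr 1
    ext t
    by_cases ht : t ∈ K'
    · rw [indicator_of_mem ht, hfd]; ring
    · rw [indicator_of_notMem ht, hoff' t ht]; simp
  have h7 : ∫ t, φ t * L (D t w) =
      ∫ t, β.normed volume (x - t) * (K'.indicator fun y => L (D y w)) t := by
    congr 1
    ext t
    by_cases ht : t ∈ K'
    · rw [indicator_of_mem ht]
    · rw [indicator_of_notMem ht, hoff t ht]; simp
  rw [h6, h5, neg_neg, h7]

end H777R2.Inc
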