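import Pool.Agent.H777R2.IncJac

/-! Non-approximability of the self-similar map. -/

open Set Filter Topology MeasureTheory Metric ContinuousLinearMap
open scoped ContDiff Convolution

namespace H777R2.Inc

/-- the integrand for maps with determinant one -/
noncomputable def J1 (ψ : X → ℝ) (G : X → X) (D : X → X →L[ℝ] X) (x : X) : ℝ :=
  ψ x * Real.cos (G x).1 +
    Real.sin (G x).1 * (fderiv ℝ ψ x e1 * (D x e2).2 - fderiv ℝ ψ x e2 * (D x e1).2)

lemma integrable_J1 {ψ : X → ℝ} (hψ : IsTest (ball 0 1) ψ) {G : X → X} {D : X → X →L[ℝ] X}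
    (hG : AEStronglyMeasurable G (volume.restrict (ball 0 1))) (hD : IntegrableOn D (ball 0 1)) :
    Integrable (J1 ψ G D) := by
  have hG1 : AEStronglyMeasurable (fun x => (G x).1) (volume.restrict (ball 0 1)) :=
    continuous_fst.comp_aestronglyMeasurable hG
  have hc : IntegrableOn (fun x => Real.cos (G x).1) (ball 0 1) := by
    have hfin : IsFiniteMeasure ((volume : Measure X).restrict (ball 0 1)) :=
      ⟨by rw [Measure.restrict_apply_univ, volume_ball_X]; exact ENNReal.ofNat_lt_top⟩
    exact Integrable.of_bound (Real.continuous_cos.comp_aestronglyMeasurable hG1) 1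
      (Eventually.of_forall fun x => Real.abs_cos_le_one _)
  have ha : ∀ w : X, IntegrableOn (fun x => Real.sin (G x).1 * (D x w).2) (ball 0 1) := by
    intro w
    have h1 : Integrable (fun x => (D x w).2) (volume.restrict (ball 0 1)) :=
      (ContinuousLinearMap.snd ℝ ℝ ℝ).integrable_comp
        ((ContinuousLinearMap.apply ℝ X w).integrable_comp hD)
    exact h1.bdd_smul 1 (Real.continuous_sin.comp_aestronglyMeasurable hG1)
      (Eventually.of_forall fun x => Real.abs_sin_le_one _)
  have h1 := integrable_test_smul hψ.smooth.continuous hψ.cpt hψ.supp hc.locallyIntegrableOn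
  have h2 := integrable_test_smul (hψ.deriv e1).smooth.continuous (hψ.deriv e1).cpt
    (hψ.deriv e1).supp (ha e2).locallyIntegrableOn
  have h3 := integrable_test_smul (hψ.deriv e2).smooth.continuous (hψ.deriv e2).cpt
    (hψ.deriv e2).supp (ha e1).locallyIntegrableOn
  refine (h1.add (h2.sub h3)).congr (Eventually.of_forall fun x => ?_)
  simp only [J1, Pi.add_apply, Pi.sub_apply, smul_eq_mul]
  ring

/-- the cut-off -/
noncomputable def bump : ContDiffBump (0 : X) where
  rIn := 5 / 8
  rOut := 7 / 8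
  rIn_pos := by norm_num
  rIn_lt_rOut := by norm_num

noncomputable def psi (x : X) : ℝ := bump x

lemma psi_test : IsTest (ball 0 1) psi where
  smooth := bump.contDiff
  cpt := bump.hasCompactSupport
  supp := by
    have : tsupport psi = closedBall 0 (7 / 8) := bump.tsupport_eq
    rw [this]
    exact closedBall_subset_ball (by norm_num)

lemma psi_one {x : X} (hx : ‖x‖ ≤ 5 / 8) : psi x = 1 :=
  bump.one_of_mem_closedBall (by simpa [bump] using hx)

lemma abs_psi_le (x : X) : |psi x| ≤ 1 := by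
  rw [abs_of_nonneg (show 0 ≤ psi x from bump.nonneg)]
  exact bump.le_one

lemma fderiv_psi {x : X} (hx : ‖x‖ < 5 / 8) : fderiv ℝ psi x = 0 := by
  have : psi =ᶠ[𝓝 x] fun _ => 1 := by
    filter_upwards [continuous_norm.continuousAt.eventually (gt_mem_nhds hx)] with z hz
    exact psi_one hz.le
  rw [this.fderiv_eq]; simp

lemma Phi_one (μ : ℝ) (y : X) : Phi (0 + 1) μ y = gg μ ‖y‖ • y := by
  simp only [Phi, Th, Finset.sum_const_zero, smul_zero, add_zero, rho]; module

lemma det_smul_id (c : ℝ) : (c • ContinuousLinearMap.id ℝ X).det = c ^ 2 := by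
  rw [det_X]; simp; ring

/-- the difference of integrands -/
noncomputable def H2 (x : X) : ℝ :=
  (ball (0 : X) (1 / 2)).indicator
    (fun x => 5 * Real.cos (T 4 * x.1) - Real.cos (F 1 x).1) x

lemma jint_eq : ∀ᵐ x : X, Jint psi (Phi (0 + 1) 1) (fderiv ℝ (Phi (0 + 1) 1)) x =
    J1 psi (F 1) (fderiv ℝ (F 1)) x + H2 x := by
  have hZ : ∀ᵐ x : X, x ∉ Z := by
    rw [ae_iff]; simpa using volume_Z
  filter_upwards [hZ] with x hxZ
  have hT : T (4 * 1) = T 4 := by norm_num
  rcases lt_trichotomy ‖x‖ (1 / 2) with h | h | h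
  · have h1 : Phi (0 + 1) 1 =ᶠ[𝓝 x] fun z => T 4 • z := by
      filter_upwards [continuous_norm.continuousAt.eventually (gt_mem_nhds h)] with z hz
      rw [Phi_one, gg_of_le hz.le, hT]
    have h2 : fderiv ℝ (Phi (0 + 1) 1) x = T 4 • ContinuousLinearMap.id ℝ X := by
      rw [h1.fderiv_eq]
      exact ((hasFDerivAt_id x).const_smul (T 4)).fderiv
    have h3 : x ∈ ball (0 : X) (1 / 2) := by simpa using h
    rw [Jint, J1, H2, indicator_of_mem h3, fderiv_psi (by linarith), psi_one (by linarith), h2,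
      det_smul_id, T_sq (by norm_num), h1.eq_of_nhds]
    simp
    ring
  · exfalso
    apply hxZ
    simp only [Z, mem_union, mem_sphere_iff_norm, sub_zero]
    simp [h]
  · have h3 : x ∉ ball (0 : X) (1 / 2) := by simpa using h.le
    rw [H2, indicator_of_notMem h3, add_zero]
    rcases lt_or_ge ‖x‖ 1 with h' | h'
    · rcases cover hxZ with h4 | ⟨s, h4⟩
      · rw [Jint, J1, fderiv_Phi_frame 0 (by norm_num) h, det_frame (by norm_num) h h' h4.2.1 h4.2.2,
          Phi_one, F_frame (by norm_num) h.le, mul_one]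
      · have := child_norm h4
        linarith
    · have h5 : x ∉ ball (0 : X) 1 := by simpa using h'
      rw [Jint, J1, psi_test.zero_off h5, psi_test.fderiv_zero_off h5]
      simp

lemma integrable_H2 : Integrable H2 := by
  have : Integrable ((ball (0 : X) (1 / 2)).indicator
    (fun x => 5 * Real.cos (T 4 * x.1) - Real.cos (F 1 x).1)) := by
    rw [integrable_indicator_iff measurableSet_ball]
    have h1 : Continuous fun x : X => 5 * Real.cos (T 4 * x.1) - Real.cos (F 1 x).1 := by
      have := continuous_F (μ := 1) (by norm_num)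
      fun_prop
    exact (h1.continuousOn.integrableOn_compact (isCompact_closedBall (0 : X) (1 / 2))).mono_set
      ball_subset_closedBall
  exact this

lemma volume_ball_half : volume (ball (0 : X) (1 / 2)) = 1 := by
  have : ball (0 : X) (1 / 2) = ball (0 : ℝ) (1 / 2) ×ˢ ball (0 : ℝ) (1 / 2) :=
    (ball_prod_same (0 : ℝ) (0 : ℝ) (1 / 2)).symm
  rw [this, Measure.volume_eq_prod, Measure.prod_prod, Real.volume_ball, ← ENNReal.ofReal_mul]
  · norm_num
  · norm_num

lemma integral_H2 : 7 / 8 ≤ ∫ x, H2 x := by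
  have h1 : ∫ x, (ball (0 : X) (1 / 2)).indicator (fun _ => (7 / 8 : ℝ)) x = 7 / 8 := by
    rw [integral_indicator measurableSet_ball, setIntegral_const, Measure.real, volume_ball_half]
    simp
  rw [← h1]
  apply integral_mono
  · rw [integrable_indicator_iff measurableSet_ball]
    exact integrableOn_const (by rw [volume_ball_half]; norm_num)
  · exact integrable_H2
  · intro x
    rw [H2]
    by_cases hx : x ∈ ball (0 : X) (1 / 2)
    · rw [indicator_of_mem hx, indicator_of_mem hx]
      rw [mem_ball_zero_iff, norm_lt_iff] at hx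
      have h2 := Real.one_sub_sq_div_two_le_cos (x := T 4 * x.1)
      have h3 := T_sq (μ := 4) (by norm_num)
      have h4 : x.1 ^ 2 ≤ 1 / 4 := by
        have := hx.1
        rw [abs_lt] at this
        nlinarith
      have h5 : (T 4 * x.1) ^ 2 ≤ 5 / 4 := by
        rw [mul_pow, h3]; linarith
      have h6 := Real.cos_le_one (F 1 x).1
      linarith
    · rw [indicator_of_notMem hx, indicator_of_notMem hx]

lemma integral_J1_F : ∫ x, J1 psi (F 1) (fderiv ℝ (F 1)) x ≤ - (7 / 8) := by
  obtain ⟨K, hK⟩ := Phi_lip (0 + 1) (μ := 1) (by norm_num)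
  have h1 : ∫ x, Jint psi (Phi (0 + 1) 1) (fderiv ℝ (Phi (0 + 1) 1)) x = 0 := by
    apply weak_jac isOpen_ball (WD_lip hK (ball 0 1)) _ psi_test
    intro A _ _
    exact ⟨K, Eventually.of_forall fun x => norm_fderiv_le_of_lipschitz ℝ hK⟩
  have h2 : Integrable (J1 psi (F 1) (fderiv ℝ (F 1))) :=
    integrable_J1 psi_test (continuous_F (by norm_num)).aestronglyMeasurable
      (integrableOn_fderiv_F (by norm_num))
  rw [integral_congr_ae jint_eq, integral_add h2 integrable_H2] at h1
  have := integral_H2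
  linarith

/-- pointwise estimate of the difference of integrands -/
lemma J1_diff {C1 : ℝ} (hC1 : ∀ x, ‖fderiv ℝ psi x‖ ≤ C1) (G : X → X) (D : X → X →L[ℝ] X)
    (x : X) (hx : ‖x‖ < 1) :
    |J1 psi G D x - J1 psi (F 1) (fderiv ℝ (F 1)) x| ≤
      (1 + 22 * T 1 * C1 + 2 * C1) * (‖G x - F 1 x‖ + ‖D x - fderiv ℝ (F 1) x‖) := by
  have hC10 : 0 ≤ C1 := (norm_nonneg _).trans (hC1 0)
  have hT := T_pos (μ := 1) (by norm_num)
  set F' := fderiv ℝ (F 1) x with hF'
  set g := ‖G x - F 1 x‖ with hg
  set d := ‖D x - F'‖ with hd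
  have hg0 : 0 ≤ g := norm_nonneg _
  have hd0 : 0 ≤ d := norm_nonneg _
  have h1 : |(G x).1 - (F 1 x).1| ≤ g := norm_fst_le (G x - F 1 x)
  have hcos : |Real.cos (G x).1 - Real.cos (F 1 x).1| ≤ g :=
    (Real.abs_cos_sub_cos_le _ _).trans h1
  have hsin : |Real.sin (G x).1 - Real.sin (F 1 x).1| ≤ g :=
    (Real.abs_sin_sub_sin_le _ _).trans h1
  have hpsi : ∀ w : X, ‖w‖ = 1 → |fderiv ℝ psi x w| ≤ C1 := fun w hw => by
    have := (fderiv ℝ psi x).le_opNorm w
    rw [hw, mul_one] at this
    exact this.trans (hC1 x)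
  have hdw : ∀ w : X, ‖w‖ = 1 → |(D x w).2 - (F' w).2| ≤ d := fun w hw => by
    have h2 := (D x - F').le_opNorm w
    rw [hw, mul_one] at h2
    exact (norm_snd_le ((D x - F') w)).trans h2
  have hFw : ∀ w w' : X, ‖w‖ = 1 → ‖w'‖ = 1 → |fderiv ℝ psi x w * (F' w').2| ≤ 11 * T 1 * C1 := by
    intro w w' hw hw'
    rcases lt_or_ge ‖x‖ (5 / 8) with h2 | h2
    · rw [fderiv_psi h2]; simp; positivity
    · rw [abs_mul]
      have h3 : |(F' w').2| ≤ 11 * T 1 := by
        have h4 := F'.le_opNorm w'
        rw [hw', mul_one] at h4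
        exact (_root_.norm_snd_le _).trans (h4.trans (norm_fderiv_frame (by norm_num) (by linarith)))
      calc |fderiv ℝ psi x w| * |(F' w').2| ≤ C1 * (11 * T 1) := by
            gcongr
            exact hpsi w hw
        _ = _ := by ring
  have key : J1 psi G D x - J1 psi (F 1) (fderiv ℝ (F 1)) x =
      psi x * (Real.cos (G x).1 - Real.cos (F 1 x).1) +
      (Real.sin (G x).1 - Real.sin (F 1 x).1) * (fderiv ℝ psi x e1 * (F' e2).2 -
        fderiv ℝ psi x e2 * (F' e1).2) +
      Real.sin (G x).1 * (fderiv ℝ psi x e1 * ((D x e2).2 - (F' e2).2) -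
        fderiv ℝ psi x e2 * ((D x e1).2 - (F' e1).2)) := by
    rw [J1, J1]; ring
  rw [key]
  have a1 : |psi x * (Real.cos (G x).1 - Real.cos (F 1 x).1)| ≤ g := by
    rw [abs_mul]
    calc |psi x| * |Real.cos (G x).1 - Real.cos (F 1 x).1| ≤ 1 * g := by
          gcongr
          exact abs_psi_le x
      _ = g := one_mul _
  have a2 : |(Real.sin (G x).1 - Real.sin (F 1 x).1) * (fderiv ℝ psi x e1 * (F' e2).2 -
        fderiv ℝ psi x e2 * (F' e1).2)| ≤ g * (22 * T 1 * C1) := by
    rw [abs_mul]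
    gcongr
    refine (abs_sub _ _).trans ?_
    have := hFw e1 e2 norm_e1 norm_e2
    have := hFw e2 e1 norm_e2 norm_e1
    linarith
  have a3 : |Real.sin (G x).1 * (fderiv ℝ psi x e1 * ((D x e2).2 - (F' e2).2) -
        fderiv ℝ psi x e2 * ((D x e1).2 - (F' e1).2))| ≤ 2 * C1 * d := by
    rw [abs_mul]
    calc |Real.sin (G x).1| * _ ≤ 1 * (C1 * d + C1 * d) := by
          gcongr
          · exact Real.abs_sin_le_one _
          · refine (abs_sub _ _).trans ?_
            rw [abs_mul, abs_mul]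
            gcongr
            · exact hpsi e1 norm_e1
            · exact hdw e2 norm_e2
            · exact hpsi e2 norm_e2
            · exact hdw e1 norm_e1
      _ = _ := by ring
  refine (abs_add_three _ _ _).trans ?_
  have b1 : 0 ≤ (1 + 22 * T 1 * C1) * d := by positivity
  have b2 : 0 ≤ 2 * C1 * g := by positivity
  nlinarith

/-- **Non-approximability.** -/
lemma non_approx : ∃ ε : ℝ, 0 < ε ∧ ∀ (G : X → X) (D : X → X →L[ℝ] X),
    WD (ball 0 1) G D → LB (ball 0 1) D →
    AEStronglyMeasurable G (volume.restrict (ball 0 1)) → IntegrableOn D (ball 0 1) →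
    (∀ᵐ x ∂(volume.restrict (ball (0 : X) 1)), (D x).det = 1) →
    ENNReal.ofReal ε ≤ (∫⁻ x in ball (0 : X) 1, ‖G x - F 1 x‖ₑ) +
      ∫⁻ x in ball (0 : X) 1, ‖D x - fderiv ℝ (F 1) x‖ₑ := by
  obtain ⟨C1, hC1⟩ := (psi_test.cpt.fderiv (𝕜 := ℝ)).exists_bound_of_continuous
    (psi_test.smooth.continuous_fderiv (by simp))
  have hC10 : 0 ≤ C1 := (norm_nonneg _).trans (hC1 0)
  have hT := T_pos (μ := 1) (by norm_num)
  set M := 1 + 22 * T 1 * C1 + 2 * C1 with hM
  have hM0 : 0 < M := by positivity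
  refine ⟨7 / 8 / M, by positivity, fun G D hWD hLB hG hD hdet => ?_⟩
  have h1 : ∫ x, Jint psi G D x = 0 := weak_jac isOpen_ball hWD hLB psi_test
  have h2 : Jint psi G D =ᵐ[volume] J1 psi G D := by
    rw [ae_restrict_iff' measurableSet_ball] at hdet
    filter_upwards [hdet] with x hx
    by_cases hxb : x ∈ ball (0 : X) 1
    · rw [Jint, J1, hx hxb, mul_one]
    · rw [Jint, J1, psi_test.zero_off hxb, psi_test.fderiv_zero_off hxb]; simp
  rw [integral_congr_ae h2] at h1
  have hi1 : Integrable (J1 psi G D) := integrable_J1 psi_test hG hD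
  have hi2 : Integrable (J1 psi (F 1) (fderiv ℝ (F 1))) :=
    integrable_J1 psi_test (continuous_F (by norm_num)).aestronglyMeasurable
      (integrableOn_fderiv_F (by norm_num))
  have h3 : 7 / 8 ≤ ∫ x, (J1 psi G D x - J1 psi (F 1) (fderiv ℝ (F 1)) x) := by
    rw [integral_sub hi1 hi2, h1]
    have := integral_J1_F
    linarith
  have h4 : ENNReal.ofReal (7 / 8) ≤ ENNReal.ofReal M *
      ((∫⁻ x in ball (0 : X) 1, ‖G x - F 1 x‖ₑ) +
      ∫⁻ x in ball (0 : X) 1, ‖D x - fderiv ℝ (F 1) x‖ₑ) := by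
    calc ENNReal.ofReal (7 / 8)
        ≤ ENNReal.ofReal ‖∫ x, (J1 psi G D x - J1 psi (F 1) (fderiv ℝ (F 1)) x)‖ := by
          apply ENNReal.ofReal_le_ofReal
          exact h3.trans (le_abs_self _)
      _ = ‖∫ x, (J1 psi G D x - J1 psi (F 1) (fderiv ℝ (F 1)) x)‖ₑ := by rw [ofReal_norm]
      _ ≤ ∫⁻ x, ‖J1 psi G D x - J1 psi (F 1) (fderiv ℝ (F 1)) x‖ₑ :=
          enorm_integral_le_lintegral_enorm _
      _ = ∫⁻ x in ball (0 : X) 1, ‖J1 psi G D x - J1 psi (F 1) (fderiv ℝ (F 1)) x‖ₑ := by
          symm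
          apply setLIntegral_eq_of_support_subset
          intro x hx
          by_contra hxb
          apply hx
          have e1 : J1 psi G D x = 0 := by
            rw [J1, psi_test.zero_off hxb, psi_test.fderiv_zero_off hxb]; simp
          have e2 : J1 psi (F 1) (fderiv ℝ (F 1)) x = 0 := by
            rw [J1, psi_test.zero_off hxb, psi_test.fderiv_zero_off hxb]; simp
          simp only [e1, e2, sub_self]; simp
      _ ≤ ∫⁻ x in ball (0 : X) 1, ENNReal.ofReal M *
            (‖G x - F 1 x‖ₑ + ‖D x - fderiv ℝ (F 1) x‖ₑ) := by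
          apply setLIntegral_mono' measurableSet_ball
          intro x hx
          rw [← ofReal_norm, ← ofReal_norm, ← ofReal_norm,
            ← ENNReal.ofReal_add (norm_nonneg _) (norm_nonneg _), ← ENNReal.ofReal_mul hM0.le]
          apply ENNReal.ofReal_le_ofReal
          exact J1_diff hC1 G D x (by simpa using hx)
      _ = _ := by
          rw [lintegral_const_mul' _ _ ENNReal.ofReal_ne_top, lintegral_add_left']
          exact (hG.sub (continuous_F (μ := 1) (by norm_num)).aestronglyMeasurable).enorm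
  rw [ENNReal.ofReal_div_of_pos hM0]
  exact ENNReal.div_le_of_le_mul' h4

end H777R2.Inc
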