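import Pool.Agent.H777R2.IncNA

/-! Uniqueness of weak differentials and transfer along linear charts. -/

open Set Filter Topology MeasureTheory Metric
open scoped ContDiff

namespace H777R2.Inc

section general

variable {V : Type*} [NormedAddCommGroup V] [NormedSpace ℝ V] [MeasurableSpace V] [BorelSpace V]

lemma int_test_smul {μ : Measure V} {U : Set V} {φ : V → ℝ} (hc : Continuous φ)
    (hs : HasCompactSupport φ) (hU : tsupport φ ⊆ U) {E : Type*} [NormedAddCommGroup E]
    [NormedSpace ℝ E] {g : V → E}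
    (hg : LocallyIntegrableOn g U μ) : Integrable (fun x => φ x • g x) μ := by
  have h1 : IntegrableOn g (tsupport φ) μ := hg.integrableOn_compact_subset hU hs
  obtain ⟨C, hC⟩ := hs.exists_bound_of_continuous hc
  have h2 : IntegrableOn (fun x => φ x • g x) (tsupport φ) μ :=
    h1.integrable.bdd_smul C (hc.stronglyMeasurable_of_hasCompactSupport hs).aestronglyMeasurable
      (Eventually.of_forall hC)
  refine (integrableOn_iff_integrable_of_support_subset ?_).1 h2
  intro x hx
  by_contra h
  apply hx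
  simp [image_eq_zero_of_notMem_tsupport h]

variable [FiniteDimensional ℝ V]

lemma weak_unique {μ : Measure V} [μ.IsAddHaarMeasure] {O : Set V} (hO : IsOpen O) {g : V → V}
    {D : V → V →L[ℝ] V} (hD : LocallyIntegrableOn D O μ)
    (h : ∀ φ : V → ℝ, ContDiff ℝ ∞ φ → HasCompactSupport φ → tsupport φ ⊆ O → ∀ v : V,
      ∫ x, (fderiv ℝ φ x v) • g x ∂μ = - ∫ x, φ x • D x v ∂μ)
    (hg : ContDiffOn ℝ 1 g O) : ∀ᵐ x ∂μ, x ∈ O → D x = fderiv ℝ g x := by
  have hg' : ContinuousOn (fderiv ℝ g) O := hg.continuousOn_fderiv_of_isOpen hO le_rfl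
  have hgD : LocallyIntegrableOn (fderiv ℝ g) O μ :=
    hg'.locallyIntegrableOn hO.measurableSet
  have key := IsOpen.ae_eq_zero_of_integral_contDiff_smul_eq_zero (μ := μ) hO
    (f := fun x => D x - fderiv ℝ g x) (hD.sub hgD) (by
      intro φ hφ hφc hφO
      have hi : Integrable (fun x => φ x • (D x - fderiv ℝ g x)) μ :=
        int_test_smul hφ.continuous hφc hφO (hD.sub hgD)
      ext v
      rw [ContinuousLinearMap.integral_apply hi]
      simp only [ContinuousLinearMap.zero_apply]
      have hi1 : Integrable (fun x => φ x • D x v) μ := by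
        have := int_test_smul hφ.continuous hφc hφO hD
        exact (ContinuousLinearMap.apply ℝ V v).integrable_comp this
      have hi2 : Integrable (fun x => φ x • fderiv ℝ g x v) μ := by
        have := int_test_smul hφ.continuous hφc hφO hgD
        exact (ContinuousLinearMap.apply ℝ V v).integrable_comp this
      have hcs : HasCompactSupport (fun x => fderiv ℝ φ x v) :=
        (hφc.fderiv (𝕜 := ℝ)).comp_left (g := fun A : V →L[ℝ] ℝ => A v) (by simp)
      have hts : tsupport (fun x => fderiv ℝ φ x v) ⊆ O := by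
        refine subset_trans ?_ ((tsupport_fderiv_subset ℝ (f := φ)).trans hφO)
        apply closure_mono
        intro x hx
        simp only [Function.mem_support] at hx ⊢
        intro h0; apply hx; rw [h0]; simp
      have hi3 : Integrable (fun x => fderiv ℝ φ x v • g x) μ :=
        int_test_smul ((hφ.continuous_fderiv (by simp)).clm_apply continuous_const) hcs hts
          (hg.continuousOn.locallyIntegrableOn hO.measurableSet)
      have hi4 : Integrable (fun x => φ x • g x) μ :=
        int_test_smul hφ.continuous hφc hφO (hg.continuousOn.locallyIntegrableOn hO.measurableSet)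
      have h1 := integral_smul_fderiv_eq_neg_fderiv_smul_of_integrable hi3 hi2 hi4
        (fun x _ => (hφ.differentiable (by simp)) x)
        (fun x hx => ((hg.contDiffAt (hO.mem_nhds (hφO hx))).differentiableAt (by simp)))
      have h2 := h φ hφ hφc hφO v
      have h3 : ∀ x, (φ x • (D x - fderiv ℝ g x)) v = φ x • D x v - φ x • fderiv ℝ g x v := by
        intro x; simp [smul_sub]
      simp only [h3]
      rw [integral_sub hi1 hi2, h1, h2]; simp)
  filter_upwards [key] with x hx hxO
  exact sub_eq_zero.1 (hx hxO)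

end general

section transfer

variable {V W : Type*} [NormedAddCommGroup V] [NormedSpace ℝ V] [MeasurableSpace V] [BorelSpace V]
  [NormedAddCommGroup W] [NormedSpace ℝ W] [MeasurableSpace W] [BorelSpace W]
  {μ : Measure V} {ν : Measure W}

/-- transport of a map -/
def tr (A : V ≃L[ℝ] W) (g : V → V) : W → W := fun x => A (g (A.symm x))

/-- transport of a differential -/
noncomputable def trD (A : V ≃L[ℝ] W) (D : V → V →L[ℝ] V) : W → W →L[ℝ] W :=
  fun x => A.arrowCongr A (D (A.symm x))

lemma trD_apply (A : V ≃L[ℝ] W) (D : V → V →L[ℝ] V) (x w : W) :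
    trD A D x w = A (D (A.symm x) (A.symm w)) := rfl

lemma det_trD (A : V ≃L[ℝ] W) (D : V → V →L[ℝ] V) (x : W) :
    (trD A D x).det = (D (A.symm x)).det := by
  exact LinearMap.det_conj (D (A.symm x)).toLinearMap A.toLinearEquiv

lemma locInt_tr (A : V ≃L[ℝ] W) (hA : MeasurePreserving A μ ν) {U : Set V} {E E' : Type*}
    [NormedAddCommGroup E] [NormedSpace ℝ E] [NormedAddCommGroup E'] [NormedSpace ℝ E']
    (L : E →L[ℝ] E') {g : V → E} (hg : LocallyIntegrableOn g U μ) :
    LocallyIntegrableOn (fun x => L (g (A.symm x))) (A.symm ⁻¹' U) ν := by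
  intro x hx
  obtain ⟨s, hs, h1⟩ := hg (A.symm x) hx
  refine ⟨A.symm ⁻¹' s, ?_, ?_⟩
  · have : ContinuousWithinAt A.symm (A.symm ⁻¹' U) x := A.symm.continuous.continuousWithinAt
    exact this.preimage_mem_nhdsWithin' (nhdsWithin_mono _ (image_preimage_subset _ _) hs)
  · have hA' : MeasurePreserving A.symm ν μ := hA.symm A.toHomeomorph.toMeasurableEquiv
    have h2 : IntegrableOn (fun x => g (A.symm x)) (A.symm ⁻¹' s) ν :=
      (hA'.integrableOn_comp_preimage A.symm.toHomeomorph.measurableEmbedding).2 h1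
    exact L.integrable_comp h2

lemma ibp_tr (A : V ≃L[ℝ] W) (hA : MeasurePreserving A μ ν) {U : Set V}
    {g : V → V} {D : V → V →L[ℝ] V} (hg : LocallyIntegrableOn g U μ)
    (hD : LocallyIntegrableOn D U μ)
    (h : ∀ φ : V → ℝ, ContDiff ℝ ∞ φ → HasCompactSupport φ → tsupport φ ⊆ U → ∀ v : V,
      ∫ x in U, (fderiv ℝ φ x v) • g x ∂μ = - ∫ x in U, φ x • D x v ∂μ)
    (φ : W → ℝ) (hφ : ContDiff ℝ ∞ φ) (hφc : HasCompactSupport φ)
    (hφU : tsupport φ ⊆ A.symm ⁻¹' U) (w : W) :
    ∫ x in A.symm ⁻¹' U, (fderiv ℝ φ x w) • tr A g x ∂ν =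
      - ∫ x in A.symm ⁻¹' U, φ x • trD A D x w ∂ν := by
  have hA' : MeasurePreserving A.symm ν μ := hA.symm A.toHomeomorph.toMeasurableEquiv
  have hemb : MeasurableEmbedding A.symm := A.symm.toHomeomorph.measurableEmbedding
  set ψ : V → ℝ := fun y => φ (A y) with hψdef
  have hψ : ContDiff ℝ ∞ ψ := hφ.comp A.contDiff
  have hψc : HasCompactSupport ψ := hφc.comp_homeomorph A.toHomeomorph
  have hts : tsupport ψ ⊆ U := by
    have h1 : tsupport ψ ⊆ A ⁻¹' tsupport φ := by
      apply closure_minimal _ ((isClosed_tsupport φ).preimage A.continuous)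
      intro y hy
      exact subset_tsupport φ hy
    intro y hy
    have := hφU (h1 hy)
    simpa using this
  have hfd : ∀ x w, fderiv ℝ φ x w = fderiv ℝ ψ (A.symm x) (A.symm w) := by
    intro x w
    have h1 : fderiv ℝ ψ (A.symm x) = (fderiv ℝ φ (A (A.symm x))).comp (A : V →L[ℝ] W) :=
      A.comp_right_fderiv (f := φ)
    rw [h1]; simp
  have h2 := h ψ hψ hψc hts (A.symm w)
  have hcs : HasCompactSupport (fun x => fderiv ℝ ψ x (A.symm w)) :=
    (hψc.fderiv (𝕜 := ℝ)).comp_left (g := fun B : V →L[ℝ] ℝ => B (A.symm w)) (by simp)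
  have hts' : tsupport (fun x => fderiv ℝ ψ x (A.symm w)) ⊆ U := by
    refine subset_trans ?_ ((tsupport_fderiv_subset ℝ (f := ψ)).trans hts)
    apply closure_mono
    intro x hx
    simp only [Function.mem_support] at hx ⊢
    intro h0; apply hx; rw [h0]; simp
  have hi1 : Integrable (fun y => (fderiv ℝ ψ y (A.symm w)) • g y) (μ.restrict U) :=
    (int_test_smul ((hψ.continuous_fderiv (by simp)).clm_apply continuous_const) hcs hts' hg).restrict
  have hi2 : Integrable (fun y => ψ y • D y (A.symm w)) (μ.restrict U) := by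
    have := int_test_smul hψ.continuous hψc hts hD
    exact ((ContinuousLinearMap.apply ℝ V (A.symm w)).integrable_comp this).restrict
  have h3 : ∫ x in A.symm ⁻¹' U, (fderiv ℝ φ x w) • tr A g x ∂ν =
      ∫ y in U, (fderiv ℝ ψ y (A.symm w)) • A (g y) ∂μ := by
    rw [← hA'.setIntegral_preimage_emb hemb]
    simp only [hfd, tr]
  have h4 : ∫ x in A.symm ⁻¹' U, φ x • trD A D x w ∂ν =
      ∫ y in U, ψ y • A (D y (A.symm w)) ∂μ := by
    rw [← hA'.setIntegral_preimage_emb hemb]
    simp only [trD_apply, hψdef, ContinuousLinearEquiv.apply_symm_apply]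
  rw [h3, h4]
  have h5 : ∫ y in U, (fderiv ℝ ψ y (A.symm w)) • A (g y) ∂μ =
      A (∫ y in U, (fderiv ℝ ψ y (A.symm w)) • g y ∂μ) := by
    rw [← A.integral_comp_comm]; simp
  have h6 : ∫ y in U, ψ y • A (D y (A.symm w)) ∂μ = A (∫ y in U, ψ y • D y (A.symm w) ∂μ) := by
    rw [← A.integral_comp_comm]; simp
  rw [h5, h6, h2, map_neg]

lemma memLp_tr (A : V ≃L[ℝ] W) (hA : MeasurePreserving A μ ν) {U : Set V} (hU : MeasurableSet U)
    {E E' : Type*} [NormedAddCommGroup E] [NormedSpace ℝ E] [NormedAddCommGroup E']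
    [NormedSpace ℝ E'] (L : E →L[ℝ] E') {g : V → E} {p : ENNReal}
    (hg : MemLp g p (μ.restrict U)) :
    MemLp (fun x => L (g (A.symm x))) p (ν.restrict (A.symm ⁻¹' U)) := by
  have hA' : MeasurePreserving A.symm ν μ := hA.symm A.toHomeomorph.toMeasurableEquiv
  have h1 := hA'.restrict_preimage hU
  exact L.comp_memLp' (hg.comp_measurePreserving h1)

lemma ae_tr (A : V ≃L[ℝ] W) (hA : MeasurePreserving A μ ν) {U : Set V} (hU : MeasurableSet U)
    {P : V → Prop} (hP : ∀ᵐ x ∂(μ.restrict U), P x) :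
    ∀ᵐ x ∂(ν.restrict (A.symm ⁻¹' U)), P (A.symm x) := by
  have hA' : MeasurePreserving A.symm ν μ := hA.symm A.toHomeomorph.toMeasurableEquiv
  exact (hA'.restrict_preimage hU).quasiMeasurePreserving.ae hP

lemma lint_tr (A : V ≃L[ℝ] W) (hA : MeasurePreserving A μ ν) {U : Set V} (h : V → ENNReal) :
    ∫⁻ x in A.symm ⁻¹' U, h (A.symm x) ∂ν = ∫⁻ y in U, h y ∂μ := by
  have hA' : MeasurePreserving A.symm ν μ := hA.symm A.toHomeomorph.toMeasurableEquiv
  exact hA'.setLIntegral_comp_preimage_emb A.symm.toHomeomorph.measurableEmbedding h U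

end transfer

end H777R2.Inc
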