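import Pool.Agent.H777R2.Cross

set_option autoImplicit false
open Complex Set Topology Metric

namespace Pool.Agent.H777R2

/-- The abstract data: a continuous map of the closed disc, injective on the circle, all of whose
real linear images are real parts of holomorphic functions, and which maps the open disc
into bounded components of the complement of the image of the circle. -/
structure Setup (F : ℂ → ℂ) : Prop where
  cont : ContinuousOn F (closedBall 0 1)
  inj : InjOn F (sphere 0 1)
  harm : ∀ a : ℂ, ∃ H : ℂ → ℂ, DifferentiableOn ℂ H (ball 0 1) ∧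
    ∀ z ∈ ball (0:ℂ) 1, (H z).re = (a * F z).re
  notMem : ∀ z ∈ ball (0:ℂ) 1, F z ∉ F '' sphere 0 1
  bdd : ∀ z ∈ ball (0:ℂ) 1, Bornology.IsBounded (connectedComponentIn (F '' sphere 0 1)ᶜ (F z))

theorem isPreconnected_ball' : IsPreconnected (ball (0:ℂ) 1) := (convex_ball 0 1).isPreconnected

theorem const_of_localMax {H : ℂ → ℂ} (hH : DifferentiableOn ℂ H (ball 0 1)) {x : ℂ}
    (hx : x ∈ ball (0:ℂ) 1) (hmax : ∀ᶠ y in 𝓝 x, (H y).re ≤ (H x).re) :
    ∀ z ∈ ball (0:ℂ) 1, (H z).re = (H x).re := by
  have hE : DifferentiableOn ℂ (fun z => exp (H z)) (ball 0 1) := hH.cexp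
  have hA : AnalyticOnNhd ℂ (fun z => exp (H z)) (ball 0 1) := hE.analyticOnNhd isOpen_ball
  have hd : ∀ᶠ z in 𝓝 x, DifferentiableAt ℂ (fun z => exp (H z)) z := by
    filter_upwards [isOpen_ball.mem_nhds hx] with z hz
    exact hE.differentiableAt (isOpen_ball.mem_nhds hz)
  have hloc : IsLocalMax (norm ∘ fun z => exp (H z)) x := by
    filter_upwards [hmax] with y hy
    simp only [Function.comp_apply, norm_exp]
    exact Real.exp_le_exp.2 hy
  have hev := Complex.eventually_eq_of_isLocalMax_norm hd hloc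
  have hc : AnalyticOnNhd ℂ (fun _ : ℂ => exp (H x)) (ball 0 1) := analyticOnNhd_const
  have heq := hA.eqOn_of_preconnected_of_eventuallyEq hc isPreconnected_ball' hx hev
  intro z hz
  have h1 := heq hz
  have h2 := congrArg norm h1
  simp only [norm_exp] at h2
  exact Real.exp_injective h2

theorem const_of_localMin {H : ℂ → ℂ} (hH : DifferentiableOn ℂ H (ball 0 1)) {x : ℂ}
    (hx : x ∈ ball (0:ℂ) 1) (hmin : ∀ᶠ y in 𝓝 x, (H x).re ≤ (H y).re) :
    ∀ z ∈ ball (0:ℂ) 1, (H z).re = (H x).re := by
  have := const_of_localMax (H := fun z => - H z) hH.neg hx (by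
    filter_upwards [hmin] with y hy
    simpa using hy)
  intro z hz
  have h := this z hz
  simpa using h

theorem not_const {F : ℂ → ℂ} (S : Setup F) {a : ℂ} (ha : a ≠ 0) (c : ℝ)
    (h : ∀ z ∈ ball (0:ℂ) 1, (a * F z).re = c) : False := by
  -- extend to the closed ball by continuity
  have hcl : ∀ z ∈ closedBall (0:ℂ) 1, (a * F z).re = c := by
    have h1 : closedBall (0:ℂ) 1 = closure (ball 0 1) := (closure_ball 0 one_ne_zero).symm
    intro z hz
    have hc : ContinuousOn (fun z => (a * F z).re) (closedBall 0 1) :=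
      continuous_re.comp_continuousOn (continuousOn_const.mul S.cont)
    have hzc : z ∈ closure (ball (0:ℂ) 1) := h1 ▸ hz
    have := (hc z hz).mono ball_subset_closedBall
    have hne : (𝓝[ball (0:ℂ) 1] z).NeBot := mem_closure_iff_nhdsWithin_neBot.1 hzc
    have h2 : Filter.Tendsto (fun z => (a * F z).re) (𝓝[ball (0:ℂ) 1] z) (𝓝 ((a * F z).re)) := this
    have h3 : Filter.Tendsto (fun z => (a * F z).re) (𝓝[ball (0:ℂ) 1] z) (𝓝 c) := by
      refine (tendsto_const_nhds (x := c)).congr' ?_
      filter_upwards [self_mem_nhdsWithin] with y hy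
      exact (h y hy).symm
    exact tendsto_nhds_unique h2 h3
  -- IVT on the circle
  set f : ℝ → ℝ := fun t => (a * F (exp (t * I))).im - (a * F (exp ((t + Real.pi : ℝ) * I))).im
    with hf
  have hm : ∀ t : ℝ, exp (t * I) ∈ closedBall (0:ℂ) 1 := fun t => by
    simp [norm_exp_ofReal_mul_I]
  have hs : ∀ t : ℝ, exp (t * I) ∈ sphere (0:ℂ) 1 := fun t => by
    simp [norm_exp_ofReal_mul_I]
  have hFc : Continuous fun t : ℝ => F (exp (t * I)) :=
    S.cont.comp_continuous (by fun_prop) hm
  have hFc2 : Continuous fun t : ℝ => F (exp ((t + Real.pi : ℝ) * I)) :=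
    S.cont.comp_continuous (by fun_prop) (fun t => hm _)
  have hfc : Continuous f := by
    refine (continuous_im.comp (continuous_const.mul hFc)).sub
      (continuous_im.comp (continuous_const.mul hFc2))
  have hfpi : f Real.pi = - f 0 := by
    simp only [hf]
    have : ((Real.pi + Real.pi : ℝ) : ℂ) * I = 2 * Real.pi * I := by push_cast; ring
    rw [this, exp_two_pi_mul_I]
    simp
  obtain ⟨t, ht⟩ : ∃ t, f t = 0 := by
    rcases le_total (f 0) 0 with h0 | h0
    · obtain ⟨t, ht⟩ := mem_range_of_exists_le_of_exists_ge hfc ⟨0, h0⟩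
        ⟨Real.pi, by rw [hfpi]; linarith⟩
      exact ⟨t, ht⟩
    · obtain ⟨t, ht⟩ := mem_range_of_exists_le_of_exists_ge hfc
        ⟨Real.pi, show f Real.pi ≤ 0 by rw [hfpi]; linarith⟩ ⟨0, h0⟩
      exact ⟨t, ht⟩
  have h5 : a * F (exp (t * I)) = a * F (exp ((t + Real.pi : ℝ) * I)) := by
    apply Complex.ext
    · rw [hcl _ (hm _), hcl _ (hm _)]
    · exact sub_eq_zero.1 ht
  have h6 := mul_left_cancel₀ ha h5
  have h7 := S.inj (hs _) (hs _) h6
  rw [show ((t + Real.pi : ℝ) : ℂ) * I = t * I + Real.pi * I by push_cast; ring, exp_add,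
    exp_pi_mul_I] at h7
  have h8 := exp_ne_zero ((t:ℂ) * I)
  apply h8
  linear_combination h7 / 2

/-- maximum principle -/
theorem maxP {F : ℂ → ℂ} (S : Setup F) {a : ℂ} (ha : a ≠ 0) (c : ℝ) {G : Set ℂ} (hG : IsOpen G)
    (hne : G.Nonempty) (hsub : G ⊆ ball 0 1) (hfr : ∀ z ∈ frontier G, (a * F z).re = c) :
    False := by
  obtain ⟨H, hH, hHF⟩ := S.harm a
  have hclos : closure G ⊆ closedBall (0:ℂ) 1 :=
    closure_minimal (hsub.trans ball_subset_closedBall) isClosed_closedBall
  have hcomp : IsCompact (closure G) := (isCompact_closedBall (0:ℂ) 1).of_isClosed_subset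
    isClosed_closure hclos
  have hcont : ContinuousOn (fun z => (a * F z).re) (closure G) :=
    (continuous_re.comp_continuousOn (continuousOn_const.mul S.cont)).mono hclos
  obtain ⟨x, hx, hxmax⟩ := hcomp.exists_isMaxOn hne.closure hcont
  obtain ⟨y, hy, hymin⟩ := hcomp.exists_isMinOn hne.closure hcont
  have hmem : ∀ w ∈ closure G, (a * F w).re ≠ c → w ∈ G := by
    intro w hw hwc
    by_contra hwG
    apply hwc
    apply hfr
    rw [frontier, hG.interior_eq]
    exact ⟨hw, hwG⟩
  have hconst : ∀ w ∈ ball (0:ℂ) 1, (∀ z ∈ ball (0:ℂ) 1, (H z).re = (H w).re) → False := by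
    intro w hw h
    refine not_const S ha ((H w).re) (fun z hz => ?_)
    rw [← hHF z hz, h z hz]
  have hmaxcase : ∀ w ∈ G, (∀ z ∈ G, (a * F z).re ≤ (a * F w).re) → False := by
    intro w hw h
    refine hconst w (hsub hw) (const_of_localMax hH (hsub hw) ?_)
    filter_upwards [hG.mem_nhds hw] with z hz
    rw [hHF z (hsub hz), hHF w (hsub hw)]
    exact h z hz
  have hmincase : ∀ w ∈ G, (∀ z ∈ G, (a * F w).re ≤ (a * F z).re) → False := by
    intro w hw h
    refine hconst w (hsub hw) (const_of_localMin hH (hsub hw) ?_)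
    filter_upwards [hG.mem_nhds hw] with z hz
    rw [hHF z (hsub hz), hHF w (hsub hw)]
    exact h z hz
  by_cases h1 : (a * F x).re = c
  · by_cases h2 : (a * F y).re = c
    · obtain ⟨w, hw⟩ := hne
      refine hmaxcase w hw (fun z hz => ?_)
      have e1 : (a * F z).re ≤ (a * F x).re := hxmax (subset_closure hz)
      have e2 : (a * F y).re ≤ (a * F w).re := hymin (subset_closure hw)
      linarith
    · exact hmincase y (hmem y hy h2) (fun z hz => hymin (subset_closure hz))
  · exact hmaxcase x (hmem x hx h1) (fun z hz => hxmax (subset_closure hz))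

/-- components of open sets are relatively closed -/
theorem comp_closed {U : Set ℂ} (hU : IsOpen U) {x y : ℂ}
    (hy : y ∈ closure (connectedComponentIn U x)) (hyU : y ∈ U) :
    y ∈ connectedComponentIn U x := by
  obtain ⟨ε, hε, hball⟩ := Metric.isOpen_iff.1 hU y hyU
  obtain ⟨z, hz, hzb⟩ := Metric.mem_closure_iff.1 hy ε hε
  have hzU : z ∈ U := connectedComponentIn_subset _ _ hz
  have h1 : connectedComponentIn U x = connectedComponentIn U z :=
    connectedComponentIn_eq hz
  rw [h1]
  have hpre : IsPreconnected (ball y ε) := (convex_ball y ε).isPreconnected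
  exact hpre.subset_connectedComponentIn (mem_ball.2 (by rwa [dist_comm])) hball (mem_ball_self hε)

theorem comp_frontier {U : Set ℂ} (hU : IsOpen U) {x y : ℂ}
    (hy : y ∈ frontier (connectedComponentIn U x)) : y ∉ U := by
  intro hyU
  have h1 := comp_closed hU (frontier_subset_closure hy) hyU
  rw [frontier, hU.connectedComponentIn.interior_eq] at hy
  exact hy.2 h1

end Pool.Agent.H777R2
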