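import Pool.Agent.H777R2.CC

set_option autoImplicit false
open Complex Set Topology Metric

namespace Pool.Agent.H777R2

variable {F : ℂ → ℂ} {p e : ℂ} {t1 t2 : ℝ} {α β : ℂ}

theorem base_mem (S : Setup F) (C : CC F p e t1 t2 α β) {s : ℝ} (hs0 : s ≠ 0)
    (hs : |s| ≤ DD F p e 0 / 2) :
    p + (0:ℝ) * e + (s : ℂ) * (I * e) ∈ (F '' sphere 0 1 ∪ Iset p e t1 t2)ᶜ := by
  have hpos := DD_pos S C (t := 0) (by linarith [C.ht2]) C.ht1
  refine memO_of (t := 0) C.he ?_ ?_
  · rw [dist_eq_norm, add_sub_cancel_left, norm_Ie C.he]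
    linarith
  · rw [ell_coord C.he]
    exact hs0

theorem memV_of (C : CC F p e t1 t2 α β) {t : ℝ} (h2 : -t2 ≤ t) (h1 : t ≤ t1) (h0 : t ≠ 0) :
    p + t * e ∈ (F '' sphere 0 1 ∪ Iset p e t1 t2) \ {p} := by
  refine ⟨?_, ?_⟩
  · rw [clI_eq C]
    exact Or.inr ⟨t, ⟨h2, h1⟩, rfl⟩
  · rw [mem_singleton_iff]
    intro h
    have : (t : ℂ) * e = 0 := by linear_combination h
    rcases mul_eq_zero.1 this with h | h
    · exact h0 (ofReal_eq_zero.1 h)
    · have := C.he
      rw [h] at this
      simp at this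

theorem joined_line {V : Set ℂ} {a b : ℝ} (f : ℝ → ℂ) (hf : Continuous f)
    (h : ∀ t, min a b ≤ t → t ≤ max a b → f t ∈ V) : JoinedIn V (f a) (f b) := by
  refine JoinedIn.ofLine (f := fun τ => f (a + τ * (b - a))) (Continuous.continuousOn (by fun_prop))
    (by simp) (by simp) ?_
  rintro _ ⟨τ, hτ, rfl⟩
  have h0 : 0 ≤ τ := hτ.1
  have h1 : τ ≤ 1 := hτ.2
  refine h _ ?_ ?_
  · rcases le_total a b with hab | hab
    · rw [min_eq_left hab]; nlinarith
    · rw [min_eq_right hab]; nlinarith
  · rcases le_total a b with hab | hab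
    · rw [max_eq_right hab]; nlinarith
    · rw [max_eq_left hab]; nlinarith

theorem VV_disjoint (S : Setup F) (C : CC F p e t1 t2 α β) :
    Disjoint (VV F p e t1 t2 1) (VV F p e t1 t2 (-1)) := by
  by_contra hcon
  rw [Set.not_disjoint_iff] at hcon
  obtain ⟨w, hw1, hw2⟩ := hcon
  have hpos := DD_pos S C (t := 0) (by linarith [C.ht2]) C.ht1
  set D := DD F p e 0 with hD
  have heq : VV F p e t1 t2 1 = VV F p e t1 t2 (-1) := by
    unfold VV
    rw [connectedComponentIn_eq hw1, connectedComponentIn_eq hw2]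
  have hb1 : p + (0:ℝ) * e + ((1 * (D / 2) : ℝ) : ℂ) * (I * e) ∈ VV F p e t1 t2 1 :=
    mem_connectedComponentIn (base_mem S C (by rw [one_mul]; positivity)
      (by rw [one_mul, abs_of_pos (by positivity)]))
  have hb2 : p + (0:ℝ) * e + ((-1 * (D / 2) : ℝ) : ℂ) * (I * e) ∈ VV F p e t1 t2 1 := by
    rw [heq]
    exact mem_connectedComponentIn (base_mem S C (by
      have : -1 * (D / 2) < 0 := by linarith
      exact this.ne)
      (by rw [neg_one_mul, abs_neg, abs_of_pos (by positivity)]))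
  have hopen : IsOpen (VV F p e t1 t2 1) := (isOpen_O S C).connectedComponentIn
  have hconn : IsConnected (VV F p e t1 t2 1) := ⟨⟨_, hb1⟩, isPreconnected_connectedComponentIn⟩
  have hpc := hopen.isConnected_iff_isPathConnected.1 hconn
  have hj : JoinedIn (F '' sphere 0 1 ∪ Iset p e t1 t2)ᶜ
      (p + (0:ℝ) * e + ((-1 * (D / 2) : ℝ) : ℂ) * (I * e))
      (p + (0:ℝ) * e + ((1 * (D / 2) : ℝ) : ℂ) * (I * e)) :=
    (hpc.joinedIn _ hb2 _ hb1).mono (connectedComponentIn_subset _ _)
  set r := min (D / 2) (min (t1 / 2) (t2 / 2)) with hr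
  have ht1 := C.ht1
  have ht2 := C.ht2
  have hr0 : 0 < r := lt_min (by positivity) (lt_min (by positivity) (by positivity))
  have hrD : r ≤ D / 2 := min_le_left _ _
  have hrt1 : r ≤ t1 / 2 := (min_le_right _ _).trans (min_le_left _ _)
  have hrt2 : r ≤ t2 / 2 := (min_le_right _ _).trans (min_le_right _ _)
  set θ := arg e with hθ
  have hee : exp ((θ : ℂ) * I) = e := by
    have := norm_mul_exp_arg_mul_I e
    rw [C.he] at this
    simpa using this
  have d0 : exp (((θ - Real.pi / 2 : ℝ) : ℂ) * I) = -(I * e) := by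
    rw [show ((θ - Real.pi / 2 : ℝ) : ℂ) * I = θ * I - Real.pi / 2 * I by push_cast; ring, exp_sub,
      hee, exp_pi_div_two_mul_I, div_I]
    ring
  have d1 : exp (((θ + Real.pi / 2 : ℝ) : ℂ) * I) = I * e := by
    rw [show ((θ + Real.pi / 2 : ℝ) : ℂ) * I = θ * I + Real.pi / 2 * I by push_cast; ring, exp_add,
      hee, exp_pi_div_two_mul_I]
    ring
  have d2 : exp (((θ + Real.pi : ℝ) : ℂ) * I) = -e := by
    rw [show ((θ + Real.pi : ℝ) : ℂ) * I = θ * I + Real.pi * I by push_cast; ring, exp_add,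
      hee, exp_pi_mul_I]
    ring
  have hpi := Real.pi_pos
  have hUm : ∀ t : ℝ, 0 < t → t ≤ r → p + t * exp (((θ - Real.pi / 2 : ℝ) : ℂ) * I) ∈
      (F '' sphere 0 1 ∪ Iset p e t1 t2)ᶜ := by
    intro t h0 h1
    have := base_mem S C (s := -t) (by linarith) (by rw [abs_neg, abs_of_pos h0]; linarith)
    rw [d0]
    convert this using 1
    push_cast
    ring
  have hUp : ∀ t : ℝ, 0 < t → t ≤ r → p + t * exp (((θ + Real.pi / 2 : ℝ) : ℂ) * I) ∈
      (F '' sphere 0 1 ∪ Iset p e t1 t2)ᶜ := by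
    intro t h0 h1
    have := base_mem S C (s := t) (by linarith) (by rw [abs_of_pos h0]; linarith)
    rw [d1]
    convert this using 1
    push_cast
    ring
  have hVp : ∀ t : ℝ, 0 < t → t ≤ r → p + t * exp ((θ : ℂ) * I) ∈
      (F '' sphere 0 1 ∪ Iset p e t1 t2) \ {p} := by
    intro t h0 h1
    rw [hee]
    exact memV_of C (by linarith) (by linarith) (by linarith)
  have hVm : ∀ t : ℝ, 0 < t → t ≤ r → p + t * exp (((θ + Real.pi : ℝ) : ℂ) * I) ∈
      (F '' sphere 0 1 ∪ Iset p e t1 t2) \ {p} := by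
    intro t h0 h1
    rw [d2]
    have := memV_of C (t := -t) (by linarith) (by linarith) (by linarith)
    convert this using 1
    push_cast
    ring
  have hp : p ∉ F '' sphere 0 1 := by
    have := C.hI 0 (by linarith) ht1
    simpa using this
  -- joined in U
  have hjU : JoinedIn (F '' sphere 0 1 ∪ Iset p e t1 t2)ᶜ
      (p + r * exp (((θ - Real.pi / 2 : ℝ) : ℂ) * I))
      (p + r * exp (((θ + Real.pi / 2 : ℝ) : ℂ) * I)) := by
    have s1 := joined_line (V := (F '' sphere 0 1 ∪ Iset p e t1 t2)ᶜ) (a := -r) (b := -1 * (D / 2))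
      (fun s => p + (0:ℝ) * e + (s : ℂ) * (I * e)) (by fun_prop) (by
        intro t h1 h2
        rw [min_eq_right (by linarith)] at h1
        rw [max_eq_left (by linarith)] at h2
        exact base_mem S C (by linarith) (by rw [abs_of_neg (by linarith)]; linarith))
    have s2 := joined_line (V := (F '' sphere 0 1 ∪ Iset p e t1 t2)ᶜ) (a := 1 * (D / 2)) (b := r)
      (fun s => p + (0:ℝ) * e + (s : ℂ) * (I * e)) (by fun_prop) (by
        intro t h1 h2
        rw [min_eq_right (by linarith)] at h1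
        rw [max_eq_left (by linarith)] at h2
        exact base_mem S C (by linarith) (by rw [abs_of_pos (by linarith)]; linarith))
    have s3 := (s1.trans hj).trans s2
    rw [d0, d1]
    convert s3 using 1
    · push_cast; ring
    · push_cast; ring
  -- joined in V
  have hjV : JoinedIn ((F '' sphere 0 1 ∪ Iset p e t1 t2) \ {p})
      (p + r * exp ((θ : ℂ) * I))
      (p + r * exp (((θ + Real.pi : ℝ) : ℂ) * I)) := by
    have s1 := joined_line (V := (F '' sphere 0 1 ∪ Iset p e t1 t2) \ {p}) (a := r) (b := t1)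
      (fun s => p + (s : ℂ) * e) (by fun_prop) (by
        intro t h1 h2
        rw [min_eq_left (by linarith)] at h1
        rw [max_eq_right (by linarith)] at h2
        exact memV_of C (by linarith) (by linarith) (by linarith))
    have s3 := joined_line (V := (F '' sphere 0 1 ∪ Iset p e t1 t2) \ {p}) (a := -t2) (b := -r)
      (fun s => p + (s : ℂ) * e) (by fun_prop) (by
        intro t h1 h2
        rw [min_eq_left (by linarith)] at h1
        rw [max_eq_right (by linarith)] at h2
        exact memV_of C (by linarith) (by linarith) (by linarith))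
    have hα' : exp ((arg α : ℂ) * I) = α := by
      have h1 := norm_mul_exp_arg_mul_I α
      have h2 := C.hα
      rw [mem_sphere_zero_iff_norm] at h2
      rw [h2] at h1
      simpa using h1
    have hβ' : exp ((arg β : ℂ) * I) = β := by
      have h1 := norm_mul_exp_arg_mul_I β
      have h2 := C.hβ
      rw [mem_sphere_zero_iff_norm] at h2
      rw [h2] at h1
      simpa using h1
    have s2 := joined_line (V := (F '' sphere 0 1 ∪ Iset p e t1 t2) \ {p}) (a := arg α)
      (b := arg β) (fun s => F (exp ((s : ℂ) * I)))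
      (S.cont.comp_continuous (by fun_prop) (fun t => by simp [norm_exp_ofReal_mul_I])) (by
        intro t _ _
        have hm : F (exp ((t : ℂ) * I)) ∈ F '' sphere 0 1 :=
          ⟨_, by simp [norm_exp_ofReal_mul_I], rfl⟩
        refine ⟨Or.inl hm, ?_⟩
        rw [mem_singleton_iff]
        intro h
        exact hp (h ▸ hm))
    simp only [hα', hβ', C.Fα, C.Fβ] at s2
    have s2' : JoinedIn ((F '' sphere 0 1 ∪ Iset p e t1 t2) \ {p}) (p + (t1:ℂ) * e)
        (p + ((-t2 : ℝ) : ℂ) * e) := by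
      convert s2 using 1
      push_cast; ring
    have s4 := (s1.trans s2').trans s3
    rw [hee, d2]
    convert s4 using 1
    push_cast; ring
  refine no_alternate (U := (F '' sphere 0 1 ∪ Iset p e t1 t2)ᶜ)
    (V := (F '' sphere 0 1 ∪ Iset p e t1 t2) \ {p}) ?_ (z0 := p) ?_ ?_
    (α0 := θ - Real.pi / 2) (β0 := θ) (α1 := θ + Real.pi / 2) (β1 := θ + Real.pi)
    (by linarith) (by linarith) (by linarith) (by linarith) hr0 hUm hUp hVp hVm hjU hjV
  · rw [Set.disjoint_left]
    intro x hx hx2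
    exact hx hx2.1
  · intro h
    exact h (Or.inr ⟨0, by linarith, ht1, by simp⟩)
  · intro h
    exact h.2 rfl

end Pool.Agent.H777R2
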