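import Pool.Agent.H777R2.Sep

set_option autoImplicit false
open Complex Set Topology Metric

namespace Pool.Agent.H777R2

variable {F : ℂ → ℂ} {p e : ℂ} {t1 t2 : ℝ} {α β : ℂ}

/-- preimage of the crosscut -/
def EE (F : ℂ → ℂ) (p e : ℂ) (t1 t2 : ℝ) : Set ℂ := ball 0 1 ∩ F ⁻¹' Iset p e t1 t2

/-- preimage of the complement -/
def Om (F : ℂ → ℂ) (p e : ℂ) (t1 t2 : ℝ) : Set ℂ :=
  ball 0 1 ∩ F ⁻¹' (F '' sphere 0 1 ∪ Iset p e t1 t2)ᶜ

/-- preimages of the sides -/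
noncomputable def WW (F : ℂ → ℂ) (p e : ℂ) (t1 t2 : ℝ) (σ : ℝ) : Set ℂ :=
  ball 0 1 ∩ F ⁻¹' VV F p e t1 t2 σ

theorem Fcont_ball (S : Setup F) : ContinuousOn F (ball 0 1) := S.cont.mono ball_subset_closedBall

theorem Om_open (S : Setup F) (C : CC F p e t1 t2 α β) : IsOpen (Om F p e t1 t2) :=
  (Fcont_ball S).isOpen_inter_preimage isOpen_ball (isOpen_O S C)

theorem WW_open (S : Setup F) (C : CC F p e t1 t2 α β) (σ : ℝ) : IsOpen (WW F p e t1 t2 σ) :=
  (Fcont_ball S).isOpen_inter_preimage isOpen_ball (isOpen_O S C).connectedComponentIn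

theorem WW_subset (σ : ℝ) : WW F p e t1 t2 σ ⊆ Om F p e t1 t2 := by
  intro z hz
  have h : F z ∈ (F '' sphere 0 1 ∪ Iset p e t1 t2)ᶜ :=
    connectedComponentIn_subset (F '' sphere 0 1 ∪ Iset p e t1 t2)ᶜ _ hz.2
  exact ⟨hz.1, h⟩

theorem ball_cases (S : Setup F) {z : ℂ} (hz : z ∈ ball (0:ℂ) 1) :
    z ∈ EE F p e t1 t2 ∨ z ∈ Om F p e t1 t2 := by
  by_cases h : F z ∈ Iset p e t1 t2
  · exact Or.inl ⟨hz, h⟩
  · exact Or.inr ⟨hz, fun h' => h'.elim (S.notMem z hz) h⟩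

theorem near_boundary (S : Setup F) (C : CC F p e t1 t2 α β) {ζ : ℂ} (hζ : ζ ∈ sphere (0:ℂ) 1)
    (h1 : ζ ≠ α) (h2 : ζ ≠ β) : ∃ r > 0, ball ζ r ∩ ball 0 1 ⊆ Om F p e t1 t2 := by
  have hK : IsCompact ((fun t : ℝ => p + t * e) '' Icc (-t2) t1) :=
    isCompact_Icc.image (by fun_prop)
  have hnot : F ζ ∉ (fun t : ℝ => p + t * e) '' Icc (-t2) t1 := by
    rintro ⟨t, ⟨ht2, ht1⟩, ht⟩
    rcases ht2.lt_or_eq with ht2 | ht2
    · rcases ht1.lt_or_eq with ht1 | ht1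
      · exact C.hI t ht2 ht1 ⟨ζ, hζ, ht.symm⟩
      · apply h1
        apply S.inj hζ C.hα
        rw [C.Fα, ← ht1]; exact ht.symm
    · apply h2
      apply S.inj hζ C.hβ
      rw [C.Fβ, ← ht, ← ht2]; push_cast; ring
  have hc := S.cont ζ (sphere_subset_closedBall hζ)
  have hmem : ((fun t : ℝ => p + t * e) '' Icc (-t2) t1)ᶜ ∈ 𝓝 (F ζ) :=
    hK.isClosed.isOpen_compl.mem_nhds hnot
  have := hc hmem
  rw [Filter.mem_map, Metric.mem_nhdsWithin_iff] at this
  obtain ⟨r, hr, hsub⟩ := this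
  refine ⟨r, hr, ?_⟩
  rintro z ⟨hz1, hz2⟩
  refine ⟨hz2, ?_⟩
  have h3 := hsub ⟨hz1, ball_subset_closedBall hz2⟩
  rintro (h4 | ⟨t, k1, k2, k3⟩)
  · exact S.notMem z hz2 h4
  · exact h3 ⟨t, ⟨k1.le, k2.le⟩, k3.symm⟩

theorem e_ne (C : CC F p e t1 t2 α β) : e ≠ 0 := by
  rintro rfl
  have := C.he
  simp at this

theorem a_ne (C : CC F p e t1 t2 α β) : -I * (starRingEnd ℂ) e ≠ 0 := by
  refine mul_ne_zero (neg_ne_zero.2 I_ne_zero) ?_
  rw [Ne, map_eq_zero]
  exact e_ne C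

theorem touches (S : Setup F) (C : CC F p e t1 t2 α β) {x : ℂ} (hx : x ∈ Om F p e t1 t2) :
    ∃ ζ ∈ sphere (0:ℂ) 1, ζ ≠ α ∧ ζ ≠ β ∧
      ζ ∈ closure (connectedComponentIn (Om F p e t1 t2) x) := by
  by_contra hcon
  push Not at hcon
  have hsubOm := connectedComponentIn_subset (Om F p e t1 t2) x
  have hsub : connectedComponentIn (Om F p e t1 t2) x ⊆ ball 0 1 := fun z hz => (hsubOm hz).1
  refine maxP S (a_ne C) (((-I * (starRingEnd ℂ) e) * p).re)
    (Om_open S C).connectedComponentIn ⟨x, mem_connectedComponentIn hx⟩ hsub ?_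
  intro z hz
  have hzc := frontier_subset_closure hz
  have hcb : z ∈ closedBall (0:ℂ) 1 :=
    closure_minimal (hsub.trans ball_subset_closedBall) isClosed_closedBall hzc
  have hzOm := comp_frontier (Om_open S C) hz
  have hell : ell p e (F z) = 0 := by
    rcases (mem_closedBall_zero_iff.1 hcb).lt_or_eq with h | h
    · rcases ball_cases (p := p) (e := e) (t1 := t1) (t2 := t2) S
        (mem_ball_zero_iff.2 h) with h1 | h1
      · exact Iset_ell C.he h1.2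
      · exact absurd h1 hzOm
    · have hs : z ∈ sphere (0:ℂ) 1 := mem_sphere_zero_iff_norm.2 h
      by_cases k1 : z = α
      · rw [k1, C.Fα]; exact ell_coord' C.he t1
      · by_cases k2 : z = β
        · rw [k2, C.Fβ]
          have := ell_coord' (p := p) C.he (-t2)
          rw [← this]
          congr 1
          push_cast; ring
        · exact absurd hzc (hcon z hs k1 k2)
  rw [ell_eq] at hell
  linarith

theorem ball_ball_closure {ζ : ℂ} {r : ℝ} (hζ : ζ ∈ sphere (0:ℂ) 1) {ζ' : ℂ}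
    (hζ' : ζ' ∈ sphere (0:ℂ) 1) (h : ζ' ∈ ball ζ r) : ζ' ∈ closure (ball ζ r ∩ ball 0 1) := by
  have h1 : ζ' ∈ closure (ball (0:ℂ) 1) := by
    rw [closure_ball 0 one_ne_zero]
    exact sphere_subset_closedBall hζ'
  exact isOpen_ball.inter_closure ⟨h, h1⟩

theorem near_comp (S : Setup F) (C : CC F p e t1 t2 α β) {ζ x : ℂ} (hζ : ζ ∈ sphere (0:ℂ) 1)
    (h1 : ζ ≠ α) (h2 : ζ ≠ β) (hc : ζ ∈ closure (connectedComponentIn (Om F p e t1 t2) x)) :
    ∃ r > 0, ball ζ r ∩ ball 0 1 ⊆ connectedComponentIn (Om F p e t1 t2) x := by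
  obtain ⟨r, hr, hsub⟩ := near_boundary S C hζ h1 h2
  refine ⟨r, hr, ?_⟩
  obtain ⟨y, hy, hyd⟩ := Metric.mem_closure_iff.1 hc r hr
  have hyb : y ∈ ball ζ r ∩ ball 0 1 :=
    ⟨by rw [mem_ball, dist_comm]; exact hyd, (connectedComponentIn_subset _ _ hy).1⟩
  have hpre : IsPreconnected (ball ζ r ∩ ball (0:ℂ) 1) :=
    ((convex_ball _ _).inter (convex_ball _ _)).isPreconnected
  rw [connectedComponentIn_eq hy]
  exact hpre.subset_connectedComponentIn hyb hsub

theorem arc_sub (S : Setup F) (C : CC F p e t1 t2 α β) {A : Set ℂ} (hA : IsPreconnected A)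
    (hAs : A ⊆ sphere (0:ℂ) 1) (hAα : α ∉ A) (hAβ : β ∉ A) {x ζ : ℂ} (hζ : ζ ∈ A)
    (hc : ζ ∈ closure (connectedComponentIn (Om F p e t1 t2) x)) :
    A ⊆ closure (connectedComponentIn (Om F p e t1 t2) x) := by
  set G := connectedComponentIn (Om F p e t1 t2) x with hG
  have hnc : ∀ ζ ∈ A, ζ ∈ closure G → ∃ r > 0, ball ζ r ∩ ball 0 1 ⊆ G := by
    intro ζ hζ hc
    exact near_comp S C (hAs hζ) (fun h => hAα (h ▸ hζ)) (fun h => hAβ (h ▸ hζ)) hc
  choose! r hr hrsub using hnc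
  set u : Set ℂ := ⋃ ζ ∈ A ∩ closure G, ball ζ (r ζ) with hu
  have huo : IsOpen u := isOpen_biUnion fun _ _ => isOpen_ball
  have hvo : IsOpen (closure G)ᶜ := isClosed_closure.isOpen_compl
  have hucl : ∀ ζ' ∈ A, ζ' ∈ u → ζ' ∈ closure G := by
    intro ζ' hζ' h
    rw [hu, mem_iUnion₂] at h
    obtain ⟨ζ, ⟨h1, h2⟩, h3⟩ := h
    exact closure_mono (hrsub ζ h1 h2) (ball_ball_closure (hAs h1) (hAs hζ') h3)
  have hcov : A ⊆ u ∪ (closure G)ᶜ := by
    intro ζ' hζ'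
    by_cases h : ζ' ∈ closure G
    · left
      rw [hu, mem_iUnion₂]
      exact ⟨ζ', ⟨hζ', h⟩, mem_ball_self (hr ζ' hζ' h)⟩
    · exact Or.inr h
  have hdis : A ∩ (u ∩ (closure G)ᶜ) = ∅ := by
    rw [Set.eq_empty_iff_forall_notMem]
    rintro ζ' ⟨h1, h2, h3⟩
    exact h3 (hucl ζ' h1 h2)
  rcases isPreconnected_iff_subset_of_disjoint.1 hA u (closure G)ᶜ huo hvo hcov hdis with h | h
  · intro ζ' hζ'
    exact hucl ζ' hζ' (h hζ')
  · exact absurd hc (h hζ)

theorem same_comp (S : Setup F) (C : CC F p e t1 t2 α β) {x y ζ : ℂ} (hζ : ζ ∈ sphere (0:ℂ) 1)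
    (h1 : ζ ≠ α) (h2 : ζ ≠ β) (hx : ζ ∈ closure (connectedComponentIn (Om F p e t1 t2) x))
    (hy : ζ ∈ closure (connectedComponentIn (Om F p e t1 t2) y)) :
    connectedComponentIn (Om F p e t1 t2) x = connectedComponentIn (Om F p e t1 t2) y := by
  obtain ⟨r1, hr1, hs1⟩ := near_comp S C hζ h1 h2 hx
  obtain ⟨r2, hr2, hs2⟩ := near_comp S C hζ h1 h2 hy
  have hm : ζ ∈ closure (ball (0:ℂ) 1) := by
    rw [closure_ball 0 one_ne_zero]
    exact sphere_subset_closedBall hζ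
  obtain ⟨w, hw, hwd⟩ := Metric.mem_closure_iff.1 hm (min r1 r2) (lt_min hr1 hr2)
  rw [dist_comm] at hwd
  have k1 := hs1 ⟨mem_ball.2 (hwd.trans_le (min_le_left _ _)), hw⟩
  have k2 := hs2 ⟨mem_ball.2 (hwd.trans_le (min_le_right _ _)), hw⟩
  rw [connectedComponentIn_eq k1, connectedComponentIn_eq k2]

theorem arcs (α β : ℂ) (hα : α ∈ sphere (0:ℂ) 1) (hβ : β ∈ sphere (0:ℂ) 1) (hne : α ≠ β) :
    ∃ A1 A2 : Set ℂ, IsPreconnected A1 ∧ IsPreconnected A2 ∧ A1 ⊆ sphere (0:ℂ) 1 ∧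
      A2 ⊆ sphere (0:ℂ) 1 ∧ α ∉ A1 ∧ β ∉ A1 ∧ α ∉ A2 ∧ β ∉ A2 ∧
      ∀ ζ ∈ sphere (0:ℂ) 1, ζ ≠ α → ζ ≠ β → ζ ∈ A1 ∨ ζ ∈ A2 := by
  -- angles relative to α
  have hα0 : α ≠ 0 := by
    rintro rfl
    simp at hα
  rw [mem_sphere_zero_iff_norm] at hα hβ
  have hrep : ∀ ζ : ℂ, ‖ζ‖ = 1 → ∃ t : ℝ, 0 ≤ t ∧ t < 2 * Real.pi ∧ ζ = α * exp (t * I) := by
    intro ζ hζ
    have h1 : ‖ζ / α‖ = 1 := by rw [norm_div, hζ, hα]; norm_num
    have h2 := norm_mul_exp_arg_mul_I (ζ / α)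
    rw [h1, ofReal_one, one_mul] at h2
    rcases le_or_gt 0 (arg (ζ / α)) with h | h
    · refine ⟨arg (ζ / α), h, ?_, ?_⟩
      · have := arg_le_pi (ζ / α)
        linarith [Real.pi_pos]
      · rw [h2]; field_simp
    · refine ⟨arg (ζ / α) + 2 * Real.pi, ?_, by linarith, ?_⟩
      · have := neg_pi_lt_arg (ζ / α)
        linarith [Real.pi_pos]
      · push_cast
        rw [add_mul, exp_add, exp_two_pi_mul_I, mul_one, h2]; field_simp
  obtain ⟨b, hb0, hb1, hb⟩ := hrep β hβ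
  have hinj : ∀ s t : ℝ, 0 ≤ s → s < 2 * Real.pi → 0 ≤ t → t < 2 * Real.pi →
      α * exp (s * I) = α * exp (t * I) → s = t := by
    intro s t hs0 hs1 ht0 ht1 h
    have h1 := mul_left_cancel₀ hα0 h
    rw [exp_eq_exp_iff_exists_int] at h1
    obtain ⟨n, hn⟩ := h1
    have h2 : (s : ℂ) = t + n * (2 * Real.pi) := by
      have h3 : ((s:ℂ) - (t + n * (2 * Real.pi))) * I = 0 := by linear_combination hn
      rcases mul_eq_zero.1 h3 with h4 | h4
      · linear_combination h4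
      · exact absurd h4 I_ne_zero
    have h3 : s = t + n * (2 * Real.pi) := by exact_mod_cast h2
    have h4 : (n : ℝ) < 1 := by
      by_contra hc
      push Not at hc
      nlinarith [Real.pi_pos]
    have h5 : (-1 : ℝ) < n := by
      by_contra hc
      push Not at hc
      nlinarith [Real.pi_pos]
    have h6 : n < 1 := by exact_mod_cast h4
    have h7 : -1 < n := by exact_mod_cast h5
    have h8 : n = 0 := by omega
    rw [h8] at h3
    simpa using h3
  have hα1 : α = α * exp ((0:ℝ) * I) := by simp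
  have hbpos : 0 < b := by
    rcases hb0.lt_or_eq with h | h
    · exact h
    · exfalso
      apply hne
      rw [hb, ← h]
      simp
  refine ⟨(fun t : ℝ => α * exp (t * I)) '' Ioo 0 b,
    (fun t : ℝ => α * exp (t * I)) '' Ioo b (2 * Real.pi),
    isPreconnected_Ioo.image _ (Continuous.continuousOn (by fun_prop)),
    isPreconnected_Ioo.image _ (Continuous.continuousOn (by fun_prop)), ?_, ?_, ?_, ?_, ?_, ?_, ?_⟩
  · rintro _ ⟨t, -, rfl⟩
    simp [norm_exp_ofReal_mul_I, hα]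
  · rintro _ ⟨t, -, rfl⟩
    simp [norm_exp_ofReal_mul_I, hα]
  · rintro ⟨t, ⟨h1, h2⟩, h3⟩
    have := hinj t 0 h1.le (by linarith) le_rfl (by positivity) (by simpa using h3)
    linarith
  · rintro ⟨t, ⟨h1, h2⟩, h3⟩
    have := hinj t b h1.le (by linarith) hb0 hb1 (by rw [← hb]; exact h3)
    linarith
  · rintro ⟨t, ⟨h1, h2⟩, h3⟩
    have := hinj t 0 (by linarith) h2 le_rfl (by positivity) (by simpa using h3)
    linarith
  · rintro ⟨t, ⟨h1, h2⟩, h3⟩
    have := hinj t b (by linarith) h2 hb0 hb1 (by rw [← hb]; exact h3)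
    linarith
  · intro ζ hζ h1 h2
    rw [mem_sphere_zero_iff_norm] at hζ
    obtain ⟨t, ht0, ht1, ht⟩ := hrep ζ hζ
    rcases lt_trichotomy t b with h | h | h
    · left
      refine ⟨t, ⟨lt_of_le_of_ne ht0 ?_, h⟩, ht.symm⟩
      rintro rfl
      apply h1
      rw [ht]; simp
    · exfalso
      apply h2
      rw [ht, h, ← hb]
    · right
      exact ⟨t, ⟨h, ht1⟩, ht.symm⟩

theorem αβ_ne (C : CC F p e t1 t2 α β) : α ≠ β := by
  intro h
  have h1 := C.Fα
  rw [h, C.Fβ] at h1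
  have h2 : (((t1 + t2 : ℝ) : ℂ)) * e = 0 := by push_cast; linear_combination -h1
  rcases mul_eq_zero.1 h2 with h3 | h3
  · have := ofReal_eq_zero.1 h3
    linarith [C.ht1, C.ht2]
  · exact e_ne C h3

theorem three (S : Setup F) (C : CC F p e t1 t2 α β) {x y z : ℂ} (hx : x ∈ Om F p e t1 t2)
    (hy : y ∈ Om F p e t1 t2) (hz : z ∈ Om F p e t1 t2) :
    connectedComponentIn (Om F p e t1 t2) x = connectedComponentIn (Om F p e t1 t2) y ∨
    connectedComponentIn (Om F p e t1 t2) z = connectedComponentIn (Om F p e t1 t2) x ∨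
    connectedComponentIn (Om F p e t1 t2) z = connectedComponentIn (Om F p e t1 t2) y := by
  obtain ⟨A1, A2, c1, c2, s1, s2, n1, n2, n3, n4, hcov⟩ := arcs α β C.hα C.hβ (αβ_ne C)
  obtain ⟨ζx, x1, x2, x3, x4⟩ := touches S C hx
  obtain ⟨ζy, y1, y2, y3, y4⟩ := touches S C hy
  obtain ⟨ζz, z1, z2, z3, z4⟩ := touches S C hz
  have key : ∀ {A : Set ℂ} (_ : IsPreconnected A) (_ : A ⊆ sphere (0:ℂ) 1) (_ : α ∉ A)
      (_ : β ∉ A) {x y ζ ζ' : ℂ} (_ : ζ ∈ A) (_ : ζ' ∈ A)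
      (_ : ζ ∈ closure (connectedComponentIn (Om F p e t1 t2) x))
      (_ : ζ' ∈ closure (connectedComponentIn (Om F p e t1 t2) y)),
      connectedComponentIn (Om F p e t1 t2) x = connectedComponentIn (Om F p e t1 t2) y := by
    intro A hA hAs hAα hAβ x y ζ ζ' hζ hζ' h h'
    have h3 := arc_sub S C hA hAs hAα hAβ hζ' h' hζ
    exact same_comp S C (hAs hζ) (fun h => hAα (h ▸ hζ)) (fun h => hAβ (h ▸ hζ)) h h3
  rcases hcov ζx x1 x2 x3 with hx' | hx' <;> rcases hcov ζy y1 y2 y3 with hy' | hy' <;>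
    rcases hcov ζz z1 z2 z3 with hz' | hz'
  · exact Or.inl (key c1 s1 n1 n2 hx' hy' x4 y4)
  · exact Or.inl (key c1 s1 n1 n2 hx' hy' x4 y4)
  · exact Or.inr (Or.inl (key c1 s1 n1 n2 hz' hx' z4 x4))
  · exact Or.inr (Or.inr (key c2 s2 n3 n4 hz' hy' z4 y4))
  · exact Or.inr (Or.inr (key c1 s1 n1 n2 hz' hy' z4 y4))
  · exact Or.inr (Or.inl (key c2 s2 n3 n4 hz' hx' z4 x4))
  · exact Or.inl (key c2 s2 n3 n4 hx' hy' x4 y4)
  · exact Or.inl (key c2 s2 n3 n4 hx' hy' x4 y4)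

theorem near_E (S : Setup F) (C : CC F p e t1 t2 α β) {z0 : ℂ} (hz0 : z0 ∈ EE F p e t1 t2) :
    ∃ r > 0, ∀ z ∈ ball z0 r, z ∈ ball (0:ℂ) 1 ∧ (0 < ell p e (F z) → z ∈ WW F p e t1 t2 1) ∧
      (ell p e (F z) < 0 → z ∈ WW F p e t1 t2 (-1)) := by
  obtain ⟨hb, t, h1, h2, h3⟩ := hz0
  have hpos := DD_pos S C h1 h2
  have hc : ContinuousAt F z0 := (Fcont_ball S).continuousAt (isOpen_ball.mem_nhds hb)
  have hev : ∀ᶠ z in 𝓝 z0, dist (F z) (p + t * e) < DD F p e t ∧ z ∈ ball (0:ℂ) 1 := by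
    refine Filter.Eventually.and ?_ (isOpen_ball.mem_nhds hb)
    have := hc.eventually (ball_mem_nhds (F z0) hpos)
    rw [h3] at this
    exact this
  obtain ⟨r, hr, hball⟩ := Metric.eventually_nhds_iff_ball.1 hev
  refine ⟨r, hr, fun z hz => ?_⟩
  obtain ⟨k1, k2⟩ := hball z hz
  refine ⟨k2, fun h => ⟨k2, ?_⟩, fun h => ⟨k2, ?_⟩⟩
  · exact HB S C (by simp) h1 h2 k1 (by rw [one_mul]; exact h)
  · exact HB S C (by simp) h1 h2 k1 (by linarith)

theorem signs (S : Setup F) (C : CC F p e t1 t2 α β) {z0 : ℂ} (hz0 : z0 ∈ EE F p e t1 t2) :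
    z0 ∈ closure (WW F p e t1 t2 1) ∧ z0 ∈ closure (WW F p e t1 t2 (-1)) := by
  obtain ⟨H, hH, hHF⟩ := S.harm (-I * (starRingEnd ℂ) e)
  obtain ⟨r, hr, hball⟩ := near_E S C hz0
  have hell : ∀ z ∈ ball (0:ℂ) 1, (H z).re = ell p e (F z) + ((-I * (starRingEnd ℂ) e) * p).re := by
    intro z hz
    rw [hHF z hz, ell_eq]; ring
  have h0 : ell p e (F z0) = 0 := Iset_ell C.he hz0.2
  have hfinal : (∀ z ∈ ball (0:ℂ) 1, (H z).re = (H z0).re) → False := by
    intro h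
    refine not_const S (a_ne C) ((H z0).re) (fun z hz => ?_)
    rw [← hHF z hz, h z hz]
  constructor
  · by_contra hcon
    rw [Metric.mem_closure_iff] at hcon
    push Not at hcon
    obtain ⟨ε, hε, hcon⟩ := hcon
    refine hfinal (const_of_localMax hH hz0.1 ?_)
    filter_upwards [ball_mem_nhds z0 (lt_min hr hε)] with z hz
    have hzr : z ∈ ball z0 r := ball_subset_ball (min_le_left _ _) hz
    have hzε : dist z0 z < ε := by
      rw [dist_comm]; exact (mem_ball.1 hz).trans_le (min_le_right _ _)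
    obtain ⟨k1, k2, k3⟩ := hball z hzr
    rw [hell z k1, hell z0 hz0.1, h0]
    by_contra hlt
    push Not at hlt
    exact absurd (hcon z (k2 (by linarith))) (not_le.2 hzε)
  · by_contra hcon
    rw [Metric.mem_closure_iff] at hcon
    push Not at hcon
    obtain ⟨ε, hε, hcon⟩ := hcon
    refine hfinal (const_of_localMin hH hz0.1 ?_)
    filter_upwards [ball_mem_nhds z0 (lt_min hr hε)] with z hz
    have hzr : z ∈ ball z0 r := ball_subset_ball (min_le_left _ _) hz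
    have hzε : dist z0 z < ε := by
      rw [dist_comm]; exact (mem_ball.1 hz).trans_le (min_le_right _ _)
    obtain ⟨k1, k2, k3⟩ := hball z hzr
    rw [hell z k1, hell z0 hz0.1, h0]
    by_contra hlt
    push Not at hlt
    exact absurd (hcon z (k3 (by linarith))) (not_le.2 hzε)

theorem comp_sub (S : Setup F) {σ : ℝ} {x : ℂ} (hx : x ∈ WW F p e t1 t2 σ) :
    connectedComponentIn (Om F p e t1 t2) x ⊆ WW F p e t1 t2 σ := by
  intro z hz
  have hsub := connectedComponentIn_subset (Om F p e t1 t2) x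
  refine ⟨(hsub hz).1, ?_⟩
  have hpre : IsPreconnected (F '' connectedComponentIn (Om F p e t1 t2) x) :=
    isPreconnected_connectedComponentIn.image F
      ((Fcont_ball S).mono (fun z hz => (hsub hz).1))
  have hxOm : x ∈ Om F p e t1 t2 := WW_subset σ hx
  have h1 : F '' connectedComponentIn (Om F p e t1 t2) x ⊆
      connectedComponentIn (F '' sphere 0 1 ∪ Iset p e t1 t2)ᶜ (F x) := by
    refine hpre.subset_connectedComponentIn ⟨x, mem_connectedComponentIn hxOm, rfl⟩ ?_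
    rintro _ ⟨y, hy, rfl⟩
    exact (hsub hy).2
  have h2 : VV F p e t1 t2 σ = connectedComponentIn (F '' sphere 0 1 ∪ Iset p e t1 t2)ᶜ (F x) :=
    connectedComponentIn_eq hx.2
  show F z ∈ VV F p e t1 t2 σ
  rw [h2]
  exact h1 ⟨z, hz, rfl⟩

theorem WW_disjoint (S : Setup F) (C : CC F p e t1 t2 α β) :
    Disjoint (WW F p e t1 t2 1) (WW F p e t1 t2 (-1)) := by
  rw [Set.disjoint_left]
  intro z h1 h2
  exact Set.disjoint_left.1 (VV_disjoint S C) h1.2 h2.2

/-- The structure theorem: the two sides are connected and cover the complement of `E`. -/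
theorem structure_thm (S : Setup F) (C : CC F p e t1 t2 α β) (hE : (EE F p e t1 t2).Nonempty) :
    IsPreconnected (WW F p e t1 t2 1) ∧ IsPreconnected (WW F p e t1 t2 (-1)) ∧
      Om F p e t1 t2 = WW F p e t1 t2 1 ∪ WW F p e t1 t2 (-1) := by
  obtain ⟨z0, hz0⟩ := hE
  obtain ⟨s1, s2⟩ := signs S C hz0
  obtain ⟨x0, hx0⟩ : (WW F p e t1 t2 1).Nonempty := by
    rw [← closure_nonempty_iff]; exact ⟨z0, s1⟩
  obtain ⟨y0, hy0⟩ : (WW F p e t1 t2 (-1)).Nonempty := by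
    rw [← closure_nonempty_iff]; exact ⟨z0, s2⟩
  have hx0' := WW_subset _ hx0
  have hy0' := WW_subset _ hy0
  have hne : connectedComponentIn (Om F p e t1 t2) x0 ≠ connectedComponentIn (Om F p e t1 t2) y0 := by
    intro h
    have h1 := mem_connectedComponentIn hx0'
    rw [h] at h1
    exact Set.disjoint_left.1 (WW_disjoint S C) hx0 (comp_sub S hy0 h1)
  have hall : ∀ z ∈ Om F p e t1 t2, z ∈ connectedComponentIn (Om F p e t1 t2) x0 ∨
      z ∈ connectedComponentIn (Om F p e t1 t2) y0 := by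
    intro z hz
    rcases three S C hx0' hy0' hz with h | h | h
    · exact absurd h hne
    · left; rw [← h]; exact mem_connectedComponentIn hz
    · right; rw [← h]; exact mem_connectedComponentIn hz
  have e1 : WW F p e t1 t2 1 = connectedComponentIn (Om F p e t1 t2) x0 := by
    apply Subset.antisymm _ (comp_sub S hx0)
    intro z hz
    rcases hall z (WW_subset _ hz) with h | h
    · exact h
    · exact absurd (comp_sub S hy0 h) (Set.disjoint_left.1 (WW_disjoint S C) hz)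
  have e2 : WW F p e t1 t2 (-1) = connectedComponentIn (Om F p e t1 t2) y0 := by
    apply Subset.antisymm _ (comp_sub S hy0)
    intro z hz
    rcases hall z (WW_subset _ hz) with h | h
    · exact absurd hz (Set.disjoint_left.1 (WW_disjoint S C) (comp_sub S hx0 h))
    · exact h
  refine ⟨?_, ?_, ?_⟩
  · rw [e1]; exact isPreconnected_connectedComponentIn
  · rw [e2]; exact isPreconnected_connectedComponentIn
  · apply Subset.antisymm
    · intro z hz
      rw [e1, e2]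
      exact hall z hz
    · exact union_subset (WW_subset _) (WW_subset _)

end Pool.Agent.H777R2
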