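import Mathlib

set_option autoImplicit false
open Complex Set Topology Metric

namespace Pool.Agent.H777R2

/-- continuous logarithms on simply connected spaces -/
theorem exists_log {X : Type*} [TopologicalSpace X] [SimplyConnectedSpace X]
    [LocallyPathConnectedSpace X] {g : X → ℂ} (hg : Continuous g) (h0 : ∀ x, g x ≠ 0) :
    ∃ k : X → ℂ, Continuous k ∧ ∀ x, exp (k x) = g x := by
  obtain ⟨x₀⟩ : Nonempty X := inferInstance
  obtain ⟨F, ⟨-, hF⟩, -⟩ := Complex.isCoveringMapOn_exp.existsUnique_continuousMap_lifts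
    ⟨g, hg⟩ (exp_log (h0 x₀)) (fun x ↦ h0 x)
  exact ⟨F, F.continuous, fun x ↦ congrFun hF x⟩

theorem exp_const {X : Type*} [TopologicalSpace X] [PreconnectedSpace X] {k : X → ℂ}
    (hk : Continuous k) {c : ℂ} (h : ∀ x, exp (k x) = c) (x y : X) : k x = k y := by
  refine isCoveringMap_exp.const_of_comp hk (fun a a' => ?_) x y
  simp [h]

theorem exp_const_on {X : Type*} [TopologicalSpace X] {A : Set X} (hA : IsPreconnected A)
    {k : X → ℂ} (hk : ContinuousOn k A) {c : ℂ} (h : ∀ x ∈ A, exp (k x) = c) {x y : X}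
    (hx : x ∈ A) (hy : y ∈ A) : k x = k y := by
  have : PreconnectedSpace A := isPreconnected_iff_preconnectedSpace.1 hA
  exact exp_const (X := A) (k := A.domRestrict k)
    (continuousOn_iff_continuous_domRestrict.1 hk) (c := c) (fun z => h z z.2) ⟨x, hx⟩ ⟨y, hy⟩

theorem side {g k : ℝ → ℂ} (hg : Continuous g) (hk : Continuous k)
    (hexp : ∀ s, exp (k s) = g s) {c : ℂ} (hc : ∀ s, 0 < (g s / c).re) (s t : ℝ) :
    k s - k t = log (g s / c) - log (g t / c) := by
  have hc0 : c ≠ 0 := by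
    rintro rfl
    have := hc 0
    simp at this
  have hcont : Continuous fun s => k s - log (g s / c) := by
    refine hk.sub ?_
    refine Continuous.clog (hg.div_const c) (fun s => Or.inl (hc s))
  have hval : ∀ s, exp (k s - log (g s / c)) = c := by
    intro s
    have hne : g s / c ≠ 0 := by
      intro h
      have := hc s
      rw [h] at this
      simp at this
    have hgs : g s ≠ 0 := by
      rintro h
      rw [h] at hne
      simp at hne
    rw [exp_sub, hexp, exp_log hne]
    field_simp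
  have := exp_const hcont hval s t
  linear_combination this

theorem one_sub_exp (θ : ℝ) : 1 - exp (θ * I) =
    ((2 * Real.sin (θ / 2) : ℝ) : ℂ) * exp (((θ / 2 - Real.pi / 2 : ℝ) : ℂ) * I) := by
  apply Complex.ext
  · have h1 : (exp (((θ / 2 - Real.pi / 2 : ℝ) : ℂ) * I)).re = Real.sin (θ / 2) := by
      rw [exp_ofReal_mul_I_re, Real.cos_sub_pi_div_two]
    rw [re_ofReal_mul, h1, sub_re, exp_ofReal_mul_I_re, one_re]
    have : θ = 2 * (θ / 2) := by ring
    rw [this, Real.cos_two_mul]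
    have := Real.sin_sq_add_cos_sq (θ / 2)
    rw [show 2 * (θ / 2) / 2 = θ / 2 by ring]
    nlinarith
  · have h1 : (exp (((θ / 2 - Real.pi / 2 : ℝ) : ℂ) * I)).im = - Real.cos (θ / 2) := by
      rw [exp_ofReal_mul_I_im, Real.sin_sub_pi_div_two]
    rw [im_ofReal_mul, h1, sub_im, exp_ofReal_mul_I_im, one_im]
    have : θ = 2 * (θ / 2) := by ring
    rw [this, Real.sin_two_mul]
    rw [show 2 * (θ / 2) / 2 = θ / 2 by ring]
    ring

theorem log_one_sub {θ : ℝ} (h0 : 0 < θ) (h1 : θ < 2 * Real.pi) : log (1 - exp (θ * I)) =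
    (Real.log (2 * Real.sin (θ / 2)) : ℂ) + ((θ / 2 - Real.pi / 2 : ℝ) : ℂ) * I := by
  have hs : 0 < 2 * Real.sin (θ / 2) := by
    have := Real.sin_pos_of_pos_of_lt_pi (x := θ / 2) (by linarith) (by linarith)
    linarith
  rw [one_sub_exp, ← Real.exp_log hs, ofReal_exp, ← exp_add, Real.exp_log hs, log_exp]
  · simp
    linarith [Real.pi_pos]
  · simp
    linarith [Real.pi_pos]

theorem log_one_sub' {θ : ℝ} (h0 : 0 < θ) (h1 : θ < 2 * Real.pi) : log (1 - exp (-(θ * I))) =
    (Real.log (2 * Real.sin (θ / 2)) : ℂ) - ((θ / 2 - Real.pi / 2 : ℝ) : ℂ) * I := by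
  have hs : 0 < 2 * Real.sin (θ / 2) := by
    have := Real.sin_pos_of_pos_of_lt_pi (x := θ / 2) (by linarith) (by linarith)
    linarith
  have h2 : 1 - exp (-(θ * I)) = ((2 * Real.sin (θ / 2) : ℝ) : ℂ) *
      exp (-(((θ / 2 - Real.pi / 2 : ℝ) : ℂ) * I)) := by
    have := one_sub_exp (-θ)
    rw [show ((-θ : ℝ) : ℂ) * I = -(θ * I) by push_cast; ring] at this
    rw [this, show -θ / 2 = -(θ / 2) by ring, Real.sin_neg]
    rw [show ((-(θ / 2) - Real.pi / 2 : ℝ) : ℂ) * I =
      -(((θ / 2 - Real.pi / 2 : ℝ) : ℂ) * I) + -(Real.pi * I) by push_cast; ring, exp_add,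
      exp_neg (Real.pi * I), exp_pi_mul_I]
    push_cast
    ring
  rw [h2, ← Real.exp_log hs, ofReal_exp, ← exp_add, Real.exp_log hs, log_exp]
  · ring
  · simp
    linarith [Real.pi_pos]
  · simp
    linarith [Real.pi_pos]

/-- the jump term -/
theorem T_eq {α β : ℝ} {θ : ℝ} (h : exp (α * I) = exp (β * I) * exp (θ * I)) (h0 : 0 < θ)
    (h1 : θ < 2 * Real.pi) :
    log ((exp (α * I) - exp (β * I)) / (-exp (β * I))) -
      log ((exp (α * I) - exp (β * I)) / exp (α * I)) = (θ - Real.pi) * I := by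
  have e1 : (exp (α * I) - exp (β * I)) / (-exp (β * I)) = 1 - exp (θ * I) := by
    rw [h]
    have := exp_ne_zero (β * I)
    field_simp
    ring
  have e2 : (exp (α * I) - exp (β * I)) / exp (α * I) = 1 - exp (-(θ * I)) := by
    rw [h, exp_neg]
    have h1 := exp_ne_zero (β * I)
    have h2 := exp_ne_zero (θ * I)
    field_simp
  rw [e1, e2, log_one_sub h0 h1, log_one_sub' h0 h1]
  push_cast
  ring

theorem re_lt_one {w : ℂ} (h : ‖w‖ ≤ 1) (h1 : w ≠ 1) : w.re < 1 := by
  rcases lt_or_eq_of_le ((re_le_norm w).trans h) with h2 | h2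
  · exact h2
  · exfalso
    apply h1
    have h3 : ‖w‖ ^ 2 ≤ 1 := by
      have := norm_nonneg w
      nlinarith
    rw [← normSq_eq_norm_sq, normSq_apply] at h3
    apply Complex.ext
    · simpa using h2
    · simp only [one_im]
      rw [h2] at h3
      have : w.im * w.im ≤ 0 := by linarith
      exact mul_self_eq_zero.1 (le_antisymm this (mul_self_nonneg _))

/-- crossing lemma in the unit disc -/
theorem crossing {a b : ℝ → ℂ} (ha : Continuous a) (hb : Continuous b)
    (ha1 : ∀ s, ‖a s‖ ≤ 1) (hb1 : ∀ t, ‖b t‖ ≤ 1) {α0 β0 α1 β1 : ℝ} (h1 : α0 < β0) (h2 : β0 < α1)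
    (h3 : α1 < β1) (h4 : β1 < α0 + 2 * Real.pi) (ha0 : a 0 = exp (α0 * I))
    (ha1' : a 1 = exp (α1 * I)) (hb0 : b 0 = exp (β0 * I)) (hb1' : b 1 = exp (β1 * I)) :
    ∃ s t, a s = b t := by
  by_contra hcon
  push Not at hcon
  obtain ⟨k, hk, hkexp⟩ := exists_log (X := ℝ × ℝ) (g := fun p => a p.1 - b p.2)
    ((ha.comp continuous_fst).sub (hb.comp continuous_snd)) (fun p => sub_ne_zero.2 (hcon _ _))
  have hB : ∀ (B : ℂ), ‖B‖ = 1 → ∀ z : ℂ, ‖z‖ ≤ 1 → z ≠ B → 0 < ((z - B) / (-B)).re := by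
    intro B hB z hz hne
    have hB0 : B ≠ 0 := by
      rintro rfl
      simp at hB
    have e : (z - B) / (-B) = 1 - z / B := by
      field_simp
      ring
    rw [e, sub_re, one_re, sub_pos]
    apply re_lt_one
    · rw [norm_div, hB]
      simpa using hz
    · intro h
      apply hne
      field_simp at h
      exact h
  have hA : ∀ (A : ℂ), ‖A‖ = 1 → ∀ z : ℂ, ‖z‖ ≤ 1 → z ≠ A → 0 < ((A - z) / A).re := by
    intro A hA z hz hne
    have := hB A hA z hz hne
    have e : (A - z) / A = (z - A) / (-A) := by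
      rw [div_neg, ← neg_div, neg_sub]
    rwa [e]
  have nexp : ∀ x : ℝ, ‖exp (x * I)‖ = 1 := fun x => norm_exp_ofReal_mul_I x
  -- four sides
  have s1 := side (g := fun s => a s - b 0) (k := fun s => k (s, 0)) (ha.sub continuous_const)
    (hk.comp (by fun_prop)) (fun s => hkexp (s, 0)) (c := - exp (β0 * I))
    (fun s => by
      rw [hb0]
      exact hB _ (nexp _) _ (ha1 s) (by rw [← hb0]; exact hcon _ _)) 1 0
  have s2 := side (g := fun s => a s - b 1) (k := fun s => k (s, 1)) (ha.sub continuous_const)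
    (hk.comp (by fun_prop)) (fun s => hkexp (s, 1)) (c := - exp (β1 * I))
    (fun s => by
      rw [hb1']
      exact hB _ (nexp _) _ (ha1 s) (by rw [← hb1']; exact hcon _ _)) 1 0
  have s3 := side (g := fun t => a 0 - b t) (k := fun t => k (0, t)) (continuous_const.sub hb)
    (hk.comp (by fun_prop)) (fun s => hkexp (0, s)) (c := exp (α0 * I))
    (fun t => by
      rw [ha0]
      exact hA _ (nexp _) _ (hb1 t) (by rw [← ha0]; exact (hcon _ _).symm)) 1 0
  have s4 := side (g := fun t => a 1 - b t) (k := fun t => k (1, t)) (continuous_const.sub hb)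
    (hk.comp (by fun_prop)) (fun s => hkexp (1, s)) (c := exp (α1 * I))
    (fun t => by
      rw [ha1']
      exact hA _ (nexp _) _ (hb1 t) (by rw [← ha1']; exact (hcon _ _).symm)) 1 0
  rw [ha0, ha1', hb0] at s1
  rw [ha0, ha1', hb1'] at s2
  rw [ha0, hb0, hb1'] at s3
  rw [ha1', hb0, hb1'] at s4
  have hper : exp (2 * Real.pi * I) = 1 := exp_two_pi_mul_I
  have t1 := T_eq (α := α1) (β := β0) (θ := α1 - β0) (by
    rw [← exp_add]; congr 1; push_cast; ring) (by linarith) (by linarith)
  have t2 := T_eq (α := α0) (β := β0) (θ := α0 - β0 + 2 * Real.pi) (by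
    rw [← exp_add, show (β0 : ℂ) * I + ((α0 - β0 + 2 * Real.pi : ℝ) : ℂ) * I =
      α0 * I + 2 * Real.pi * I by push_cast; ring, exp_add, hper, mul_one]) (by linarith)
    (by linarith)
  have t3 := T_eq (α := α1) (β := β1) (θ := α1 - β1 + 2 * Real.pi) (by
    rw [← exp_add, show (β1 : ℂ) * I + ((α1 - β1 + 2 * Real.pi : ℝ) : ℂ) * I =
      α1 * I + 2 * Real.pi * I by push_cast; ring, exp_add, hper, mul_one]) (by linarith)
    (by linarith)
  have t4 := T_eq (α := α0) (β := β1) (θ := α0 - β1 + 2 * Real.pi) (by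
    rw [← exp_add, show (β1 : ℂ) * I + ((α0 - β1 + 2 * Real.pi : ℝ) : ℂ) * I =
      α0 * I + 2 * Real.pi * I by push_cast; ring, exp_add, hper, mul_one]) (by linarith)
    (by linarith)
  have key : ((2 * Real.pi : ℝ) : ℂ) * I = 0 := by
    push_cast at t1 t2 t3 t4 ⊢
    linear_combination s1 + s4 - s2 - s3 + t1 - t2 - t3 + t4
  have : (2 * Real.pi : ℝ) = 0 := by
    have h5 := congrArg Complex.im key
    simpa using h5
  linarith [Real.pi_pos]

/-- there is no continuous logarithm of `x - w` on a circle around `w` -/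
theorem no_log_circle {R : ℝ} {w : ℂ} (hw : ‖w‖ < R) {k : ℂ → ℂ} (hk : ContinuousOn k (sphere 0 R))
    (h : ∀ x ∈ sphere (0:ℂ) R, exp (k x) = x - w) : False := by
  have hR : 0 < R := (norm_nonneg w).trans_lt hw
  have hmem : ∀ t : ℝ, (R : ℂ) * exp (t * I) ∈ sphere (0:ℂ) R := by
    intro t
    simp [norm_exp_ofReal_mul_I, abs_of_pos hR]
  have hre : ∀ t : ℝ, 0 < ((R : ℂ) - w * exp (-(t * I))).re := by
    intro t
    have h1 : (w * exp (-(t * I))).re ≤ ‖w‖ := by
      refine (re_le_norm _).trans ?_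
      rw [norm_mul, show -((t : ℂ) * I) = ((-t : ℝ) : ℂ) * I by push_cast; ring,
        norm_exp_ofReal_mul_I, mul_one]
    rw [sub_re, ofReal_re]
    linarith
  have hcont : Continuous fun t : ℝ => k ((R : ℂ) * exp (t * I)) - t * I -
      log ((R : ℂ) - w * exp (-(t * I))) := by
    refine Continuous.sub (Continuous.sub ?_ (by fun_prop)) ?_
    · exact hk.comp_continuous (by fun_prop) hmem
    · refine Continuous.clog (by fun_prop) (fun t => Or.inl (hre t))
  have hval : ∀ t : ℝ, exp (k ((R : ℂ) * exp (t * I)) - t * I -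
      log ((R : ℂ) - w * exp (-(t * I)))) = 1 := by
    intro t
    have hne : (R : ℂ) - w * exp (-(t * I)) ≠ 0 := by
      intro h0
      have := hre t
      rw [h0] at this
      simp at this
    rw [exp_sub, exp_sub, h _ (hmem t), exp_log hne]
    have h1 := exp_ne_zero ((t:ℂ) * I)
    rw [div_div, div_eq_one_iff_eq (mul_ne_zero h1 hne), mul_sub, exp_neg]
    field_simp
  have := exp_const hcont hval 0 (2 * Real.pi)
  have e1 : exp (((2 * Real.pi : ℝ) : ℂ) * I) = 1 := by
    push_cast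
    exact exp_two_pi_mul_I
  have e2 : exp (-(((2 * Real.pi : ℝ) : ℂ) * I)) = 1 := by
    rw [exp_neg, e1, inv_one]
  rw [e1, e2] at this
  have h6 : ((2 * Real.pi : ℝ) : ℂ) * I = 0 := by
    have h7 : k ↑R = k ↑R - 2 * ↑Real.pi * I := by simpa using this
    push_cast
    linear_combination h7
  have h5 := congrArg Complex.im h6
  have : (2 * Real.pi : ℝ) = 0 := by simpa using h5
  linarith [Real.pi_pos]

/-- unicoherence of simply connected spaces -/
theorem unicoherent {X : Type*} [MetricSpace X] [SimplyConnectedSpace X]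
    [LocallyPathConnectedSpace X] {A B : Set X} (hA : IsClosed A) (hB : IsClosed B)
    (hAc : IsPreconnected A) (hBc : IsPreconnected B) (hAB : A ∪ B = univ) :
    IsPreconnected (A ∩ B) := by
  rw [isPreconnected_closed_iff]
  intro t t' ht ht' hsub hP hQ
  by_contra hcon
  rw [Set.not_nonempty_iff_eq_empty] at hcon
  set P := A ∩ B ∩ t with hPdef
  set Q := A ∩ B ∩ t' with hQdef
  have hPQ : Disjoint P Q := by
    rw [Set.disjoint_iff_inter_eq_empty]
    rw [← Set.subset_empty_iff, ← hcon]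
    rintro x ⟨⟨hx1, hx2⟩, ⟨_, hx3⟩⟩
    exact ⟨hx1, hx2, hx3⟩
  obtain ⟨θ, hθ0, hθ1, -⟩ := exists_continuous_zero_one_of_isClosed
    ((hA.inter hB).inter ht : IsClosed P) ((hA.inter hB).inter ht' : IsClosed Q) hPQ
  have hboth : ∀ x ∈ A ∩ B, exp (Real.pi * θ x * I) = exp (-(Real.pi * θ x * I)) := by
    intro x hx
    rcases hsub hx with h | h
    · have : θ x = 0 := hθ0 ⟨hx, h⟩
      rw [this]; simp
    · have : θ x = 1 := hθ1 ⟨hx, h⟩
      rw [this]
      simp only [ofReal_one, mul_one]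
      rw [exp_neg, exp_pi_mul_I]
      norm_num
  classical
  have hgc : Continuous (A.piecewise (fun x => exp (Real.pi * θ x * I))
      (fun x => exp (-(Real.pi * θ x * I)))) := by
    refine Continuous.piecewise ?_ (by fun_prop) (by fun_prop)
    intro a ha
    refine hboth a ⟨hA.frontier_subset ha, ?_⟩
    have h1 : a ∈ closure Aᶜ := by
      rw [frontier_eq_closure_inter_closure] at ha
      exact ha.2
    have h2 : Aᶜ ⊆ B := by
      intro x hx
      have : x ∈ A ∪ B := by rw [hAB]; trivial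
      exact this.resolve_left hx
    exact (closure_minimal h2 hB) h1
  obtain ⟨k, hk, hkexp⟩ := exists_log hgc (by
    intro x
    by_cases hx : x ∈ A
    · rw [Set.piecewise_eq_of_mem _ _ _ hx]; exact exp_ne_zero _
    · rw [Set.piecewise_eq_of_notMem _ _ _ hx]; exact exp_ne_zero _)
  obtain ⟨p, hp⟩ := hP
  obtain ⟨q, hq⟩ := hQ
  have hp0 : θ p = 0 := hθ0 hp
  have hq1 : θ q = 1 := hθ1 hq
  have e1 := exp_const_on hAc (k := fun x => k x - Real.pi * θ x * I)
    (Continuous.continuousOn (by fun_prop)) (c := 1) (fun x hx => by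
      rw [exp_sub, hkexp, Set.piecewise_eq_of_mem _ _ _ hx, div_self (exp_ne_zero _)])
      hp.1.1 hq.1.1
  have e2 := exp_const_on hBc (k := fun x => k x + Real.pi * θ x * I)
    (Continuous.continuousOn (by fun_prop)) (c := 1) (fun x hx => by
      by_cases hxA : x ∈ A
      · rw [exp_add, hkexp, Set.piecewise_eq_of_mem _ _ _ hxA]
        have h := hboth x ⟨hxA, hx⟩
        calc exp (Real.pi * θ x * I) * exp (Real.pi * θ x * I)
            = exp (-(Real.pi * θ x * I)) * exp (Real.pi * θ x * I) := by rw [← h]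
          _ = 1 := by rw [← exp_add]; simp
      · rw [exp_add, hkexp, Set.piecewise_eq_of_notMem _ _ _ hxA, ← exp_add]
        simp) hp.1.2 hq.1.2
  rw [hp0, hq1] at e1 e2
  have : ((2 * Real.pi : ℝ) : ℂ) * I = 0 := by
    push_cast at e1 e2 ⊢
    linear_combination e1 - e2
  have h5 := congrArg Complex.im this
  have : (2 * Real.pi : ℝ) = 0 := by simpa using h5
  linarith [Real.pi_pos]

end Pool.Agent.H777R2
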